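import Pool.Agent.R561.PCt
import Pool.Agent.H442R3.MPar.Alg

/-!
# The algorithm on lists
-/

set_option autoImplicit false

namespace Pool.Agent.R561

open Pool.Agent.NPC
open Pool.Agent.H442R3.MPar (kerL poly_kerL)

/-- the type of inputs and outputs: lists of lists -/
abbrev LL : Type := List (List ℕ)

/-- the faces of top dimension -/
def topF (x : LL) : LL := x.filter (fun F => x.all (fun G => decide (G.length ≤ F.length)))

/-- coefficient of the face `G` in the boundary of `F`, modulo `p` -/
def coefL (p : ℕ) (F G : List ℕ) : ℕ :=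
  (F.zipIdx.map (fun a => if F.filter (fun v => !decide (v = a.1)) = G then
    (if a.2 % 2 = 0 then 1 else p - 1) else 0)).sum

/-- the rows of the boundary matrix restricted to the columns in `B` -/
def rowsB (p : ℕ) (x : LL) (B : List ℕ) : LL :=
  x.map (fun G => B.map (fun i => coefL p ((topF x).getD i []) G))

/-- bound for the primes -/
def tb (n : ℕ) : ℕ := 2 * n * n + 2 * n + 5

/-- bound for the primes -/
def TT (x : LL) : ℕ := tb x.length * tb x.length + 1

/-- primality by trial division by all numbers less than `T` -/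
def prL (T p : ℕ) : Bool :=
  decide (2 ≤ p) && (List.range T).all (fun q => decide (q < 2) || (decide (p ≤ q) ||
    !decide (p % q = 0)))

/-- test of independence -/
def indL (x : LL) (B : List ℕ) : Bool :=
  (List.range (TT x)).any (fun q => prL (TT x) (q + 1) &&
    (kerL (q + 1) (List.range B.length) (rowsB (q + 1) x B)).isEmpty)

/-- number of top faces -/
def nT (x : LL) : ℕ := (topF x).length

/-- greedy basis -/
def base (x : LL) : List ℕ :=
  (List.range (nT x)).foldl (fun B i => bif indL x (B ++ [i]) then B ++ [i] else B) []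

/-- number of bits of an index -/
def aa (x : LL) : ℕ := (nT x).bits.length

/-- number of values of an index -/
def ww (x : LL) : ℕ := 2 ^ aa x

/-- number of values of a pair of indices -/
def MM (x : LL) : ℕ := ww x * ww x

/-- number of steps of the walk -/
def tt (x : LL) (s : ℕ) : ℕ := 2 * MM x * (s + nT x + 1)

/-- number of random bits of the walk -/
def mm (x : LL) (s : ℕ) : ℕ := 2 * aa x * tt x s

/-- exchange of `i` for `j` -/
def swp (N : ℕ) (B : List ℕ) (i j : ℕ) : List ℕ :=
  (List.range N).filter (fun k => (decide (k ∈ B) && !decide (k = i)) || decide (k = j))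

/-- one step of the walk -/
def stp (x : LL) (B : List ℕ) (u : ℕ) : List ℕ :=
  bif decide (u / ww x ∈ B) && (!decide (u % ww x ∈ B) && (decide (u % ww x < nT x) &&
    indL x (swp (nT x) B (u / ww x) (u % ww x)))) then swp (nT x) B (u / ww x) (u % ww x) else B

/-- one step of the walk, reading a digit -/
def stN (x : LL) (q : List ℕ × ℕ) : List ℕ × ℕ := (stp x q.1 (q.2 % MM x), q.2 / MM x)

/-- the walk -/
def simN (x : LL) (t : ℕ) (B : List ℕ) (v : ℕ) : List ℕ := ((stN x)^[t] (B, v)).1

/-- output of a basis -/
def outB (x : LL) (B : List ℕ) : LL :=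
  x.filter (fun F => !decide (F ∈ topF x) || B.any (fun i => decide ((topF x).getD i [] = F)))

/-- the bases among a list of subsets -/
def bases (x : LL) (subs : LL) : LL :=
  subs.filter (fun B => decide (B.length = (base x).length) && indL x B)

/-- number of ways to move from `z` to `y` -/
def tc (x : LL) (z y : List ℕ) : ℕ :=
  ((List.range (MM x)).filter (fun u => decide (stp x z u = y))).length

/-- one step of the dynamic program -/
def dpS (x Bs : LL) (c : List ℕ) : List ℕ :=
  Bs.map (fun y => ((Bs.zip c).map (fun zc => zc.2 * tc x zc.1 y)).sum)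

/-- the dynamic program -/
def dp (x Bs : LL) (t : ℕ) : List ℕ :=
  (dpS x Bs)^[t] (Bs.map (fun y => if y = base x then 1 else 0))

/-- the list of bases with their quotas -/
def quo (x Bs : LL) (s : ℕ) : List (List ℕ × ℕ) :=
  (Bs.zip (dp x Bs (tt x s))).map (fun yc =>
    (yc.1, 2 ^ (s + mm x s) / Bs.length - (2 ^ s - 1) * yc.2))

/-- one step of the selection -/
def pkS (q : Option (List ℕ) × ℕ) (yn : List ℕ × ℕ) : Option (List ℕ) × ℕ :=
  bif q.1.isSome then q else
    bif decide (q.2 < yn.2) then (some yn.1, q.2) else (none, q.2 - yn.2)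

/-- selection according to the quotas -/
def pick (l : List (List ℕ × ℕ)) (v : ℕ) : Option (List ℕ) := (l.foldl pkS (none, v)).1

/-- the exact correction, given all subsets -/
def gF (x : LL) (s : ℕ) (w : List Bool) (subs : LL) : LL ⊕ LL :=
  (pick (quo x (bases x subs) s) (valB w)).elim (Sum.inl x) (fun B => Sum.inr (outB x B))

/-! ### Polynomial time -/

section

variable {α : Type} [TEnc α]

theorem poly_two_pow {β : Type} [TEnc β] {l : α → List β} (hl : Poly l) :
    Poly (fun a => 2 ^ (l a).length) := by
  refine (Poly.valBits (l := fun a => (l a).map (fun _ => false) ++ [true]) (by fun_prop)).congr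
    fun a => ?_
  rw [valB_append]
  have : ∀ m : List β, valB (m.map (fun _ => false)) = 0 := by
    intro m
    induction m with
    | nil => rfl
    | cons b m ih => rw [List.map_cons, valB, ih]; rfl
  rw [this]
  simp [valB]

theorem poly_two_pow_u {n : α → ℕ} (hn : UPoly n) : Poly (fun a => 2 ^ n a) :=
  (poly_two_pow hn).congr fun a => by rw [List.length_replicate]

theorem poly_topF {x : α → LL} (hx : Poly x) : Poly (fun a => topF (x a)) := by
  unfold topF
  fun_prop

attribute [fun_prop] poly_topF

theorem poly_coefL {p : α → ℕ} {F G : α → List ℕ} (hp : Poly p) (hF : Poly F) (hG : Poly G) :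
    Poly (fun a => coefL (p a) (F a) (G a)) := by
  unfold coefL
  fun_prop

attribute [fun_prop] poly_coefL

theorem poly_rowsB {p : α → ℕ} {x : α → LL} {B : α → List ℕ} (hp : Poly p) (hx : Poly x)
    (hB : Poly B) : Poly (fun a => rowsB (p a) (x a) (B a)) := by
  unfold rowsB
  fun_prop

attribute [fun_prop] poly_rowsB

theorem upoly_TT {x : α → LL} (hx : Poly x) : UPoly (fun a => TT (x a)) := by
  unfold TT tb
  have h := UPoly.length hx
  exact ((((((UPoly.const 2).mul h).mul h).add ((UPoly.const 2).mul h)).add
    (UPoly.const 5)).mul (((((UPoly.const 2).mul h).mul h).add ((UPoly.const 2).mul h)).add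
    (UPoly.const 5))).add (UPoly.const 1)

theorem poly_range_TT {x : α → LL} (hx : Poly x) : Poly (fun a => List.range (TT (x a))) :=
  (upoly_TT hx).range

attribute [fun_prop] poly_range_TT

theorem poly_TT {x : α → LL} (hx : Poly x) : Poly (fun a => TT (x a)) := (upoly_TT hx).toPoly

theorem poly_prL {x : α → LL} {p : α → ℕ} (hx : Poly x) (hp : Poly p) :
    Poly (fun a => prL (TT (x a)) (p a)) := by
  unfold prL
  fun_prop

attribute [fun_prop] poly_prL

theorem poly_indL {x : α → LL} {B : α → List ℕ} (hx : Poly x) (hB : Poly B) :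
    Poly (fun a => indL (x a) (B a)) := by
  unfold indL
  refine Poly.any (l := fun a => List.range (TT (x a))) (p := fun a q => prL (TT (x a)) (q + 1) &&
    (kerL (q + 1) (List.range (B a).length) (rowsB (q + 1) (x a) (B a))).isEmpty) (by fun_prop) ?_
  refine Poly.and (by fun_prop) (Poly.isEmpty (poly_kerL (by fun_prop) ?_ (by fun_prop)
    (fun a => Nat.succ_pos _)))
  exact Poly.range_length (by fun_prop)

attribute [fun_prop] poly_indL

theorem upoly_nT {x : α → LL} (hx : Poly x) : UPoly (fun a => nT (x a)) :=
  UPoly.length (poly_topF hx)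

theorem poly_nT {x : α → LL} (hx : Poly x) : Poly (fun a => nT (x a)) := (upoly_nT hx).toPoly

attribute [fun_prop] poly_nT

theorem poly_range_nT {x : α → LL} (hx : Poly x) : Poly (fun a => List.range (nT (x a))) :=
  (upoly_nT hx).range

attribute [fun_prop] poly_range_nT

theorem base_fold (x : LL) (l B : List ℕ) :
    sz (l.foldl (fun B i => bif indL x (B ++ [i]) then B ++ [i] else B) B) ≤ sz B + sz l := by
  induction l generalizing B with
  | nil => simp
  | cons i l ih =>
    rw [List.foldl_cons]
    refine (ih _).trans ?_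
    have h1 := sz_append B [i]
    rw [sz_list_cons]
    cases indL x (B ++ [i])
    · rw [cond_false]; omega
    · rw [cond_true]
      simp only [sz_list_cons, sz_list_nil] at h1
      omega

theorem poly_base {x : α → LL} (hx : Poly x) : Poly (fun a => base (x a)) := by
  unfold base
  obtain ⟨r, hr⟩ := (poly_range_nT hx).sz_le
  refine Poly.foldl (l := fun a => List.range (nT (x a))) (s := fun _ => ([] : List ℕ))
    (F := fun a B i => bif indL (x a) (B ++ [i]) then B ++ [i] else B) (by fun_prop)
    (by fun_prop) (by fun_prop) (r + 1) ?_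
  intro a k _
  refine (base_fold _ _ _).trans ?_
  have h1 := Poly.sz_take_le (List.range (nT (x a))) k
  have h2 := hr a
  simp only [Polynomial.eval_add, Polynomial.eval_one, sz_list_nil]
  omega

attribute [fun_prop] poly_base

theorem upoly_aa {x : α → LL} (hx : Poly x) : UPoly (fun a => aa (x a)) := by
  unfold aa
  exact UPoly.length (Poly.natBits (poly_nT hx))

theorem poly_ww {x : α → LL} (hx : Poly x) : Poly (fun a => ww (x a)) := by
  unfold ww
  exact poly_two_pow_u (upoly_aa hx)

attribute [fun_prop] poly_ww

theorem ww_le (x : LL) : ww x ≤ 2 * nT x + 1 := by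
  unfold ww aa
  rw [Nat.size_eq_bits_len]
  rcases Nat.eq_zero_or_pos (nT x) with h | h
  · rw [h]; simp
  · have h1 : 2 ^ ((nT x).size - 1) ≤ nT x := by
      have h2 : (nT x).size - 1 < (nT x).size := by
        have := Nat.size_pos.2 h
        omega
      exact Nat.lt_size.1 h2
    have h3 : 2 ^ (nT x).size = 2 * 2 ^ ((nT x).size - 1) := by
      rw [← pow_succ']
      congr 1
      have := Nat.size_pos.2 h
      omega
    omega

theorem upoly_MM {x : α → LL} (hx : Poly x) : UPoly (fun a => MM (x a)) := by
  unfold MM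
  have h := upoly_nT hx
  have h1 : UPoly (fun a => ww (x a)) :=
    UPoly.of_le (poly_ww hx) (((UPoly.const 2).mul h).add (UPoly.const 1)) fun a => ww_le _
  exact h1.mul h1

theorem poly_MM {x : α → LL} (hx : Poly x) : Poly (fun a => MM (x a)) := (upoly_MM hx).toPoly

attribute [fun_prop] poly_MM

theorem poly_range_MM {x : α → LL} (hx : Poly x) : Poly (fun a => List.range (MM (x a))) :=
  (upoly_MM hx).range

attribute [fun_prop] poly_range_MM

theorem upoly_tt {x : α → LL} {s : α → ℕ} (hx : Poly x) (hs : UPoly s) :
    UPoly (fun a => tt (x a) (s a)) := by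
  unfold tt
  exact ((UPoly.const 2).mul (upoly_MM hx)).mul ((hs.add (upoly_nT hx)).add (UPoly.const 1))

theorem upoly_mm {x : α → LL} {s : α → ℕ} (hx : Poly x) (hs : UPoly s) :
    UPoly (fun a => mm (x a) (s a)) := by
  unfold mm
  exact ((UPoly.const 2).mul (upoly_aa hx)).mul (upoly_tt hx hs)

theorem poly_swp {x : α → LL} {B : α → List ℕ} {i j : α → ℕ} (hx : Poly x) (hB : Poly B)
    (hi : Poly i) (hj : Poly j) : Poly (fun a => swp (nT (x a)) (B a) (i a) (j a)) := by
  unfold swp
  fun_prop

attribute [fun_prop] poly_swp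

theorem poly_stp {x : α → LL} {B : α → List ℕ} {u : α → ℕ} (hx : Poly x) (hB : Poly B)
    (hu : Poly u) : Poly (fun a => stp (x a) (B a) (u a)) := by
  unfold stp
  fun_prop

attribute [fun_prop] poly_stp

theorem poly_stN {x : α → LL} {q : α → List ℕ × ℕ} (hx : Poly x) (hq : Poly q) :
    Poly (fun a => stN (x a) (q a)) := by
  unfold stN
  fun_prop

attribute [fun_prop] poly_stN

theorem sz_filter_le {β : Type} [TEnc β] (l : List β) (p : β → Bool) : sz (l.filter p) ≤ sz l := by
  induction l with
  | nil => simp
  | cons b l ih =>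
    rw [List.filter_cons]
    split
    · simp; omega
    · simp; omega

theorem sz_stp_le (x : LL) (B : List ℕ) (u : ℕ) :
    sz (stp x B u) ≤ sz B + sz (List.range (nT x)) := by
  unfold stp
  cases (decide (u / ww x ∈ B) && (!decide (u % ww x ∈ B) && (decide (u % ww x < nT x) &&
    indL x (swp (nT x) B (u / ww x) (u % ww x)))))
  · rw [cond_false]; omega
  · rw [cond_true]
    have := sz_filter_le (List.range (nT x)) (fun k => (decide (k ∈ B) && !decide (k = u / ww x)) ||
      decide (k = u % ww x))
    unfold swp
    omega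

theorem stp_cases (x : LL) (B : List ℕ) (u : ℕ) :
    stp x B u = B ∨ sz (stp x B u) ≤ sz (List.range (nT x)) := by
  unfold stp
  cases (decide (u / ww x ∈ B) && (!decide (u % ww x ∈ B) && (decide (u % ww x < nT x) &&
    indL x (swp (nT x) B (u / ww x) (u % ww x)))))
  · left; rw [cond_false]
  · right
    rw [cond_true]
    exact sz_filter_le _ _

theorem stN_iter_sz (x : LL) (B : List ℕ) (v : ℕ) (k : ℕ) :
    (((stN x)^[k] (B, v)).1 = B ∨ sz ((stN x)^[k] (B, v)).1 ≤ sz (List.range (nT x))) ∧
      ((stN x)^[k] (B, v)).2 ≤ v := by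
  induction k with
  | zero => exact ⟨Or.inl rfl, le_rfl⟩
  | succ k ih =>
    rw [Function.iterate_succ_apply']
    obtain ⟨h1, h2⟩ := ih
    constructor
    · show stp x _ _ = B ∨ sz (stp x _ _) ≤ _
      rcases stp_cases x ((stN x)^[k] (B, v)).1 (((stN x)^[k] (B, v)).2 % MM x) with h | h
      · rw [h]; exact h1
      · exact Or.inr h
    · show ((stN x)^[k] (B, v)).2 / MM x ≤ v
      exact (Nat.div_le_self _ _).trans h2

theorem poly_simN {x : α → LL} {t : α → ℕ} {B : α → List ℕ} {v : α → ℕ} (hx : Poly x)
    (ht : UPoly t) (hB : Poly B) (hv : Poly v) :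
    Poly (fun a => simN (x a) (t a) (B a) (v a)) := by
  obtain ⟨r1, hr1⟩ := (poly_range_nT hx).sz_le
  obtain ⟨r2, hr2⟩ := hB.sz_le
  obtain ⟨r3, hr3⟩ := hv.sz_le
  have h := Poly.iterLen (l := fun a => List.replicate (t a) ()) (s := fun a => (B a, v a))
    (F := fun a q => stN (x a) q) ht (by fun_prop) (by fun_prop)
    (r1 + r2 + Polynomial.C 2 * r3 + 1) (by
      intro a k _
      obtain ⟨h1, h2⟩ := stN_iter_sz (x a) (B a) (v a) k
      have e1 := hr1 a
      have e2 := hr2 a
      have e3 := hr3 a
      have e4 := sz_nat_mono_le h2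
      have e5 : sz ((stN (x a))^[k] (B a, v a)).1 ≤ sz (B a) + sz (List.range (nT (x a))) := by
        rcases h1 with h | h
        · rw [h]; omega
        · omega
      change sz ((stN (x a))^[k] (B a, v a)) ≤ _
      have e6 : sz ((stN (x a))^[k] (B a, v a)) = sz ((stN (x a))^[k] (B a, v a)).1 +
          sz ((stN (x a))^[k] (B a, v a)).2 + 1 := sz_pair _ _
      rw [e6]
      simp only [Polynomial.eval_add, Polynomial.eval_mul, Polynomial.eval_C, Polynomial.eval_one]
      omega)
  refine (Poly.fst h).congr fun a => ?_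
  rw [List.length_replicate]
  rfl

theorem poly_outB {x : α → LL} {B : α → List ℕ} (hx : Poly x) (hB : Poly B) :
    Poly (fun a => outB (x a) (B a)) := by
  unfold outB
  fun_prop

attribute [fun_prop] poly_outB

theorem poly_bases {x subs : α → LL} (hx : Poly x) (hs : Poly subs) :
    Poly (fun a => bases (x a) (subs a)) := by
  unfold bases
  fun_prop

attribute [fun_prop] poly_bases

theorem poly_tc {x : α → LL} {z y : α → List ℕ} (hx : Poly x) (hz : Poly z) (hy : Poly y) :
    Poly (fun a => tc (x a) (z a) (y a)) := by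
  unfold tc
  fun_prop

attribute [fun_prop] poly_tc

theorem poly_dpS {x Bs : α → LL} {c : α → List ℕ} (hx : Poly x) (hB : Poly Bs) (hc : Poly c) :
    Poly (fun a => dpS (x a) (Bs a) (c a)) := by
  unfold dpS
  fun_prop

attribute [fun_prop] poly_dpS

end

end Pool.Agent.R561
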