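import Pool.Agent.R561.Alg

/-!
# Complexity of the exact correction
-/

set_option autoImplicit false

namespace Pool.Agent.R561

open Pool.Agent.NPC

section

variable {α : Type} [TEnc α]

theorem tc_le (x : LL) (z y : List ℕ) : tc x z y ≤ MM x := by
  unfold tc
  refine (List.length_filter_le _ _).trans ?_
  rw [List.length_range]

theorem sum_le_mul {l : List ℕ} {b : ℕ} (h : ∀ a ∈ l, a ≤ b) : l.sum ≤ l.length * b := by
  have := List.sum_le_card_nsmul l b h
  simpa using this

theorem dpS_le {x Bs : LL} {c : List ℕ} {b : ℕ} (h : ∀ a ∈ c, a ≤ b) :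
    ∀ a ∈ dpS x Bs c, a ≤ Bs.length * (b * MM x) := by
  intro a ha
  unfold dpS at ha
  obtain ⟨y, _, rfl⟩ := List.mem_map.1 ha
  have h1 : ∀ e ∈ (Bs.zip c).map (fun zc => zc.2 * tc x zc.1 y), e ≤ b * MM x := by
    intro e he
    obtain ⟨zc, hz, rfl⟩ := List.mem_map.1 he
    exact Nat.mul_le_mul (h _ (List.of_mem_zip hz).2) (tc_le _ _ _)
  refine (sum_le_mul h1).trans ?_
  apply Nat.mul_le_mul_right
  rw [List.length_map, List.length_zip]
  exact Nat.min_le_left _ _

theorem dp_le (x Bs : LL) (k : ℕ) : ∀ a ∈ dp x Bs k, a ≤ (Bs.length * MM x) ^ k := by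
  induction k with
  | zero =>
    intro a ha
    unfold dp at ha
    rw [Function.iterate_zero, id] at ha
    obtain ⟨y, _, rfl⟩ := List.mem_map.1 ha
    rw [pow_zero]
    split <;> simp
  | succ k ih =>
    intro a ha
    unfold dp at ha
    rw [Function.iterate_succ_apply'] at ha
    have := dpS_le ih a ha
    refine this.trans (le_of_eq ?_)
    rw [pow_succ]; ring

theorem dp_length (x Bs : LL) (k : ℕ) : (dp x Bs k).length = Bs.length := by
  unfold dp
  cases k with
  | zero => simp
  | succ k => rw [Function.iterate_succ_apply', dpS, List.length_map]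

theorem sz_dp (x Bs : LL) {k t : ℕ} (hk : k ≤ t) :
    sz (dp x Bs k) ≤ Bs.length * (4 * ((Bs.length + MM x) * t + 1) + 2) + 1 := by
  have h := sz_le_length_mul (dp x Bs k) (4 * ((Bs.length + MM x) * t + 1) + 1) (by
    intro a ha
    have h1 := dp_le x Bs k a ha
    have h2 := sz_nat_le a
    have h3 : a.size ≤ (Bs.length + MM x) * t + 1 := by
      apply Nat.size_le.2
      calc a ≤ (Bs.length * MM x) ^ k := h1
        _ ≤ (2 ^ (Bs.length + MM x)) ^ k := by
          apply Nat.pow_le_pow_left
          rw [pow_add]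
          exact Nat.mul_le_mul Nat.lt_two_pow_self.le Nat.lt_two_pow_self.le
        _ = 2 ^ ((Bs.length + MM x) * k) := by rw [← pow_mul]
        _ ≤ 2 ^ ((Bs.length + MM x) * t) :=
          Nat.pow_le_pow_right (by norm_num) (Nat.mul_le_mul_left _ hk)
        _ < 2 ^ ((Bs.length + MM x) * t + 1) := Nat.pow_lt_pow_right (by norm_num) (by omega)
    omega)
  rw [dp_length] at h
  exact h

theorem poly_dp {x Bs : α → LL} {t : α → ℕ} (hx : Poly x) (hB : Poly Bs) (ht : UPoly t) :
    Poly (fun a => dp (x a) (Bs a) (t a)) := by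
  obtain ⟨r1, hr1⟩ := hB.sz_le
  obtain ⟨r2, hr2⟩ := (show NPC.Poly _ from upoly_MM hx).sz_le
  obtain ⟨r3, hr3⟩ := (show NPC.Poly _ from ht).sz_le
  have h := Poly.iterLen (l := fun a => List.replicate (t a) ())
    (s := fun a => (Bs a).map (fun y => if y = base (x a) then 1 else 0))
    (F := fun a c => dpS (x a) (Bs a) c) ht (by fun_prop) (by fun_prop)
    (r1 * (Polynomial.C 4 * ((r1 + r2) * r3 + 1) + 2) + 1) (by
      intro a k hk
      rw [List.length_replicate] at hk
      refine (sz_dp (x a) (Bs a) hk).trans ?_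
      have e1 := hr1 a
      have e1' := length_lt_sz (Bs a)
      have e2 : sz (List.replicate (MM (x a)) ()) ≤ r2.eval (sz a) := hr2 a
      have e2' := length_lt_sz (List.replicate (MM (x a)) ())
      have e3 : sz (List.replicate (t a) ()) ≤ r3.eval (sz a) := hr3 a
      have e3' := length_lt_sz (List.replicate (t a) ())
      rw [List.length_replicate] at e2' e3'
      have f1 : (Bs a).length ≤ r1.eval (sz a) := by omega
      have f2 : MM (x a) ≤ r2.eval (sz a) := by omega
      have f3 : t a ≤ r3.eval (sz a) := by omega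
      simp only [Polynomial.eval_add, Polynomial.eval_mul, Polynomial.eval_C, Polynomial.eval_one,
        Polynomial.eval_ofNat]
      gcongr)
  refine h.congr fun a => ?_
  rw [List.length_replicate]
  rfl

theorem poly_quo {x Bs : α → LL} {s : α → ℕ} (hx : Poly x) (hB : Poly Bs) (hs : UPoly s) :
    Poly (fun a => quo (x a) (Bs a) (s a)) := by
  unfold quo
  have h1 : Poly (fun a => 2 ^ (s a + mm (x a) (s a))) := poly_two_pow_u (hs.add (upoly_mm hx hs))
  have h2 : Poly (fun a => 2 ^ (s a)) := poly_two_pow_u hs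
  have h3 : Poly (fun a => dp (x a) (Bs a) (tt (x a) (s a))) := poly_dp hx hB (upoly_tt hx hs)
  refine NPC.Poly.map (l := fun a => (Bs a).zip (dp (x a) (Bs a) (tt (x a) (s a))))
    (F := fun a yc => (yc.1, 2 ^ (s a + mm (x a) (s a)) / (Bs a).length - (2 ^ (s a) - 1) * yc.2))
    (Poly.zip hB h3) ?_
  have h1' : Poly (fun p : α × (List ℕ × ℕ) => 2 ^ (s p.1 + mm (x p.1) (s p.1))) :=
    h1.comp (Poly.fst Poly.id)
  have h2' : Poly (fun p : α × (List ℕ × ℕ) => 2 ^ (s p.1)) := h2.comp (Poly.fst Poly.id)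
  have hB' : Poly (fun p : α × (List ℕ × ℕ) => (Bs p.1).length) :=
    (Poly.length hB).comp (Poly.fst Poly.id)
  exact Poly.pair (by fun_prop) (Poly.sub (Poly.div h1' hB') (Poly.mul (Poly.sub h2'
    (NPC.Poly.const 1)) (by fun_prop)))

theorem poly_pkS {q : α → Option (List ℕ) × ℕ} {yn : α → List ℕ × ℕ} (hq : Poly q)
    (hy : Poly yn) : Poly (fun a => pkS (q a) (yn a)) := by
  unfold pkS
  have h1 : Poly (fun a => (q a).1.isSome) :=
    (Poly.optElim (o := fun a => (q a).1) (g := fun _ => false) (h := fun _ _ => true)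
      (Poly.fst hq) (NPC.Poly.const _) (NPC.Poly.const _)).congr fun a => by cases (q a).1 <;> rfl
  fun_prop

theorem pkS_bound (b : ℕ) (l : List (List ℕ × ℕ)) (hl : ∀ p ∈ l, sz p.1 ≤ b) (v : ℕ) :
    ∀ q : Option (List ℕ) × ℕ, (sz q.1 ≤ b + 3) → q.2 ≤ v →
      sz (l.foldl pkS q).1 ≤ b + 3 ∧ (l.foldl pkS q).2 ≤ v := by
  induction l with
  | nil => intro q h1 h2; exact ⟨h1, h2⟩
  | cons p l ih =>
    intro q h1 h2
    rw [List.foldl_cons]
    apply ih (fun p' hp' => hl p' (List.mem_cons_of_mem _ hp'))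
    · unfold pkS
      have h3 := hl p List.mem_cons_self
      cases q.1.isSome
      · rw [cond_false]
        cases decide (q.2 < p.2)
        · rw [cond_false]
          show sz (none : Option (List ℕ)) ≤ _
          rw [sz_none]; omega
        · rw [cond_true]
          show sz (some p.1 : Option (List ℕ)) ≤ _
          rw [sz_some]; omega
      · rw [cond_true]; exact h1
    · unfold pkS
      cases q.1.isSome
      · rw [cond_false]
        cases decide (q.2 < p.2)
        · rw [cond_false]
          show q.2 - p.2 ≤ v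
          omega
        · rw [cond_true]
          exact h2
      · rw [cond_true]; exact h2

theorem poly_pick {l : α → List (List ℕ × ℕ)} {v : α → ℕ} (hl : Poly l) (hv : Poly v) :
    Poly (fun a => pick (l a) (v a)) := by
  unfold pick
  obtain ⟨r1, hr1⟩ := hl.sz_le
  obtain ⟨r2, hr2⟩ := hv.sz_le
  refine Poly.fst (Poly.foldl (l := l) (s := fun a => ((none, v a) : Option (List ℕ) × ℕ))
    (F := fun _ q p => pkS q p) hl (by fun_prop) (poly_pkS (by fun_prop) (by fun_prop))
    (r1 + Polynomial.C 2 * r2 + 4) ?_)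
  intro a k _
  obtain ⟨h1, h2⟩ := pkS_bound (sz (l a)) ((l a).take k) (by
    intro p hp
    have h3 := sz_le_of_mem (List.mem_of_mem_take hp)
    have h4 : sz p = sz p.1 + sz p.2 + 1 := sz_pair _ _
    omega) (v a) (none, v a) (by rw [sz_none]; omega) le_rfl
  have e1 := hr1 a
  have e2 := hr2 a
  have e3 := sz_nat_mono_le h2
  have e4 : sz (((l a).take k).foldl (fun q p => pkS q p) (none, v a)) =
    sz (((l a).take k).foldl pkS (none, v a)).1 + sz (((l a).take k).foldl pkS (none, v a)).2 + 1 :=
    sz_pair _ _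
  rw [e4]
  simp only [Polynomial.eval_add, Polynomial.eval_mul, Polynomial.eval_C,
    Polynomial.eval_ofNat]
  omega

theorem poly_gF {x subs : α → LL} {s : α → ℕ} {w : α → List Bool} (hx : Poly x) (hs : UPoly s)
    (hw : Poly w) (hsub : Poly subs) : Poly (fun a => gF (x a) (s a) (w a) (subs a)) := by
  unfold gF
  exact Poly.optElim (poly_pick (poly_quo hx (by fun_prop) hs) (Poly.valBits hw)) (Poly.inl hx)
    (Poly.inr (by fun_prop))

end

/-- all sublists -/
def subL (l : List ℕ) : LL := l.foldl (fun l i => l ++ l.map (fun B => i :: B)) [[]]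

theorem subL_bound (l : List ℕ) : ∀ (L : LL) (b : ℕ), (∀ B ∈ L, sz B ≤ b) →
    (∀ B ∈ l.foldl (fun l i => l ++ l.map (fun B => i :: B)) L, sz B ≤ b + sz l) ∧
    (l.foldl (fun l i => l ++ l.map (fun B => i :: B)) L).length = L.length * 2 ^ l.length := by
  induction l with
  | nil =>
    intro L b h
    refine ⟨fun B hB => (h B hB).trans (Nat.le_add_right _ _), ?_⟩
    simp
  | cons i l ih =>
    intro L b h
    rw [List.foldl_cons]
    obtain ⟨h1, h2⟩ := ih (L ++ L.map (fun B => i :: B)) (b + sz i + 1) (by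
      intro B hB
      rw [List.mem_append] at hB
      rcases hB with hB | hB
      · have := h B hB; omega
      · obtain ⟨C, hC, rfl⟩ := List.mem_map.1 hB
        have := h C hC
        rw [sz_list_cons]; omega)
    refine ⟨fun B hB => ?_, ?_⟩
    · have := h1 B hB
      rw [sz_list_cons]; omega
    · rw [h2, List.length_append, List.length_map, List.length_cons, pow_succ]; ring

/-- the fallback computation -/
def fbF (z : LL × List Unit × List Bool) : LL ⊕ LL :=
  gF z.1 z.2.1.length z.2.2 (subL (List.range (nT z.1)).reverse)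

theorem pct_fbF : ∃ P : Polynomial ℕ, PCt bits bits fbF
    (fun z => P.eval (sz z * 2 ^ nT z.1)) := by
  -- the list of all subsets
  have hl : Poly (fun z : LL × List Unit × List Bool => (List.range (nT z.1)).reverse) := by
    fun_prop
  obtain ⟨p, q, h1⟩ := PCt.foldl (α := LL × List Unit × List Bool)
    (l := fun z => (List.range (nT z.1)).reverse) (s := fun _ => ([[]] : LL))
    (F := fun _ l i => l ++ l.map (fun B => i :: B)) hl (NPC.Poly.const _) (by fun_prop)
  obtain ⟨r, hr⟩ := hl.sz_le
  have hB : ∀ z : LL × List Unit × List Bool, ∀ k ≤ (List.range (nT z.1)).reverse.length,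
      sz (((List.range (nT z.1)).reverse.take k).foldl (fun l i => l ++ l.map (fun B => i :: B))
        [[]]) ≤ 2 ^ nT z.1 * (r.eval (sz z) + 3) := by
    intro z k hk
    obtain ⟨h2, h3⟩ := subL_bound ((List.range (nT z.1)).reverse.take k) [[]] 1 (by
      intro B hB
      rw [List.mem_singleton] at hB
      rw [hB]; simp)
    refine (sz_le_length_mul _ _ h2).trans ?_
    rw [h3]
    rw [List.length_reverse, List.length_range] at hk
    have h4 : (List.take k (List.range (nT z.1)).reverse).length = k := by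
      rw [List.length_take, List.length_reverse, List.length_range]; omega
    rw [h4]
    have h5 := Poly.sz_take_le (List.range (nT z.1)).reverse k
    have h6 := hr z
    have h7 : 2 ^ k ≤ 2 ^ nT z.1 := Nat.pow_le_pow_right (by norm_num) hk
    have h8 : 1 ≤ 2 ^ nT z.1 := Nat.one_le_two_pow
    calc ([[]] : LL).length * 2 ^ k * (1 + sz (List.take k (List.range (nT z.1)).reverse) + 1) + 1
        ≤ 2 ^ nT z.1 * (r.eval (sz z) + 2) + 2 ^ nT z.1 := by
          apply Nat.add_le_add _ h8
          apply Nat.mul_le_mul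
          · simpa using h7
          · omega
      _ = _ := by ring
  have h2 := h1 _ hB
  -- the rest
  have hG : Poly (fun q : (LL × List Unit × List Bool) × List ℕ × LL =>
      gF q.1.1 q.1.2.1.length q.1.2.2 q.2.2) :=
    poly_gF (by fun_prop) (UPoly.length (by fun_prop)) (by fun_prop) (by fun_prop)
  obtain ⟨u, h3⟩ := toPCt hG
  have h4 := PCt.comp h3 h2
  obtain ⟨c, hc⟩ := h4
  -- the bound
  refine ⟨p + (q.comp ((p + r + 3) * Polynomial.X)) * p +
    u.comp ((Polynomial.X + r + 6) * Polynomial.X), c, fun z => ?_⟩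
  refine (hc z).mono ?_
  set n := sz z with hn
  set b := 2 ^ nT z.1 with hb
  have hn1 : 1 ≤ n := sz_pos z
  have hb1 : 1 ≤ b := Nat.one_le_two_pow
  have hnb : n ≤ n * b := Nat.le_mul_of_pos_right _ hb1
  have hbn : b ≤ n * b := Nat.le_mul_of_pos_left _ hn1
  simp only [Polynomial.eval_add, Polynomial.eval_mul, Polynomial.eval_comp, Polynomial.eval_X,
    Polynomial.eval_ofNat]
  have e1 : p.eval n ≤ p.eval (n * b) := eval_mono p hnb
  have e2 : p.eval n + b * (r.eval n + 3) ≤ (p.eval (n * b) + r.eval (n * b) + 3) * (n * b) := by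
    have e3 : r.eval n ≤ r.eval (n * b) := eval_mono r hnb
    have e4 : p.eval n ≤ p.eval (n * b) * (n * b) :=
      e1.trans (Nat.le_mul_of_pos_right _ (by positivity))
    have e5 : b * (r.eval n + 3) ≤ (n * b) * (r.eval (n * b) + 3) :=
      Nat.mul_le_mul hbn (by omega)
    calc _ ≤ p.eval (n * b) * (n * b) + (n * b) * (r.eval (n * b) + 3) := Nat.add_le_add e4 e5
      _ = _ := by ring
  have e6 : sz (z, ([] : List ℕ), (List.range (nT z.1)).reverse.foldl
      (fun l i => l ++ l.map (fun B => i :: B)) [[]]) ≤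
      (n * b + r.eval (n * b) + 6) * (n * b) := by
    have h5 : sz ((List.range (nT z.1)).reverse.foldl
      (fun l i => l ++ l.map (fun B => i :: B)) [[]]) ≤ b * (r.eval n + 3) := by
      have := hB z _ le_rfl
      rwa [List.take_length] at this
    have e3 : r.eval n ≤ r.eval (n * b) := eval_mono r hnb
    have e11 : ∀ L : LL, sz (z, ([] : List ℕ), L) = n + (1 + sz L + 1) + 1 := fun L => by
      rw [sz_pair z, sz_pair ([] : List ℕ), sz_list_nil]
    rw [e11]
    have e7 : b * (r.eval n + 3) ≤ (n * b) * (r.eval (n * b) + 3) :=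
      Nat.mul_le_mul hbn (by omega)
    have e8 : n ≤ n * b * (n * b) := hnb.trans (Nat.le_mul_of_pos_right _ (by positivity))
    have e9 : 1 ≤ n * b := by omega
    generalize sz ((List.range (nT z.1)).reverse.foldl
      (fun l i => l ++ l.map (fun B => i :: B)) [[]]) = S at *
    generalize r.eval (n * b) = R at *
    generalize n * b = m at *
    nlinarith
  have e10 : (bits (z, ([] : List ℕ), (List.range (nT z.1)).reverse.foldl
      (fun l i => l ++ l.map (fun B => i :: B)) [[]])).length ≤
      (n * b + r.eval (n * b) + 6) * (n * b) := by rw [bits_length]; exact e6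
  apply Nat.add_le_add
  · apply Nat.add_le_add e1
    exact Nat.mul_le_mul (eval_mono q e2) e1
  · exact eval_mono u e10

/-- the sampler, for a given number of extra random bits -/
def fD (D : ℕ) (z : LL × List Bool) : LL ⊕ LL :=
  if 2 ^ mm z.1 (D * nT z.1) ≤ valB z.2 then
    Sum.inr (outB z.1 (simN z.1 (tt z.1 (D * nT z.1)) (base z.1) (valB z.2)))
  else fbF (z.1, List.replicate (D * nT z.1) (), z.2)

/-- number of random bits -/
def lD (D : ℕ) (x : LL) : ℕ := D * nT x + mm x (D * nT x)

theorem upoly_lD (D : ℕ) : UPoly (lD D) := by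
  have h : UPoly (fun x : LL => D * nT x) := (UPoly.const D).mul (upoly_nT Poly.id)
  exact h.add (upoly_mm Poly.id h)

theorem exists_alg : ∃ (D : ℕ) (p0 p1 : Polynomial ℕ), PCt bits bits (fD D)
    (fun z => p0.eval (sz z) + if 2 ^ mm z.1 (D * nT z.1) ≤ valB z.2 then 0 else
      p1.eval (sz z) * 2 ^ (D * nT z.1)) := by
  obtain ⟨P, hP⟩ := pct_fbF
  set D := P.natDegree with hD
  have hs : UPoly (fun z : LL × List Bool => D * nT z.1) :=
    (UPoly.const D).mul (upoly_nT (Poly.fst Poly.id))
  have h1 : Poly (fun z : LL × List Bool => (z.1, List.replicate (D * nT z.1) (), z.2)) :=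
    Poly.pair (by fun_prop) (Poly.pair hs (by fun_prop))
  obtain ⟨r, hr⟩ := h1.sz_le
  obtain ⟨u, hu⟩ := toPCt h1
  have h2 := PCt.comp hP hu
  have h3 : Poly (fun z : LL × List Bool => (Sum.inr (outB z.1 (simN z.1 (tt z.1 (D * nT z.1))
      (base z.1) (valB z.2))) : LL ⊕ LL)) := by
    refine Poly.inr (poly_outB (by fun_prop) (poly_simN (by fun_prop) (upoly_tt (by fun_prop) hs)
      (by fun_prop) (Poly.valBits (by fun_prop))))
  obtain ⟨v, hv⟩ := toPCt h3
  have h4 : Poly (fun z : LL × List Bool => decide (2 ^ mm z.1 (D * nT z.1) ≤ valB z.2)) :=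
    Poly.decide_le (poly_two_pow_u (upoly_mm (by fun_prop) hs)) (Poly.valBits (by fun_prop))
  obtain ⟨w, hw⟩ := PCt.ite (f := fun z : LL × List Bool =>
    toT (decide (2 ^ mm z.1 (D * nT z.1) ≤ valB z.2))) h4 h2 hv
  refine ⟨D, w + u + v, P.comp r, ?_⟩
  obtain ⟨c, hc⟩ := hw
  refine ⟨c, fun z => ?_⟩
  have h5 := hc z
  have e1 : (toT (decide (2 ^ mm z.1 (D * nT z.1) ≤ valB z.2)) = T.nil) ↔
      ¬ 2 ^ mm z.1 (D * nT z.1) ≤ valB z.2 := by
    by_cases h : 2 ^ mm z.1 (D * nT z.1) ≤ valB z.2
    · simp [h]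
    · simp [h]
  by_cases h : 2 ^ mm z.1 (D * nT z.1) ≤ valB z.2
  · have h6 : ¬ (toT (decide (2 ^ mm z.1 (D * nT z.1) ≤ valB z.2)) = T.nil) := by
      rw [e1]; exact fun h' => h' h
    beta_reduce at h5
    rw [if_neg h6, if_neg h6] at h5
    have h7 : fD D z = Sum.inr (outB z.1 (simN z.1 (tt z.1 (D * nT z.1)) (base z.1)
        (valB z.2))) := by
      unfold fD; rw [if_pos h]
    beta_reduce
    rw [h7, if_pos h]
    refine h5.mono ?_
    rw [bits_length]
    simp only [Polynomial.eval_add]
    omega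
  · have h6 : (toT (decide (2 ^ mm z.1 (D * nT z.1) ≤ valB z.2)) = T.nil) := e1.2 h
    beta_reduce at h5
    rw [if_pos h6, if_pos h6] at h5
    have h7 : fD D z = fbF (z.1, List.replicate (D * nT z.1) (), z.2) := by
      unfold fD; rw [if_neg h]
    beta_reduce
    rw [h7, if_neg h]
    refine h5.mono ?_
    rw [bits_length]
    have h8 := eval_mul_le P (sz (z.1, List.replicate (D * nT z.1) (), z.2))
      (b := 2 ^ nT z.1) Nat.one_le_two_pow
    have h9 : P.eval (sz (z.1, List.replicate (D * nT z.1) (), z.2)) ≤ (P.comp r).eval (sz z) := by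
      rw [Polynomial.eval_comp]; exact eval_mono P (hr z)
    have h10 : (2 ^ nT z.1) ^ P.natDegree = 2 ^ (D * nT z.1) := by
      rw [← pow_mul, mul_comm]
    rw [h10] at h8
    have h11 := h8.trans (Nat.mul_le_mul_right _ h9)
    simp only [Polynomial.eval_add]
    omega

end Pool.Agent.R561
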