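import Pool.Agent.R561.Spec

/-!
# Families of bases of matroids: the quadratic form of the pair counts has one positive eigenvalue
-/

set_option autoImplicit false
set_option linter.unusedSectionVars false
set_option linter.unusedVariables false

namespace Pool.Agent.R561

open Finset

variable {α : Type*} [DecidableEq α]

/-- The family of bases of a matroid of rank `r` (possibly empty family). -/
structure IsBF (r : ℕ) (F : Finset (Finset α)) : Prop where
  card : ∀ B ∈ F, B.card = r
  exch : ∀ B ∈ F, ∀ B' ∈ F, ∀ x ∈ B, x ∉ B' → ∃ y ∈ B', y ∉ B ∧ insert y (B.erase x) ∈ F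

/-- Contraction of an element. -/
def lnk (F : Finset (Finset α)) (i : α) : Finset (Finset α) :=
  (F.filter (fun B => i ∈ B)).image (fun B => B.erase i)

theorem lnk_inj (F : Finset (Finset α)) (i : α) :
    Set.InjOn (fun B : Finset α => B.erase i) (F.filter (fun B => i ∈ B) : Set (Finset α)) := by
  intro B hB B' hB' h
  simp only [coe_filter, Set.mem_ofPred_eq] at hB hB'
  simp only at h
  rw [← insert_erase hB.2, ← insert_erase hB'.2, h]

theorem sum_lnk {M : Type*} [AddCommMonoid M] (F : Finset (Finset α)) (i : α)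
    (g : Finset α → M) :
    ∑ C ∈ lnk F i, g C = ∑ B ∈ F.filter (fun B => i ∈ B), g (B.erase i) := by
  unfold lnk
  rw [Finset.sum_image (lnk_inj F i)]

theorem card_lnk (F : Finset (Finset α)) (i : α) :
    (lnk F i).card = (F.filter (fun B => i ∈ B)).card := by
  unfold lnk
  rw [Finset.card_image_of_injOn (lnk_inj F i)]

theorem mem_lnk {F : Finset (Finset α)} {i : α} {C : Finset α} :
    C ∈ lnk F i ↔ i ∉ C ∧ insert i C ∈ F := by
  unfold lnk
  simp only [mem_image, mem_filter]
  constructor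
  · rintro ⟨B, ⟨hB, hi⟩, rfl⟩
    exact ⟨notMem_erase i B, by rwa [insert_erase hi]⟩
  · rintro ⟨h1, h2⟩
    exact ⟨insert i C, ⟨h2, mem_insert_self i C⟩, erase_insert h1⟩

theorem IsBF.lnk {r : ℕ} {F : Finset (Finset α)} (h : IsBF (r + 1) F) (i : α) :
    IsBF r (lnk F i) := by
  constructor
  · intro C hC
    obtain ⟨h1, h2⟩ := mem_lnk.1 hC
    have := h.card _ h2
    rw [card_insert_of_notMem h1] at this
    omega
  · intro C hC C' hC' x hx hx'
    obtain ⟨h1, h2⟩ := mem_lnk.1 hC
    obtain ⟨h1', h2'⟩ := mem_lnk.1 hC'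
    have hxi : x ≠ i := by rintro rfl; exact h1 hx
    obtain ⟨y, hy, hy', hins⟩ := h.exch _ h2 _ h2' x (mem_insert_of_mem hx) (by
      rw [mem_insert]; push Not; exact ⟨hxi, hx'⟩)
    have hyi : y ≠ i := by rintro rfl; exact hy' (mem_insert_self _ _)
    refine ⟨y, (mem_insert.1 hy).resolve_left hyi, fun h3 => hy' (mem_insert_of_mem h3), ?_⟩
    rw [mem_lnk]
    constructor
    · rw [mem_insert, mem_erase]
      push Not
      exact ⟨hyi.symm, fun _ => h1⟩
    · rw [Finset.insert_comm, ← erase_insert_of_ne hxi.symm]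
      exact hins

/-- `∑ i ∈ B, φ i` -/
def s1 (φ : α → ℝ) (B : Finset α) : ℝ := ∑ i ∈ B, φ i

/-- `∑ i ∈ B, (φ i) ^ 2` -/
def s2 (φ : α → ℝ) (B : Finset α) : ℝ := ∑ i ∈ B, φ i ^ 2

/-- the inequality expressing that there is at most one positive eigenvalue -/
def KI (r : ℕ) (F : Finset (Finset α)) : Prop :=
  ∀ φ : α → ℝ, (r : ℝ) * F.card * ∑ B ∈ F, (s1 φ B ^ 2 - s2 φ B) ≤ (r - 1) * (∑ B ∈ F, s1 φ B) ^ 2

/-- number of bases containing `i` -/
def nn (F : Finset (Finset α)) (i : α) : ℝ := ((F.filter (fun B => i ∈ B)).card : ℝ)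

theorem nn_nonneg (F : Finset (Finset α)) (i : α) : 0 ≤ nn F i := Nat.cast_nonneg _

theorem nn_pos {F : Finset (Finset α)} {i : α} {B : Finset α} (hB : B ∈ F) (hi : i ∈ B) :
    0 < nn F i := by
  unfold nn
  exact_mod_cast Finset.card_pos.2 ⟨B, mem_filter.2 ⟨hB, hi⟩⟩

theorem nn_pos_iff {F : Finset (Finset α)} {i : α} : 0 < nn F i ↔ ∃ B ∈ F, i ∈ B := by
  constructor
  · intro h
    unfold nn at h
    have h' : 0 < (F.filter (fun B => i ∈ B)).card := by exact_mod_cast h
    obtain ⟨B, hB⟩ := Finset.card_pos.1 h'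
    exact ⟨B, (mem_filter.1 hB).1, (mem_filter.1 hB).2⟩
  · rintro ⟨B, hB, hi⟩
    exact nn_pos hB hi

section

variable [Fintype α]

theorem sum_mem_swap (F : Finset (Finset α)) (g : α → Finset α → ℝ) :
    ∑ i, ∑ B ∈ F.filter (fun B => i ∈ B), g i B = ∑ B ∈ F, ∑ i ∈ B, g i B := by
  simp_rw [Finset.sum_filter]
  rw [Finset.sum_comm]
  apply Finset.sum_congr rfl
  intro B _
  rw [← Finset.sum_filter]
  apply Finset.sum_congr _ fun _ _ => rfl
  ext i; simp

theorem sum_nn_mul (F : Finset (Finset α)) (φ : α → ℝ) :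
    ∑ i, nn F i * φ i = ∑ B ∈ F, s1 φ B := by
  unfold s1
  rw [← sum_mem_swap F (fun i _ => φ i)]
  apply Finset.sum_congr rfl
  intro i _
  rw [Finset.sum_const, nsmul_eq_mul]
  rfl

/-- pair counts -/
def qq (F : Finset (Finset α)) (i j : α) : ℝ :=
  if i = j then 0 else ((F.filter (fun B => i ∈ B ∧ j ∈ B)).card : ℝ)

theorem qq_symm (F : Finset (Finset α)) (i j : α) : qq F i j = qq F j i := by
  unfold qq
  by_cases h : i = j
  · rw [h]
  · rw [if_neg h, if_neg (Ne.symm h)]
    congr 2
    ext B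
    simp [and_comm]

theorem qq_nonneg (F : Finset (Finset α)) (i j : α) : 0 ≤ qq F i j := by
  unfold qq
  split_ifs
  · exact le_rfl
  · exact Nat.cast_nonneg _

theorem qq_pos {F : Finset (Finset α)} {i j : α} {B : Finset α} (hij : i ≠ j) (hB : B ∈ F)
    (hi : i ∈ B) (hj : j ∈ B) : 0 < qq F i j := by
  unfold qq
  rw [if_neg hij]
  have h1 : 0 < (F.filter (fun B => i ∈ B ∧ j ∈ B)).card :=
    Finset.card_pos.2 ⟨B, mem_filter.2 ⟨hB, hi, hj⟩⟩
  exact_mod_cast h1

theorem qq_eq_sum (F : Finset (Finset α)) (i j : α) :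
    qq F i j = ∑ B ∈ F.filter (fun B => i ∈ B), if j ∈ B ∧ j ≠ i then (1 : ℝ) else 0 := by
  unfold qq
  by_cases h : i = j
  · subst h; simp
  · rw [if_neg h, ← Finset.sum_filter, Finset.filter_filter, Finset.sum_const, nsmul_eq_mul,
      mul_one]
    congr 2
    ext B
    simp only [mem_filter]
    constructor
    · rintro ⟨h1, h2, h3⟩
      exact ⟨h1, h2, h3, Ne.symm h⟩
    · rintro ⟨h1, h2, h3, _⟩
      exact ⟨h1, h2, h3⟩

/-- the vector `Q φ` -/
theorem sum_qq_mul (F : Finset (Finset α)) (φ : α → ℝ) (i : α) :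
    ∑ j, qq F i j * φ j = ∑ B ∈ F.filter (fun B => i ∈ B), (s1 φ B - φ i) := by
  simp_rw [qq_eq_sum, Finset.sum_mul]
  rw [Finset.sum_comm]
  apply Finset.sum_congr rfl
  intro B hB
  rw [mem_filter] at hB
  simp_rw [ite_mul, one_mul, zero_mul]
  rw [← Finset.sum_filter]
  have : Finset.univ.filter (fun j => j ∈ B ∧ j ≠ i) = B.erase i := by
    ext j; simp [and_comm]
  rw [this]
  unfold s1
  rw [← Finset.add_sum_erase B φ hB.2]
  ring

theorem form_eq (F : Finset (Finset α)) (φ : α → ℝ) :
    ∑ i, φ i * ∑ j, qq F i j * φ j = ∑ B ∈ F, (s1 φ B ^ 2 - s2 φ B) := by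
  simp_rw [sum_qq_mul, Finset.mul_sum]
  rw [sum_mem_swap F (fun i B => φ i * (s1 φ B - φ i))]
  apply Finset.sum_congr rfl
  intro B _
  unfold s2
  have h1 : s1 φ B ^ 2 = ∑ i ∈ B, φ i * s1 φ B := by
    rw [← Finset.sum_mul, sq]; rfl
  rw [h1, ← Finset.sum_sub_distrib]
  exact Finset.sum_congr rfl fun i _ => by ring

theorem sum_qq {r : ℕ} {F : Finset (Finset α)} (h : IsBF (r + 1) F) (i : α) :
    ∑ j, qq F i j = r * nn F i := by
  have h1 := sum_qq_mul F (fun _ => 1) i
  simp only [mul_one] at h1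
  rw [h1]
  have h2 : ∀ B ∈ F.filter (fun B => i ∈ B), s1 (fun _ => (1 : ℝ)) B - 1 = r := by
    intro B hB
    unfold s1
    rw [Finset.sum_const, nsmul_eq_mul, mul_one, h.card B (mem_filter.1 hB).1]
    push_cast; ring
  rw [Finset.sum_congr rfl h2, Finset.sum_const, nsmul_eq_mul, mul_comm]
  rfl

/-- An element of some basis can be exchanged into any basis. -/
theorem IsBF.exists_exch {r : ℕ} {F : Finset (Finset α)} (h : IsBF r F) {B B' : Finset α}
    (hB : B ∈ F) (hB' : B' ∈ F) {j : α} (hj : j ∈ B') (hjB : j ∉ B) :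
    ∃ z ∈ B, insert j (B.erase z) ∈ F := by
  -- induction on the size of `B' \ B`
  have key : ∀ n : ℕ, ∀ B' ∈ F, j ∈ B' → (B' \ B).card = n → ∃ z ∈ B, insert j (B.erase z) ∈ F := by
    intro n
    induction n using Nat.strong_induction_on with
    | _ n ih =>
      intro B' hB' hj hn
      by_cases hx : ∃ x ∈ B', x ∉ B ∧ x ≠ j
      · obtain ⟨x, hx1, hx2, hx3⟩ := hx
        obtain ⟨y, hy1, hy2, hy3⟩ := h.exch B' hB' B hB x hx1 hx2
        refine ih _ ?_ (insert y (B'.erase x)) hy3 (by simp [hj, Ne.symm hx3]) rfl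
        rw [← hn]
        apply Finset.card_lt_card
        rw [Finset.ssubset_iff_of_subset]
        · refine ⟨x, by simp [hx1, hx2], ?_⟩
          simp only [mem_sdiff, mem_insert, mem_erase, ne_eq, not_true_eq_false, false_and,
            or_false, not_and, not_not]
          rintro rfl
          exact absurd hx1 hy2
        · intro z hz
          simp only [mem_sdiff, mem_insert, mem_erase] at hz ⊢
          obtain ⟨hz1, hz2⟩ := hz
          rcases hz1 with rfl | hz1
          · exact absurd hy1 hz2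
          · exact ⟨hz1.2, hz2⟩
      · push Not at hx
        -- `B' \ B = {j}`
        have h1 : B'.erase j ⊆ B := by
          intro x hx'
          rw [mem_erase] at hx'
          by_contra hcon
          exact hx'.1 (hx x hx'.2 hcon)
        have hc := h.card B hB
        have hc' := h.card B' hB'
        have h2 : (B'.erase j).card + 1 = B.card := by
          rw [card_erase_of_mem hj, hc, hc']
          have : 0 < B'.card := card_pos.2 ⟨j, hj⟩
          omega
        have h3 : (B \ B'.erase j).card = 1 := by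
          rw [card_sdiff_of_subset h1]; omega
        obtain ⟨z, hz⟩ := card_eq_one.1 h3
        have hzB : z ∈ B := by
          have : z ∈ B \ B'.erase j := by rw [hz]; simp
          exact (mem_sdiff.1 this).1
        refine ⟨z, hzB, ?_⟩
        have h4 : B.erase z = B'.erase j := by
          ext x
          rw [mem_erase]
          constructor
          · rintro ⟨h5, h6⟩
            by_contra hcon
            have : x ∈ B \ B'.erase j := mem_sdiff.2 ⟨h6, hcon⟩
            rw [hz, mem_singleton] at this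
            exact h5 this
          · intro h5
            refine ⟨?_, h1 h5⟩
            rintro rfl
            have : x ∈ B \ B'.erase j := by rw [hz]; simp
            exact (mem_sdiff.1 this).2 h5
        rw [h4, insert_erase hj]
        exact hB'
  exact key _ B' hB' hj rfl

/-- Connectedness. -/
theorem IsBF.conn {r : ℕ} {F : Finset (Finset α)} (h : IsBF (r + 2) F) (φ : α → ℝ)
    (hφ : ∀ i j, 0 < qq F i j → φ i = φ j) {i j : α} (hi : 0 < nn F i) (hj : 0 < nn F j) :
    φ i = φ j := by
  by_cases hij : i = j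
  · rw [hij]
  obtain ⟨B, hB, hiB⟩ := nn_pos_iff.1 hi
  obtain ⟨B', hB', hjB'⟩ := nn_pos_iff.1 hj
  by_cases hjB : j ∈ B
  · exact hφ i j (qq_pos hij hB hiB hjB)
  obtain ⟨z, hz, hins⟩ := h.exists_exch hB hB' hjB' hjB
  by_cases hzi : z = i
  · -- take `k ∈ B`, `k ≠ i`
    have hc := h.card B hB
    obtain ⟨k, hk, hki⟩ : ∃ k ∈ B, k ≠ i := by
      by_contra hcon
      push Not at hcon
      have : B ⊆ {i} := fun x hx => mem_singleton.2 (hcon x hx)
      have := card_le_card this
      rw [card_singleton] at this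
      omega
    have h1 := hφ i k (qq_pos hki.symm hB hiB hk)
    have hkj : k ≠ j := by rintro rfl; exact hjB hk
    have h2 := hφ k j (qq_pos hkj hins (by simp [hk, hzi, hki]) (mem_insert_self _ _))
    rw [h1, h2]
  · exact hφ i j (qq_pos hij hins (by simp [hiB, Ne.symm hzi]) (mem_insert_self _ _))

end

end Pool.Agent.R561
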