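import Pool.Agent.R561.Walk

/-!
# Counting the random strings leading to a basis
-/

set_option autoImplicit false
set_option linter.unusedSectionVars false
set_option linter.unusedVariables false

namespace Pool.Agent.R561

open Pool.Agent.NPC
open Finset

theorem sum_range_mul' {A : Type*} [AddCommMonoid A] (a m : ℕ) (g : ℕ → A) :
    ∑ v ∈ range (a * m), g v = ∑ u ∈ range m, ∑ v ∈ range a, g (a * u + v) := by
  induction m with
  | zero => simp
  | succ m ih => rw [Nat.mul_succ, Finset.sum_range_add, ih, Finset.sum_range_succ]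

/-! ### The simulation -/

variable (x : LL)

theorem stN_iter_snd (B : List ℕ) (v t : ℕ) : ((stN x)^[t] (B, v)).2 = v / MM x ^ t := by
  induction t with
  | zero => simp
  | succ t ih =>
    rw [Function.iterate_succ_apply']
    show ((stN x)^[t] (B, v)).2 / MM x = _
    rw [ih, Nat.div_div_eq_div_mul, pow_succ]

theorem simN_succ (t : ℕ) (B : List ℕ) (v : ℕ) :
    simN x (t + 1) B v = stp x (simN x t B v) (v / MM x ^ t % MM x) := by
  unfold simN
  rw [Function.iterate_succ_apply']
  show stp x ((stN x)^[t] (B, v)).1 (((stN x)^[t] (B, v)).2 % MM x) = _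
  rw [stN_iter_snd]

theorem MM_pos : 0 < MM x := Nat.mul_pos (ww_pos x) (ww_pos x)

theorem simN_add (t : ℕ) : ∀ (B : List ℕ) (v u : ℕ),
    simN x t B (v + MM x ^ t * u) = simN x t B v := by
  induction t with
  | zero => intro B v u; rfl
  | succ t ih =>
    intro B v u
    rw [simN_succ, simN_succ]
    have hpos : 0 < MM x ^ t := pow_pos (MM_pos x) t
    have e1 : v + MM x ^ (t + 1) * u = v + MM x ^ t * (MM x * u) := by rw [pow_succ]; ring
    rw [e1, ih, Nat.add_mul_div_left _ _ hpos, Nat.add_mul_mod_self_left]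

/-- the state of the walk as a set -/
noncomputable def sZ (Z0 : Finset (Fin (nT x))) (t v : ℕ) : Finset (Fin (nT x)) :=
  toF _ (simN x t (li Z0) v)

theorem sZ_spec {Z0 : Finset (Fin (nT x))} (h0 : Z0 ∈ fam x) (t v : ℕ) :
    li (sZ x Z0 t v) = simN x t (li Z0) v ∧ sZ x Z0 t v ∈ fam x := by
  induction t with
  | zero =>
    have : simN x 0 (li Z0) v = li Z0 := rfl
    unfold sZ
    rw [this, toF_li]
    exact ⟨rfl, h0⟩
  | succ t ih =>
    obtain ⟨h1, h2⟩ := ih
    have h3 : simN x (t + 1) (li Z0) v = li (stZ x (sZ x Z0 t v) (v / MM x ^ t % MM x)) := by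
      rw [simN_succ, li_stZ, h1]
    have h4 : sZ x Z0 (t + 1) v = stZ x (sZ x Z0 t v) (v / MM x ^ t % MM x) := by
      unfold sZ at h3 ⊢
      rw [h3, toF_li]
    rw [h4]
    exact ⟨h3.symm, stZ_mem x h2 _⟩

theorem count_sim {Z0 : Finset (Fin (nT x))} (h0 : Z0 ∈ fam x) (t : ℕ) :
    ∀ Y ∈ fam x, ((range (MM x ^ t)).filter (fun v => simN x t (li Z0) v = li Y)).card =
      cnt (fam x) (tZ x) Z0 t Y := by
  induction t with
  | zero =>
    intro Y hY
    have h1 : ∀ v, simN x 0 (li Z0) v = li Z0 := fun _ => rfl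
    simp only [h1, pow_zero, cnt]
    by_cases h : Y = Z0
    · rw [if_pos h, h]; simp
    · rw [if_neg h, card_eq_zero, filter_eq_empty_iff]
      intro v _ h2
      exact h (li_inj h2).symm
  | succ t ih =>
    intro Y hY
    rw [Finset.card_filter, pow_succ, sum_range_mul', Finset.sum_comm]
    have hpos : 0 < MM x ^ t := pow_pos (MM_pos x) t
    have h1 : ∀ v ∈ range (MM x ^ t), ∑ u ∈ range (MM x),
        (if simN x (t + 1) (li Z0) (MM x ^ t * u + v) = li Y then 1 else 0) =
        tZ x (sZ x Z0 t v) Y := by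
      intro v hv
      rw [mem_range] at hv
      rw [tZ_eq, Finset.card_filter]
      apply Finset.sum_congr rfl
      intro u hu
      rw [mem_range] at hu
      have e1 : simN x (t + 1) (li Z0) (MM x ^ t * u + v) = li (stZ x (sZ x Z0 t v) u) := by
        rw [simN_succ, li_stZ, (sZ_spec x h0 t v).1, add_comm (MM x ^ t * u) v, simN_add,
          Nat.add_mul_div_left _ _ hpos, Nat.div_eq_of_lt hv, zero_add, Nat.mod_eq_of_lt hu]
      rw [e1]
      congr 1
      exact propext ⟨fun h => li_inj h, fun h => by rw [h]⟩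
    rw [Finset.sum_congr rfl h1]
    simp only [cnt]
    -- group by the state
    rw [← Finset.sum_fiberwise_of_maps_to (g := fun v => sZ x Z0 t v) (t := fam x)
      (fun v _ => (sZ_spec x h0 t v).2)]
    apply Finset.sum_congr rfl
    intro Z hZ
    rw [← ih Z hZ]
    have h2 : ∀ v ∈ (range (MM x ^ t)).filter (fun v => sZ x Z0 t v = Z),
        tZ x (sZ x Z0 t v) Y = tZ x Z Y := by
      intro v hv
      rw [(mem_filter.1 hv).2]
    rw [Finset.sum_congr rfl h2, Finset.sum_const, smul_eq_mul]
    congr 2
    ext v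
    rw [mem_filter, mem_filter]
    refine and_congr_right fun _ => ⟨fun h => ?_, fun h => ?_⟩
    · rw [← (sZ_spec x h0 t v).1, h]
    · exact li_inj (by rw [(sZ_spec x h0 t v).1, h])

/-! ### The list of bases -/

theorem subL_eq (l : List ℕ) : subL l.reverse = l.sublists' := by
  unfold subL
  rw [List.foldl_reverse]
  induction l with
  | nil => rfl
  | cons a l ih => rw [List.foldr_cons, ih, List.sublists'_cons]

/-- the list of all bases -/
def BB : LL := bases x (subL (List.range (nT x)).reverse)

theorem mem_BB {B : List ℕ} : B ∈ BB x ↔ ∃ Z ∈ fam x, li Z = B := by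
  unfold BB bases
  rw [List.mem_filter, subL_eq, List.mem_sublists', Bool.and_eq_true, decide_eq_true_eq]
  constructor
  · rintro ⟨h1, h2, h3⟩
    refine ⟨toF _ B, ?_, li_toF h1⟩
    rw [mem_fam, li_toF h1, ← length_li, li_toF h1]
    exact ⟨h2, h3⟩
  · rintro ⟨Z, hZ, rfl⟩
    obtain ⟨h1, h2⟩ := (mem_fam x).1 hZ
    rw [length_li]
    exact ⟨li_sub Z, h1, h2⟩

theorem nd_BB : (BB x).Nodup := by
  unfold BB bases
  rw [subL_eq]
  exact (List.nodup_sublists'.2 List.nodup_range).filter _

theorem BB_toFinset : (BB x).toFinset = (fam x).image li := by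
  ext B
  rw [List.mem_toFinset, mem_BB, Finset.mem_image]

theorem sum_BB {A : Type*} [AddCommMonoid A] (g : List ℕ → A) :
    ((BB x).map g).sum = ∑ Z ∈ fam x, g (li Z) := by
  rw [← List.sum_toFinset g (nd_BB x), BB_toFinset, Finset.sum_image]
  intro Z _ Z' _ h
  exact li_inj h

theorem length_BB : (BB x).length = (fam x).card := by
  rw [← List.toFinset_card_of_nodup (nd_BB x), BB_toFinset, Finset.card_image_of_injective _ li_inj]

theorem zip_map_self {A B : Type*} (l : List A) (g : A → B) :
    l.zip (l.map g) = l.map (fun a => (a, g a)) := by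
  induction l with
  | nil => rfl
  | cons a l ih => simp [ih]

theorem dp_eq {Z0 : Finset (Fin (nT x))} (h0 : li Z0 = base x) (k : ℕ) :
    dp x (BB x) k = (BB x).map (fun y => cnt (fam x) (tZ x) Z0 k (toF _ y)) := by
  induction k with
  | zero =>
    unfold dp
    rw [Function.iterate_zero, id]
    apply List.map_congr_left
    intro y hy
    obtain ⟨Z, hZ, rfl⟩ := (mem_BB x).1 hy
    rw [toF_li, cnt]
    by_cases h : Z = Z0
    · rw [if_pos h, h, h0, if_pos rfl]
    · rw [if_neg h, if_neg]
      intro h'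
      exact h (li_inj (by rw [h', h0]))
  | succ k ih =>
    have : dp x (BB x) (k + 1) = dpS x (BB x) (dp x (BB x) k) := by
      unfold dp
      rw [Function.iterate_succ_apply']
    rw [this, ih]
    unfold dpS
    apply List.map_congr_left
    intro y hy
    obtain ⟨Y, hY, rfl⟩ := (mem_BB x).1 hy
    rw [zip_map_self, List.map_map, toF_li, cnt]
    have e : (((fun zc : List ℕ × ℕ => zc.2 * tc x zc.1 (li Y)) ∘
        fun a => (a, cnt (fam x) (tZ x) Z0 k (toF (nT x) a)))) =
        fun a => cnt (fam x) (tZ x) Z0 k (toF (nT x) a) * tc x a (li Y) := rfl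
    rw [e, sum_BB]
    apply Finset.sum_congr rfl
    intro Z _
    rw [toF_li]
    rfl

/-! ### Selection -/

theorem pkS_some (l : List (List ℕ × ℕ)) (y : List ℕ) (v : ℕ) :
    l.foldl pkS (some y, v) = (some y, v) := by
  induction l with
  | nil => rfl
  | cons p l ih => rw [List.foldl_cons]; exact ih

theorem pick_cons (y : List ℕ) (n : ℕ) (l : List (List ℕ × ℕ)) (v : ℕ) :
    pick ((y, n) :: l) v = if v < n then some y else pick l (v - n) := by
  unfold pick
  rw [List.foldl_cons]
  unfold pkS
  by_cases h : v < n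
  · rw [if_pos h]
    have h1 : decide (v < n) = true := decide_eq_true h
    simp only [Option.isSome_none, cond_false, h1, cond_true]
    have := pkS_some l y v
    unfold pkS at this
    rw [this]
  · rw [if_neg h]
    have h1 : decide (v < n) = false := decide_eq_false h
    simp only [Option.isSome_none, cond_false, h1]

theorem pick_mem (q : List ℕ → ℕ) (l : LL) : ∀ (v : ℕ) (y : List ℕ),
    pick (l.map (fun y => (y, q y))) v = some y → y ∈ l := by
  induction l with
  | nil => intro v y h; simp [pick] at h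
  | cons b l ih =>
    intro v y h
    rw [List.map_cons, pick_cons] at h
    split_ifs at h with hv
    · rw [Option.some.injEq] at h
      rw [h]; exact List.mem_cons_self
    · exact List.mem_cons_of_mem _ (ih _ _ h)

theorem pick_count (q : List ℕ → ℕ) (l : LL) : l.Nodup → ∀ (V : ℕ), (l.map q).sum ≤ V →
    ∀ y ∈ l, ((range V).filter (fun v => pick (l.map (fun y => (y, q y))) v = some y)).card =
      q y := by
  induction l with
  | nil => intro _ V _ y hy; simp at hy
  | cons b l ih =>
    intro hnd V hV y hy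
    rw [List.nodup_cons] at hnd
    rw [List.map_cons, List.sum_cons] at hV
    obtain ⟨V', rfl⟩ := Nat.exists_eq_add_of_le (show q b ≤ V by omega)
    rw [Finset.card_filter, Finset.sum_range_add]
    have h1 : ∀ v ∈ range (q b), (if pick ((b :: l).map (fun y => (y, q y))) v = some y then 1
        else 0) = if b = y then 1 else 0 := by
      intro v hv
      rw [mem_range] at hv
      rw [List.map_cons, pick_cons, if_pos hv]
      simp only [Option.some.injEq]
    have h2 : ∀ v ∈ range V', (if pick ((b :: l).map (fun y => (y, q y))) (q b + v) = some y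
        then 1 else 0) = if pick (l.map (fun y => (y, q y))) v = some y then 1 else 0 := by
      intro v _
      have hnot : ¬ (q b + v < q b) := by omega
      rw [List.map_cons, pick_cons, if_neg hnot, Nat.add_sub_cancel_left]
    rw [Finset.sum_congr rfl h1, Finset.sum_congr rfl h2, Finset.sum_const,
      card_range, smul_eq_mul]
    by_cases hby : b = y
    · rw [if_pos hby, mul_one]
      have : ∑ v ∈ range V', (if pick (l.map (fun y => (y, q y))) v = some y then 1 else 0) =
          0 := by
        apply Finset.sum_eq_zero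
        intro v _
        rw [if_neg]
        intro h
        exact hnd.1 (hby ▸ pick_mem q l v y h)
      rw [this, hby, add_zero]
    · rw [if_neg hby, mul_zero, zero_add]
      have hyl : y ∈ l := by
        rcases List.mem_cons.1 hy with h | h
        · exact absurd h.symm hby
        · exact h
      have := ih hnd.2 V' (by omega) y hyl
      rw [Finset.card_filter] at this
      exact this

/-! ### The result as a function of a number -/

/-- the basis chosen, as a function of the random number -/
def rho (s v : ℕ) : Option (List ℕ) :=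
  if 2 ^ mm x s ≤ v then some (simN x (tt x s) (base x) v) else pick (quo x (BB x) s) v

theorem two_pow_mm (s : ℕ) : 2 ^ mm x s = MM x ^ tt x s := by
  unfold mm MM ww
  rw [← pow_add, ← pow_mul]
  congr 1; ring

theorem card_fam_le : (fam x).card ≤ 2 ^ nT x := by
  have := Finset.card_le_univ (fam x)
  rwa [Fintype.card_finset, Fintype.card_fin] at this

theorem quo_eq {Z0 : Finset (Fin (nT x))} (h0 : li Z0 = base x) (s : ℕ) :
    quo x (BB x) s = (BB x).map (fun y => (y, 2 ^ (s + mm x s) / (fam x).card -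
      (2 ^ s - 1) * cnt (fam x) (tZ x) Z0 (tt x s) (toF _ y))) := by
  unfold quo
  rw [dp_eq x h0, zip_map_self, List.map_map, length_BB]
  rfl

theorem rho_spec {Z0 : Finset (Fin (nT x))} (h0 : li Z0 = base x) (hZ0 : Z0 ∈ fam x) (s v : ℕ) :
    rho x s v = none ∨ ∃ Y ∈ fam x, rho x s v = some (li Y) := by
  unfold rho
  split_ifs with h
  · right
    rw [← h0]
    have := sZ_spec x hZ0 (tt x s) v
    exact ⟨_, this.2, by rw [this.1]⟩
  · rw [quo_eq x h0]
    cases hp : pick ((BB x).map (fun y => (y, 2 ^ (s + mm x s) / (fam x).card -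
      (2 ^ s - 1) * cnt (fam x) (tZ x) Z0 (tt x s) (toF _ y)))) v with
    | none => left; rfl
    | some y =>
      right
      obtain ⟨Y, hY, hy⟩ := (mem_BB x).1 (pick_mem _ _ _ _ hp)
      exact ⟨Y, hY, by rw [hy]⟩

/-- Every basis is chosen equally often. -/
theorem count_rho (hF : IsBF (base x).length (fam x)) {Z0 : Finset (Fin (nT x))}
    (h0 : li Z0 = base x) (hZ0 : Z0 ∈ fam x) (s : ℕ) (Y : Finset (Fin (nT x)))
    (hY : Y ∈ fam x) :
    ((range (2 ^ (s + mm x s))).filter (fun v => rho x s v = some (li Y))).card =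
      2 ^ (s + mm x s) / (fam x).card := by
  set F' := 2 ^ (s + mm x s) / (fam x).card with hF'
  set K := (fam x).card with hK
  have hKpos : 0 < K := card_pos.2 ⟨Z0, hZ0⟩
  let c : Finset (Fin (nT x)) → ℕ := cnt (fam x) (tZ x) Z0 (tt x s)
  have hchain := chain x hF
  have hs1 : 1 ≤ 2 ^ s := Nat.one_le_two_pow
  have hpow : 2 ^ (s + mm x s) = 2 ^ mm x s * 2 ^ s := by rw [pow_add]; ring
  -- the bound
  have hbound : ∀ Z ∈ fam x, (2 ^ s - 1) * c Z ≤ F' := by
    intro Z hZ
    have h1 := hchain.final_bound hZ0 (MM_pos x) s (nT x) (card_fam_le x) hZ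
    rw [hF', Nat.le_div_iff_mul_le hKpos]
    have h2 : 2 ^ (s + mm x s) = 2 ^ s * MM x ^ (2 * MM x * (s + nT x + 1)) := by
      rw [pow_add, two_pow_mm]; rfl
    rw [h2]
    exact h1
  have hcsum : ∑ Z ∈ fam x, c Z = 2 ^ mm x s := by
    rw [two_pow_mm]; exact hchain.sum_cnt hZ0 _
  -- sum of the quotas
  have hquota : (((BB x).map (fun y => F' - (2 ^ s - 1) * c (toF _ y)))).sum ≤ 2 ^ mm x s := by
    rw [sum_BB]
    have h1 : ∑ Z ∈ fam x, (F' - (2 ^ s - 1) * c (toF _ (li Z))) +
        ∑ Z ∈ fam x, (2 ^ s - 1) * c Z = K * F' := by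
      rw [← Finset.sum_add_distrib]
      have : ∀ Z ∈ fam x, F' - (2 ^ s - 1) * c (toF _ (li Z)) + (2 ^ s - 1) * c Z = F' := by
        intro Z hZ
        rw [toF_li]
        have := hbound Z hZ
        omega
      rw [Finset.sum_congr rfl this, Finset.sum_const, smul_eq_mul]
    rw [← Finset.mul_sum, hcsum] at h1
    have h2 : K * F' ≤ 2 ^ (s + mm x s) := Nat.mul_div_le _ _
    rw [hpow] at h2
    have h3 : 2 ^ mm x s * 2 ^ s = (2 ^ s - 1) * 2 ^ mm x s + 2 ^ mm x s := by
      conv_lhs => rw [← Nat.sub_add_cancel hs1]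
      ring
    omega
  rw [Finset.card_filter, hpow, sum_range_mul']
  obtain ⟨n, hn⟩ : ∃ n, 2 ^ s = n + 1 := ⟨2 ^ s - 1, by omega⟩
  rw [hn, Finset.sum_range_succ']
  -- the correction part
  have hzero : ∑ v ∈ range (2 ^ mm x s), (if rho x s (2 ^ mm x s * 0 + v) = some (li Y) then 1
      else 0) = F' - (2 ^ s - 1) * c Y := by
    have h1 := pick_count (fun y => F' - (2 ^ s - 1) * c (toF _ y)) (BB x) (nd_BB x) _ hquota
      (li Y) ((mem_BB x).2 ⟨Y, hY, rfl⟩)
    rw [toF_li, Finset.card_filter] at h1
    rw [← h1]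
    apply Finset.sum_congr rfl
    intro v hv
    rw [mem_range] at hv
    have hnot : ¬ (2 ^ mm x s ≤ v) := by omega
    unfold rho
    rw [mul_zero, zero_add, if_neg hnot, quo_eq x h0]
  -- the main part
  have hmain : ∀ u ∈ range n, ∑ v ∈ range (2 ^ mm x s),
      (if rho x s (2 ^ mm x s * (u + 1) + v) = some (li Y) then 1 else 0) = c Y := by
    intro u _
    have h1 := count_sim x hZ0 (tt x s) Y hY
    rw [Finset.card_filter, ← two_pow_mm] at h1
    change _ = cnt (fam x) (tZ x) Z0 (tt x s) Y
    rw [← h1]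
    apply Finset.sum_congr rfl
    intro v hv
    unfold rho
    have h2 : 2 ^ mm x s ≤ 2 ^ mm x s * (u + 1) + v := by
      have : 2 ^ mm x s * 1 ≤ 2 ^ mm x s * (u + 1) := Nat.mul_le_mul_left _ (by omega)
      omega
    rw [if_pos h2]
    have h3 : simN x (tt x s) (base x) (2 ^ mm x s * (u + 1) + v) =
        simN x (tt x s) (li Z0) v := by
      rw [h0, add_comm, two_pow_mm, simN_add]
    rw [h3]
    simp only [Option.some.injEq]
  rw [Finset.sum_congr rfl hmain, Finset.sum_const, card_range, smul_eq_mul, hzero]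
  have := hbound Y hY
  rw [hn, Nat.add_sub_cancel] at this ⊢
  omega

end Pool.Agent.R561
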