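import Mathlib

/-!
# Randomized machines

A randomized machine is a multi-stack Turing machine in the sense of Mathlib (`Turing.TM2`) whose
program may depend, at every step, on the outcome of a fresh fair coin.
-/

set_option autoImplicit false

namespace Pool.Agent.R561

open Turing MeasureTheory
open scoped ENNReal

/-- A randomized Turing machine: finitely many stacks of bits, a stack `io` for the input and the
output, finitely many labels and internal states, and a program which to every outcome of a coin
flip and every label assigns a statement of Mathlib's stack machines. -/
structure PTM where
  /-- the stacks -/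
  K : Type
  /-- equality of stacks is decidable -/
  decK : DecidableEq K
  /-- there are finitely many stacks -/
  finK : Fintype K
  /-- the stack used for the input and the output -/
  io : K
  /-- the labels -/
  Λ : Type
  /-- there are finitely many labels -/
  finΛ : Fintype Λ
  /-- the initial label -/
  main : Λ
  /-- the internal states -/
  σ : Type
  /-- there are finitely many internal states -/
  finσ : Fintype σ
  /-- the initial internal state -/
  ini : σ
  /-- the program -/
  prog : Bool → Λ → TM2.Stmt (fun _ : K => Bool) Λ σ

namespace PTM

variable (M : PTM)

instance : DecidableEq M.K := M.decK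

/-- configurations of the machine -/
abbrev Conf : Type := TM2.Cfg (fun _ : M.K => Bool) M.Λ M.σ

/-- One step of the machine, using the outcome `b` of a coin flip. A halted machine (label `none`)
stays as it is. -/
def next (b : Bool) (c : M.Conf) : M.Conf := (TM2.step (M.prog b) c).getD c

/-- The configuration after `n` steps, starting from `c`, where the `n`-th step uses the coin
flip `ω n`. -/
def conf (c : M.Conf) (ω : ℕ → Bool) : ℕ → M.Conf
  | 0 => c
  | n + 1 => M.next (ω n) (conf c ω n)

/-- The initial configuration: the input is on the stack `io`, the other stacks are empty. -/
def start (x : List Bool) : M.Conf :=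
  ⟨some M.main, M.ini, Function.update (fun _ => []) M.io x⟩

/-- The machine on input `x` and coin flips `ω` has halted after at most `n` steps. -/
def HaltedBy (x : List Bool) (ω : ℕ → Bool) (n : ℕ) : Prop := (M.conf (M.start x) ω n).l = none

/-- The machine on input `x` and coin flips `ω` halts with output `y`. -/
def Outputs (x : List Bool) (ω : ℕ → Bool) (y : List Bool) : Prop :=
  ∃ n, M.HaltedBy x ω n ∧ (M.conf (M.start x) ω n).stk M.io = y

/-- The running time on input `x` and coin flips `ω`: the least number of steps after which the
machine has halted (`∞` if it does not halt). -/
noncomputable def time (x : List Bool) (ω : ℕ → Bool) : ℝ≥0∞ :=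
  ⨅ (n : ℕ) (_ : M.HaltedBy x ω n), (n : ℝ≥0∞)

end PTM

/-- The distribution of a fair coin. -/
noncomputable def fairCoin : Measure Bool :=
  (2⁻¹ : ℝ≥0∞) • Measure.dirac false + (2⁻¹ : ℝ≥0∞) • Measure.dirac true

/-- The distribution of an infinite sequence of independent fair coin flips. -/
noncomputable def coins : Measure (ℕ → Bool) := Measure.infinitePi (fun _ => fairCoin)

end Pool.Agent.R561
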