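import Pool.Agent.NPC.Defs
import Pool.Agent.R561.PDefs

/-!
# Simplicial complexes and their spanning trees
-/

set_option autoImplicit false

namespace Pool.Agent.R561

/-- A finite simplicial complex with vertices in `ℕ`, as the set of its (nonempty) faces. -/
structure IsComplex (Δ : Finset (Finset ℕ)) : Prop where
  /-- faces are nonempty -/
  nonempty : ∀ s ∈ Δ, s.Nonempty
  /-- nonempty subsets of faces are faces -/
  down : ∀ s ∈ Δ, ∀ t : Finset ℕ, t ⊆ s → t.Nonempty → t ∈ Δ

/-- The dimension of `Δ` is `d`: some face has `d + 1` vertices and no face has more. -/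
def HasDim (Δ : Finset (Finset ℕ)) (d : ℕ) : Prop :=
  (∃ s ∈ Δ, s.card = d + 1) ∧ ∀ s ∈ Δ, s.card ≤ d + 1

/-- The simplicial boundary over `ℚ` of the face `F`, oriented by the order of its vertices
`v₀ < v₁ < ...`: the coefficient of `F \ {vᵢ}` is `(-1)ⁱ`, and all other coefficients are zero. -/
def bd (F : Finset ℕ) : Finset ℕ → ℚ := fun G =>
  ∑ v ∈ F, if F.erase v = G then (-1 : ℚ) ^ (F.filter (fun u => u < v)).card else 0

/-- `Υ` is a (`d`-dimensional) spanning tree of the complex `Δ` of dimension `d`: a subcomplex
which contains the `(d-1)`-skeleton of `Δ` and such that the boundaries of the `d`-faces of `Υ`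
form a basis of the space spanned by the boundaries of the `d`-faces of `Δ`. -/
structure IsSpanningTree (Δ : Finset (Finset ℕ)) (d : ℕ) (Υ : Finset (Finset ℕ)) : Prop where
  /-- `Υ` is a complex -/
  complex : IsComplex Υ
  /-- `Υ` is contained in `Δ` -/
  sub : Υ ⊆ Δ
  /-- `Υ` contains the `(d-1)`-skeleton -/
  skel : ∀ s ∈ Δ, s.card ≤ d → s ∈ Υ
  /-- the boundaries of the `d`-faces of `Υ` are linearly independent -/
  indep : LinearIndepOn ℚ bd {F | F ∈ Υ ∧ F.card = d + 1}
  /-- the boundaries of the `d`-faces of `Υ` span the same space as those of `Δ` -/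
  span : Submodule.span ℚ (bd '' {F | F ∈ Υ ∧ F.card = d + 1}) =
    Submodule.span ℚ (bd '' {F | F ∈ Δ ∧ F.card = d + 1})

/-- `L` is a list of all faces of `Δ`, without repetitions, where every face is given by the
increasing list of its vertices. -/
structure Lists (L : List (List ℕ)) (Δ : Finset (Finset ℕ)) : Prop where
  /-- no repetitions -/
  nodup : L.Nodup
  /-- every face is given by the increasing list of its vertices -/
  sorted : ∀ F ∈ L, F.Pairwise (· < ·)
  /-- the faces listed are those of `Δ` -/
  mem : ∀ s : Finset ℕ, s ∈ Δ ↔ ∃ F ∈ L, F.toFinset = s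

/-- The sublist of `L` consisting of the faces which belong to `Υ`. -/
def subList (L : List (List ℕ)) (Υ : Finset (Finset ℕ)) : List (List ℕ) :=
  L.filter (fun F => decide (F.toFinset ∈ Υ))

end Pool.Agent.R561
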