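import Pool.Agent.R561.KIm

/-!
# The spectral gap of the basis exchange graph
-/

set_option autoImplicit false
set_option linter.unusedSectionVars false
set_option linter.unusedVariables false

namespace Pool.Agent.R561

open Finset

variable {α : Type*} [DecidableEq α] [Fintype α]

theorem star {r : ℕ} {F : Finset (Finset α)} (h : IsBF (r + 1) F) (hne : F.Nonempty)
    (f : Finset α → ℝ) :
    ∑ i, (∑ B ∈ F.filter (fun B => i ∈ B), f B) ^ 2 / nn F i ≤
      ∑ B ∈ F, f B ^ 2 + r * ((∑ B ∈ F, f B) ^ 2 / F.card) := by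
  set S : ℝ := ∑ B ∈ F, f B with hS
  set c : ℝ := (F.card : ℝ) with hc
  have hcpos : 0 < c := by rw [hc]; exact_mod_cast card_pos.2 hne
  let Si : α → ℝ := fun i => ∑ B ∈ F.filter (fun B => i ∈ B), f B
  let φ : α → ℝ := fun i => Si i / nn F i
  have hSi0 : ∀ i, ¬ 0 < nn F i → Si i = 0 := by
    intro i hi
    show ∑ B ∈ F.filter (fun B => i ∈ B), f B = 0
    rw [Finset.sum_eq_zero]
    intro B hB
    exact absurd (mem_filter.1 hB).2 (nn_eq_zero_of hi (mem_filter.1 hB).1)
  have hφ : ∀ i, nn F i * φ i = Si i := by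
    intro i
    show nn F i * (Si i / nn F i) = Si i
    by_cases hi : 0 < nn F i
    · field_simp
    · rw [hSi0 i hi]; simp
  set X : ℝ := ∑ i, Si i ^ 2 / nn F i with hX
  have hX1 : X = ∑ B ∈ F, s2 φ B := by
    unfold s2
    rw [← sum_mem_swap F (fun i _ => φ i ^ 2), hX]
    apply Finset.sum_congr rfl; intro i _
    rw [Finset.sum_const, nsmul_eq_mul]
    show Si i ^ 2 / nn F i = nn F i * (Si i / nn F i) ^ 2
    by_cases hi : 0 < nn F i
    · field_simp
    · rw [hSi0 i hi]; simp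
  have hX2 : X = ∑ B ∈ F, f B * s1 φ B := by
    unfold s1
    simp_rw [Finset.mul_sum]
    rw [← sum_mem_swap F (fun i B => f B * φ i), hX]
    apply Finset.sum_congr rfl; intro i _
    rw [← Finset.sum_mul]
    show Si i ^ 2 / nn F i = Si i * (Si i / nn F i)
    rw [sq, mul_div_assoc]
  have hF1 : ∑ B ∈ F, s1 φ B = (r + 1) * S := by
    rw [← sum_nn_mul, Finset.sum_congr rfl fun i _ => hφ i]
    show ∑ i, ∑ B ∈ F.filter (fun B => i ∈ B), f B = _
    rw [sum_mem_swap F (fun _ B => f B), hS, Finset.mul_sum]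
    apply Finset.sum_congr rfl; intro B hB
    rw [Finset.sum_const, nsmul_eq_mul, h.card B hB]; push_cast; ring
  have hKI := KI_all r F h φ
  rw [hF1, Finset.sum_sub_distrib, ← hX1] at hKI
  push_cast at hKI
  set Y : ℝ := ∑ B ∈ F, s1 φ B ^ 2 with hY
  -- `(r+1) c (Y - X) ≤ r ((r+1) S)^2`
  have hY1 : Y ≤ X + r * (r + 1) * (S ^ 2 / c) := by
    have h1 : ((r : ℝ) + 1) * c * (Y - X) ≤ ((r : ℝ) + 1) * c * (r * (r + 1) * (S ^ 2 / c)) := by
      calc ((r : ℝ) + 1) * c * (Y - X) ≤ ((r : ℝ) + 1 - 1) * ((r + 1) * S) ^ 2 := hKI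
        _ = ((r : ℝ) + 1) * c * (r * (r + 1) * (S ^ 2 / c)) := by
          field_simp
          ring
    have h2 : 0 < ((r : ℝ) + 1) * c := by positivity
    have h3 := le_of_mul_le_mul_left h1 h2
    linarith
  set t : ℝ := r * S / c with ht
  have hsq : 0 ≤ ∑ B ∈ F, (f B - s1 φ B + t) ^ 2 := Finset.sum_nonneg fun B _ => sq_nonneg _
  have hexp : ∑ B ∈ F, (f B - s1 φ B + t) ^ 2 = ∑ B ∈ F, f B ^ 2 + Y + t ^ 2 * c - 2 * X +
      2 * t * S - 2 * t * ((r + 1) * S) := by
    rw [hX2, hY, ← hF1, hS, Finset.mul_sum, Finset.mul_sum, Finset.mul_sum]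
    have : t ^ 2 * c = ∑ B ∈ F, t ^ 2 := by rw [Finset.sum_const, nsmul_eq_mul]; ring
    rw [this, ← Finset.sum_add_distrib, ← Finset.sum_add_distrib, ← Finset.sum_sub_distrib,
      ← Finset.sum_add_distrib, ← Finset.sum_sub_distrib]
    exact Finset.sum_congr rfl fun B _ => by ring
  rw [hexp] at hsq
  have e1 : t ^ 2 * c = r ^ 2 * (S ^ 2 / c) := by rw [ht]; field_simp
  have e2 : t * S = r * (S ^ 2 / c) := by rw [ht]; ring
  have e3 : 2 * t * ((r + 1) * S) = 2 * (r + 1) * (r * (S ^ 2 / c)) := by rw [← e2]; ring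
  have e4 : 2 * t * S = 2 * (r * (S ^ 2 / c)) := by rw [← e2]; ring
  rw [e1, e3, e4] at hsq
  nlinarith [hsq, hY1]

/-- the Dirichlet form of the exchange graph (ordered pairs) -/
def EE (r : ℕ) (F : Finset (Finset α)) (f : Finset α → ℝ) : ℝ :=
  ∑ B ∈ F, ∑ B' ∈ F, if (B ∩ B').card + 1 = r then (f B - f B') ^ 2 else 0

theorem gap (r : ℕ) : ∀ F : Finset (Finset α), IsBF (r + 1) F → ∀ f : Finset α → ℝ,
    2 * (∑ B ∈ F, f B ^ 2 - (∑ B ∈ F, f B) ^ 2 / F.card) ≤ EE (r + 1) F f := by
  induction r with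
  | zero =>
    intro F h f
    rcases F.eq_empty_or_nonempty with rfl | hne
    · simp [EE]
    have hc1 : (1 : ℝ) ≤ F.card := by exact_mod_cast card_pos.2 hne
    have hcs : (∑ B ∈ F, f B) ^ 2 ≤ F.card * ∑ B ∈ F, f B ^ 2 := sq_sum_le_card_mul_sum_sq
    have hE : EE (0 + 1) F f = 2 * (F.card * ∑ B ∈ F, f B ^ 2 - (∑ B ∈ F, f B) ^ 2) := by
      have h1 : EE (0 + 1) F f = ∑ B ∈ F, ∑ B' ∈ F, (f B - f B') ^ 2 := by
        unfold EE
        apply Finset.sum_congr rfl; intro B hB
        apply Finset.sum_congr rfl; intro B' hB'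
        split_ifs with hc
        · rfl
        · have hBB : B = B' := by
            obtain ⟨a, rfl⟩ := card_eq_one.1 (h.card B hB)
            obtain ⟨b, rfl⟩ := card_eq_one.1 (h.card B' hB')
            by_contra hne
            apply hc
            have : ({a} : Finset α) ∩ {b} = ∅ := by
              rw [← disjoint_iff_inter_eq_empty, disjoint_singleton]
              rintro rfl; exact hne rfl
            rw [this]; simp
          rw [hBB]; simp
      rw [h1]
      have h2 : ∀ B ∈ F, ∑ B' ∈ F, (f B - f B') ^ 2 =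
          F.card * f B ^ 2 - 2 * f B * (∑ B' ∈ F, f B') + ∑ B' ∈ F, f B' ^ 2 := by
        intro B _
        have : (F.card : ℝ) * f B ^ 2 = ∑ B' ∈ F, f B ^ 2 := by
          rw [Finset.sum_const, nsmul_eq_mul]
        rw [this, Finset.mul_sum, ← Finset.sum_sub_distrib, ← Finset.sum_add_distrib]
        exact Finset.sum_congr rfl fun B' _ => by ring
      rw [Finset.sum_congr rfl h2, Finset.sum_add_distrib, Finset.sum_sub_distrib,
        ← Finset.mul_sum, ← Finset.sum_mul, ← Finset.mul_sum, Finset.sum_const, nsmul_eq_mul]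
      ring
    rw [hE]
    set c : ℝ := (F.card : ℝ)
    have hV : 0 ≤ ∑ B ∈ F, f B ^ 2 - (∑ B ∈ F, f B) ^ 2 / c := by
      rw [sub_nonneg, div_le_iff₀ (by linarith)]
      linarith
    have e : c * ∑ B ∈ F, f B ^ 2 - (∑ B ∈ F, f B) ^ 2 =
        c * (∑ B ∈ F, f B ^ 2 - (∑ B ∈ F, f B) ^ 2 / c) := by
      have : c ≠ 0 := by linarith
      field_simp
    rw [e]
    nlinarith [mul_le_mul_of_nonneg_right hc1 hV]
  | succ r ih =>
    intro F h f
    rcases F.eq_empty_or_nonempty with rfl | hne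
    · simp [EE]
    have hst := star h hne f
    set S : ℝ := ∑ B ∈ F, f B with hS
    -- each link
    have hl : ∀ i, 2 * (∑ B ∈ F.filter (fun B => i ∈ B), f B ^ 2 -
        (∑ B ∈ F.filter (fun B => i ∈ B), f B) ^ 2 / nn F i) ≤
        ∑ B ∈ F.filter (fun B => i ∈ B), ∑ B' ∈ F.filter (fun B => i ∈ B),
          if (B ∩ B').card + 1 = r + 1 + 1 then (f B - f B') ^ 2 else 0 := by
      intro i
      have h1 := ih (lnk F i) (h.lnk i) (fun C => f (insert i C))
      have h2 : ∀ g : ℝ → ℝ, ∑ C ∈ lnk F i, g (f (insert i C)) =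
          ∑ B ∈ F.filter (fun B => i ∈ B), g (f B) := by
        intro g
        rw [sum_lnk]
        apply Finset.sum_congr rfl; intro B hB
        rw [insert_erase (mem_filter.1 hB).2]
      rw [h2 (fun x => x ^ 2), h2 (fun x => x), card_lnk] at h1
      refine h1.trans (le_of_eq ?_)
      unfold EE
      rw [sum_lnk]
      apply Finset.sum_congr rfl; intro B hB
      rw [sum_lnk]
      apply Finset.sum_congr rfl; intro B' hB'
      have hi := (mem_filter.1 hB).2
      have hi' := (mem_filter.1 hB').2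
      simp only [insert_erase hi, insert_erase hi']
      have e : (B.erase i ∩ B'.erase i).card + 1 = (B ∩ B').card := by
        have : B.erase i ∩ B'.erase i = (B ∩ B').erase i := by
          ext x; simp only [mem_inter, mem_erase]; tauto
        rw [this, card_erase_of_mem (mem_inter.2 ⟨hi, hi'⟩)]
        have : 0 < (B ∩ B').card := card_pos.2 ⟨i, mem_inter.2 ⟨hi, hi'⟩⟩
        omega
      rw [e]
      by_cases hc : (B ∩ B').card = r + 1
      · rw [if_pos hc, if_pos (by omega)]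
      · rw [if_neg hc, if_neg (by omega)]
    have hsum := Finset.sum_le_sum (fun i (_ : i ∈ (univ : Finset α)) => hl i)
    rw [← Finset.mul_sum, Finset.sum_sub_distrib] at hsum
    have e1 : ∑ i, ∑ B ∈ F.filter (fun B => i ∈ B), f B ^ 2 = ((r : ℝ) + 2) * ∑ B ∈ F, f B ^ 2 := by
      rw [sum_mem_swap F (fun _ B => f B ^ 2), Finset.mul_sum]
      apply Finset.sum_congr rfl; intro B hB
      rw [Finset.sum_const, nsmul_eq_mul, h.card B hB]; push_cast; ring
    have e2 : ∑ i, ∑ B ∈ F.filter (fun B => i ∈ B), ∑ B' ∈ F.filter (fun B => i ∈ B),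
          (if (B ∩ B').card + 1 = r + 1 + 1 then (f B - f B') ^ 2 else 0) =
        ((r : ℝ) + 1) * EE (r + 1 + 1) F f := by
      rw [sum_mem_swap F (fun i B => ∑ B' ∈ F.filter (fun B => i ∈ B),
          (if (B ∩ B').card + 1 = r + 1 + 1 then (f B - f B') ^ 2 else 0))]
      unfold EE
      rw [Finset.mul_sum]
      apply Finset.sum_congr rfl; intro B hB
      have e3 : ∀ i ∈ B, ∑ B' ∈ F.filter (fun B => i ∈ B),
          (if (B ∩ B').card + 1 = r + 1 + 1 then (f B - f B') ^ 2 else 0) =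
          ∑ B' ∈ F, if i ∈ B' then
            (if (B ∩ B').card + 1 = r + 1 + 1 then (f B - f B') ^ 2 else 0) else 0 := by
        intro i _; rw [Finset.sum_filter]
      rw [Finset.sum_congr rfl e3, Finset.sum_comm, Finset.mul_sum]
      apply Finset.sum_congr rfl; intro B' hB'
      rw [← Finset.sum_filter, Finset.sum_const, nsmul_eq_mul]
      have e4 : (B.filter (fun i => i ∈ B')) = B ∩ B' := by ext x; simp
      rw [e4]
      split_ifs with hc
      · have : (B ∩ B').card = r + 1 := by omega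
        rw [this]; push_cast; ring
      · ring
    rw [e1, e2] at hsum
    have hr : (0 : ℝ) < r + 1 := by positivity
    push_cast at hst
    have hfin : ((r : ℝ) + 1) * (2 * (∑ B ∈ F, f B ^ 2 - S ^ 2 / F.card)) ≤
        ((r : ℝ) + 1) * EE (r + 1 + 1) F f := by
      nlinarith [hsum, hst]
    exact le_of_mul_le_mul_left hfin hr

end Pool.Agent.R561
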