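import Mathlib
import Pool.Agent.H442R3.SD.Prm

/-!
# Integer matrices with trivial kernel, modulo primes
-/

set_option autoImplicit false

namespace Pool.Agent.R561

open Matrix Finset

/-- the kernel of an integer matrix over a field is trivial -/
def TK (K : Type) [Field K] {m n : ℕ} (A : Matrix (Fin m) (Fin n) ℤ) : Prop :=
  ∀ y : Fin n → K, (A.map (Int.cast : ℤ → K)) *ᵥ y = 0 → y = 0

theorem det_cast {K : Type} [Field K] {n : ℕ} (A : Matrix (Fin n) (Fin n) ℤ) :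
    (A.map (Int.cast : ℤ → K)).det = ((A.det : ℤ) : K) := by
  have := (Int.castRingHom K).map_det A
  rw [show (Int.castRingHom K) A.det = ((A.det : ℤ) : K) from rfl] at this
  rw [this]
  rfl

theorem mul_cast {K : Type} [Field K] {l m n : ℕ} (A : Matrix (Fin l) (Fin m) ℤ)
    (B : Matrix (Fin m) (Fin n) ℤ) :
    (A * B).map (Int.cast : ℤ → K) = A.map (Int.cast : ℤ → K) * B.map (Int.cast : ℤ → K) :=
  Matrix.map_mul (f := Int.castRingHom K)

theorem TK_of_mod {m n : ℕ} (A : Matrix (Fin m) (Fin n) ℤ) (p : ℕ) [hp : Fact p.Prime]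
    (h : TK (ZMod p) A) : TK ℚ A := by
  have hker : LinearMap.ker (A.map (Int.cast : ℤ → ZMod p)).mulVecLin = ⊥ := by
    rw [LinearMap.ker_eq_bot']
    intro y hy
    exact h y hy
  obtain ⟨g, hg⟩ := LinearMap.exists_leftInverse_of_injective _ hker
  set B' := LinearMap.toMatrix' g with hB'
  have hBA : B' * (A.map (Int.cast : ℤ → ZMod p)) = 1 := by
    have h1 : LinearMap.toMatrix' (g ∘ₗ (A.map (Int.cast : ℤ → ZMod p)).mulVecLin) = 1 := by
      rw [hg, LinearMap.toMatrix'_id]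
    rw [LinearMap.toMatrix'_comp] at h1
    rw [hB', ← h1]
    congr 1
    exact (LinearMap.toMatrix'_toLin' _).symm
  let B : Matrix (Fin n) (Fin m) ℤ := Matrix.of (fun i j => ((B' i j).val : ℤ))
  have hBmap : B.map (Int.cast : ℤ → ZMod p) = B' := by
    ext i j
    show (((B' i j).val : ℤ) : ZMod p) = B' i j
    rw [Int.cast_natCast, ZMod.natCast_zmod_val]
  have hdet : (((B * A).det : ℤ) : ZMod p) = 1 := by
    rw [← det_cast, mul_cast, hBmap, hBA, det_one]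
  have hne : (B * A).det ≠ 0 := by
    intro h0
    rw [h0, Int.cast_zero] at hdet
    exact zero_ne_one hdet
  intro y hy
  have h1 : ((B * A).map (Int.cast : ℤ → ℚ)) *ᵥ y = 0 := by
    rw [mul_cast, ← Matrix.mulVec_mulVec, hy, Matrix.mulVec_zero]
  refine Matrix.eq_zero_of_mulVec_eq_zero ?_ h1
  rw [det_cast]
  exact_mod_cast hne

theorem fact_mul_pow_lt (m n l : ℕ) (hm : m ≤ l) (hn : n ≤ l) :
    n.factorial * m ^ n < 2 ^ (2 * l * l + 2 * l + 1) := by
  have h1 : n.factorial ≤ 2 ^ (l * l) := by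
    calc n.factorial ≤ n ^ n := Nat.factorial_le_pow n
      _ ≤ (2 ^ l) ^ n := Nat.pow_le_pow_left (hn.trans Nat.lt_two_pow_self.le) n
      _ ≤ (2 ^ l) ^ l := Nat.pow_le_pow_right (by positivity) hn
      _ = 2 ^ (l * l) := by rw [← pow_mul]
  have h2 : m ^ n ≤ 2 ^ (l * l) := by
    calc m ^ n ≤ (2 ^ l) ^ n := Nat.pow_le_pow_left (hm.trans Nat.lt_two_pow_self.le) n
      _ ≤ (2 ^ l) ^ l := Nat.pow_le_pow_right (by positivity) hn
      _ = 2 ^ (l * l) := by rw [← pow_mul]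
  calc n.factorial * m ^ n ≤ 2 ^ (l * l) * 2 ^ (l * l) := Nat.mul_le_mul h1 h2
    _ = 2 ^ (2 * l * l) := by rw [← pow_add]; congr 1; ring
    _ < 2 ^ (2 * l * l + 2 * l + 1) := Nat.pow_lt_pow_right (by norm_num) (by omega)

theorem exists_prime_TK {m n : ℕ} (A : Matrix (Fin m) (Fin n) ℤ) (hA : ∀ i j, |A i j| ≤ 1)
    (h : TK ℚ A) (l : ℕ) (hm : m ≤ l) (hn : n ≤ l) :
    ∃ p, p.Prime ∧ p ≤ (2 * l * l + 2 * l + 5) * (2 * l * l + 2 * l + 5) ∧
      ∀ [Fact p.Prime], TK (ZMod p) A := by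
  set G : Matrix (Fin n) (Fin n) ℤ := Aᵀ * A with hG
  have hGdet : G.det ≠ 0 := by
    intro h0
    have h1 : (G.map (Int.cast : ℤ → ℚ)).det = 0 := by rw [det_cast, h0, Int.cast_zero]
    obtain ⟨y, hy, hGy⟩ := Matrix.exists_mulVec_eq_zero_iff.2 h1
    apply hy
    apply h
    have h2 : (A.map (Int.cast : ℤ → ℚ) *ᵥ y) ⬝ᵥ (A.map (Int.cast : ℤ → ℚ) *ᵥ y) = 0 := by
      have h3 : G.map (Int.cast : ℤ → ℚ) = (A.map (Int.cast : ℤ → ℚ))ᵀ *
          A.map (Int.cast : ℤ → ℚ) := by rw [hG, mul_cast]; rfl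
      rw [h3, ← Matrix.mulVec_mulVec] at hGy
      calc (A.map (Int.cast : ℤ → ℚ) *ᵥ y) ⬝ᵥ (A.map (Int.cast : ℤ → ℚ) *ᵥ y)
          = y ⬝ᵥ ((A.map (Int.cast : ℤ → ℚ))ᵀ *ᵥ (A.map (Int.cast : ℤ → ℚ) *ᵥ y)) := by
            rw [Matrix.dotProduct_mulVec, ← Matrix.mulVec_transpose, dotProduct_comm]
        _ = 0 := by rw [hGy, dotProduct_zero]
    exact dotProduct_self_eq_zero.1 h2
  have hGle : ∀ i j, |G i j| ≤ (m : ℤ) := by
    intro i j
    rw [hG, Matrix.mul_apply]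
    refine (Finset.abs_sum_le_sum_abs _ _).trans ?_
    calc ∑ k, |Aᵀ i k * A k j| ≤ ∑ k : Fin m, (1 : ℤ) := by
          apply Finset.sum_le_sum
          intro k _
          rw [abs_mul, Matrix.transpose_apply]
          calc |A k i| * |A k j| ≤ 1 * 1 :=
                mul_le_mul (hA _ _) (hA _ _) (abs_nonneg _) zero_le_one
            _ = 1 := one_mul 1
      _ = m := by simp
  have hdet : |G.det| ≤ ((n.factorial * m ^ n : ℕ) : ℤ) := by
    have := Matrix.det_le (A := G) (abv := AbsoluteValue.abs) (x := (m : ℤ)) (fun i j => hGle i j)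
    rw [Fintype.card_fin, nsmul_eq_mul] at this
    push_cast
    exact this
  have hb : G.det.natAbs < 2 ^ (2 * l * l + 2 * l + 1) := by
    have h1 := fact_mul_pow_lt m n l hm hn
    have h2 : G.det.natAbs ≤ n.factorial * m ^ n := by
      have h3 : ((G.det.natAbs : ℕ) : ℤ) ≤ ((n.factorial * m ^ n : ℕ) : ℤ) := by
        rw [Int.natCast_natAbs]; exact hdet
      exact_mod_cast h3
    omega
  obtain ⟨p, hp1, _, hp3, hp4⟩ := Pool.Agent.H442R3.SD.exists_prime 0 (2 * l * l + 2 * l + 1) G.det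
    hGdet hb (2 * l * l + 2 * l + 5) (by ring)
  refine ⟨p, hp1, hp3, ?_⟩
  intro hfact y hy
  have h1 : (G.map (Int.cast : ℤ → ZMod p)) *ᵥ y = 0 := by
    rw [hG, mul_cast, ← Matrix.mulVec_mulVec, hy, Matrix.mulVec_zero]
  refine Matrix.eq_zero_of_mulVec_eq_zero ?_ h1
  rw [det_cast]
  intro h0
  exact hp4 ((ZMod.intCast_zmod_eq_zero_iff_dvd _ _).1 h0)

end Pool.Agent.R561
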