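import Mathlib

/-!
# Mixing of a symmetric chain in terms of counts
-/

set_option autoImplicit false
set_option linter.unusedSectionVars false
set_option linter.unusedVariables false

namespace Pool.Agent.R561

open Finset

variable {β : Type*} [DecidableEq β]

/-- the number of ways to go from `y₀` to `y` in `k` steps -/
def cnt (Ω : Finset β) (T : β → β → ℕ) (y0 : β) : ℕ → β → ℕ
  | 0, y => if y = y0 then 1 else 0
  | k + 1, y => ∑ z ∈ Ω, cnt Ω T y0 k z * T z y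

/-- assumptions on the chain -/
structure Chain (Ω : Finset β) (T : β → β → ℕ) (M : ℕ) : Prop where
  symm : ∀ y ∈ Ω, ∀ z ∈ Ω, T y z = T z y
  row : ∀ y ∈ Ω, ∑ z ∈ Ω, T y z = M
  diag : ∀ y ∈ Ω, M ≤ 2 * T y y
  gap : ∀ f : β → ℝ, 2 * (∑ y ∈ Ω, f y ^ 2 - (∑ y ∈ Ω, f y) ^ 2 / Ω.card) ≤
    ∑ y ∈ Ω, ∑ z ∈ Ω, (T y z : ℝ) * (f y - f z) ^ 2

theorem Chain.contract {Ω : Finset β} {T : β → β → ℕ} {M : ℕ} (h : Chain Ω T M) (f : β → ℝ)
    (hf : ∑ y ∈ Ω, f y = 0) :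
    ∑ y ∈ Ω, (∑ z ∈ Ω, (T y z : ℝ) * f z) ^ 2 ≤ ((M : ℝ) ^ 2 - M) * ∑ y ∈ Ω, f y ^ 2 := by
  have hgap := h.gap f
  rw [hf] at hgap
  simp only [ne_eq, OfNat.ofNat_ne_zero, not_false_eq_true, zero_pow, zero_div, sub_zero] at hgap
  set D : ℝ := ∑ y ∈ Ω, ∑ z ∈ Ω, (T y z : ℝ) * (f y - f z) ^ 2 with hD
  let g : β → ℝ := fun y => ∑ z ∈ Ω, (T y z : ℝ) * (f y - f z)
  have hrow : ∀ y ∈ Ω, ∑ z ∈ Ω, (T y z : ℝ) = M := by
    intro y hy
    have := h.row y hy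
    exact_mod_cast this
  have hTf : ∀ y ∈ Ω, ∑ z ∈ Ω, (T y z : ℝ) * f z = M * f y - g y := by
    intro y hy
    show _ = M * f y - ∑ z ∈ Ω, (T y z : ℝ) * (f y - f z)
    rw [← hrow y hy, Finset.sum_mul, ← Finset.sum_sub_distrib]
    exact Finset.sum_congr rfl fun z _ => by ring
  have hfg : ∑ y ∈ Ω, f y * g y = D / 2 := by
    have h1 : ∑ y ∈ Ω, f y * g y = ∑ y ∈ Ω, ∑ z ∈ Ω, (T y z : ℝ) * (f y * (f y - f z)) := by
      apply Finset.sum_congr rfl; intro y _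
      show f y * ∑ z ∈ Ω, (T y z : ℝ) * (f y - f z) = _
      rw [Finset.mul_sum]
      exact Finset.sum_congr rfl fun z _ => by ring
    have h2 : ∑ y ∈ Ω, f y * g y = ∑ y ∈ Ω, ∑ z ∈ Ω, (T y z : ℝ) * (f z * (f z - f y)) := by
      rw [h1, Finset.sum_comm]
      apply Finset.sum_congr rfl; intro y hy
      apply Finset.sum_congr rfl; intro z hz
      rw [h.symm z hz y hy]
    have h3 : ∑ y ∈ Ω, f y * g y + ∑ y ∈ Ω, f y * g y = D := by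
      nth_rewrite 1 [h1]
      rw [h2, hD, ← Finset.sum_add_distrib]
      apply Finset.sum_congr rfl; intro y _
      rw [← Finset.sum_add_distrib]
      exact Finset.sum_congr rfl fun z _ => by ring
    linarith
  have hgg : ∑ y ∈ Ω, g y ^ 2 ≤ M / 2 * D := by
    rw [hD, Finset.mul_sum]
    apply Finset.sum_le_sum; intro y hy
    have h1 : g y = ∑ z ∈ Ω.erase y, (T y z : ℝ) * (f y - f z) := by
      show ∑ z ∈ Ω, (T y z : ℝ) * (f y - f z) = _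
      rw [← Finset.add_sum_erase Ω _ hy]; ring
    have h2 : g y ^ 2 ≤ (∑ z ∈ Ω.erase y, (T y z : ℝ)) *
        ∑ z ∈ Ω.erase y, (T y z : ℝ) * (f y - f z) ^ 2 := by
      rw [h1]
      apply Finset.sum_sq_le_sum_mul_sum_of_sq_le_mul
      · intro z _; exact Nat.cast_nonneg _
      · intro z _; positivity
      · intro z _; apply le_of_eq; ring
    have h3 : ∑ z ∈ Ω.erase y, (T y z : ℝ) ≤ M / 2 := by
      have := hrow y hy
      rw [← Finset.add_sum_erase Ω _ hy] at this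
      have hd : (M : ℝ) ≤ 2 * T y y := by exact_mod_cast h.diag y hy
      linarith
    have h4 : ∑ z ∈ Ω.erase y, (T y z : ℝ) * (f y - f z) ^ 2 =
        ∑ z ∈ Ω, (T y z : ℝ) * (f y - f z) ^ 2 := by
      rw [← Finset.add_sum_erase Ω (fun z => (T y z : ℝ) * (f y - f z) ^ 2) hy]; ring
    rw [h4] at h2
    refine h2.trans (mul_le_mul_of_nonneg_right h3 ?_)
    exact Finset.sum_nonneg fun z _ => by positivity
  have hexp : ∑ y ∈ Ω, (∑ z ∈ Ω, (T y z : ℝ) * f z) ^ 2 =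
      (M : ℝ) ^ 2 * ∑ y ∈ Ω, f y ^ 2 - 2 * M * ∑ y ∈ Ω, f y * g y + ∑ y ∈ Ω, g y ^ 2 := by
    rw [Finset.mul_sum, Finset.mul_sum, ← Finset.sum_sub_distrib, ← Finset.sum_add_distrib]
    apply Finset.sum_congr rfl; intro y hy
    rw [hTf y hy]; ring
  rw [hexp, hfg]
  have hM : (0 : ℝ) ≤ M := Nat.cast_nonneg _
  nlinarith [mul_le_mul_of_nonneg_left hgap hM]

theorem Chain.sum_cnt {Ω : Finset β} {T : β → β → ℕ} {M : ℕ} (h : Chain Ω T M) {y0 : β}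
    (hy0 : y0 ∈ Ω) (k : ℕ) : ∑ y ∈ Ω, cnt Ω T y0 k y = M ^ k := by
  induction k with
  | zero => simp [cnt, hy0]
  | succ k ih =>
    simp only [cnt]
    rw [Finset.sum_comm, pow_succ, ← ih, Finset.sum_mul]
    apply Finset.sum_congr rfl; intro z hz
    rw [← Finset.mul_sum, h.row z hz]

theorem Chain.norm_bound {Ω : Finset β} {T : β → β → ℕ} {M : ℕ} (h : Chain Ω T M) {y0 : β}
    (hy0 : y0 ∈ Ω) (hM : 1 ≤ M) (k : ℕ) :
    ∑ y ∈ Ω, ((Ω.card : ℝ) * cnt Ω T y0 k y - (M : ℝ) ^ k) ^ 2 ≤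
      ((M : ℝ) ^ 2 - M) ^ k * (Ω.card : ℝ) ^ 2 := by
  have hM' : (1 : ℝ) ≤ M := by exact_mod_cast hM
  have hMM : 0 ≤ (M : ℝ) ^ 2 - M := by nlinarith
  induction k with
  | zero =>
    simp only [cnt, pow_zero, one_mul]
    rw [← Finset.add_sum_erase Ω _ hy0]
    rw [if_pos rfl]
    have h1 : ∑ x ∈ Ω.erase y0, ((Ω.card : ℝ) * ((if x = y0 then 1 else 0 : ℕ) : ℝ) - 1) ^ 2 =
        (Ω.card : ℝ) - 1 := by
      have : ∀ x ∈ Ω.erase y0, ((Ω.card : ℝ) * ((if x = y0 then 1 else 0 : ℕ) : ℝ) - 1) ^ 2 = 1 := by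
        intro x hx
        rw [if_neg (ne_of_mem_erase hx)]; norm_num
      rw [Finset.sum_congr rfl this, Finset.sum_const, nsmul_eq_mul, mul_one,
        card_erase_of_mem hy0, Nat.cast_sub (card_pos.2 ⟨y0, hy0⟩)]
      norm_num
    rw [h1]
    have : (1 : ℝ) ≤ Ω.card := by exact_mod_cast card_pos.2 ⟨y0, hy0⟩
    push_cast
    nlinarith
  | succ k ih =>
    have hz : ∑ y ∈ Ω, ((Ω.card : ℝ) * cnt Ω T y0 k y - (M : ℝ) ^ k) = 0 := by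
      rw [Finset.sum_sub_distrib, ← Finset.mul_sum, Finset.sum_const, nsmul_eq_mul]
      have := h.sum_cnt hy0 k
      have h2 : ∑ y ∈ Ω, (cnt Ω T y0 k y : ℝ) = (M : ℝ) ^ k := by exact_mod_cast this
      rw [h2]; ring
    have hc := h.contract _ hz
    have hrec : ∀ y ∈ Ω, (Ω.card : ℝ) * cnt Ω T y0 (k + 1) y - (M : ℝ) ^ (k + 1) =
        ∑ z ∈ Ω, (T y z : ℝ) * ((Ω.card : ℝ) * cnt Ω T y0 k z - (M : ℝ) ^ k) := by
      intro y hy
      simp only [cnt]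
      push_cast
      have h1 : (M : ℝ) ^ (k + 1) = ∑ z ∈ Ω, (T y z : ℝ) * (M : ℝ) ^ k := by
        rw [← Finset.sum_mul, pow_succ]
        have := h.row y hy
        have h2 : ∑ z ∈ Ω, (T y z : ℝ) = M := by exact_mod_cast this
        rw [h2]; ring
      rw [h1, Finset.mul_sum, ← Finset.sum_sub_distrib]
      apply Finset.sum_congr rfl; intro z hz'
      rw [h.symm z hz' y hy]; ring
    rw [Finset.sum_congr rfl fun y hy => by rw [hrec y hy]]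
    refine hc.trans ?_
    calc ((M : ℝ) ^ 2 - M) * ∑ y ∈ Ω, ((Ω.card : ℝ) * cnt Ω T y0 k y - (M : ℝ) ^ k) ^ 2
        ≤ ((M : ℝ) ^ 2 - M) * (((M : ℝ) ^ 2 - M) ^ k * (Ω.card : ℝ) ^ 2) :=
          mul_le_mul_of_nonneg_left ih hMM
      _ = ((M : ℝ) ^ 2 - M) ^ (k + 1) * (Ω.card : ℝ) ^ 2 := by
          rw [pow_succ ((M : ℝ) ^ 2 - M) k]; ring

theorem two_mul_pred_pow (M : ℕ) (hM : 1 ≤ M) : 2 * (M - 1) ^ M ≤ M ^ M := by
  obtain ⟨m, rfl⟩ := Nat.exists_eq_add_of_le' hM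
  rw [Nat.add_sub_cancel]
  rcases Nat.eq_zero_or_pos m with rfl | hm
  · norm_num
  -- `(m+1)^(m+1) = (m+1) (m+1)^m ≥ ...` by Bernoulli
  have h1 : (m : ℕ) ^ (m + 1) + (m + 1) * m ^ m ≤ (m + 1) ^ (m + 1) := by
    rw [add_pow]
    have h2 : ({m + 1, m} : Finset ℕ) ⊆ Finset.range (m + 1 + 1) := by
      intro x hx
      simp only [mem_insert, mem_singleton] at hx
      rw [Finset.mem_range]; omega
    have h3 := Finset.sum_le_sum_of_subset (f := fun k => m ^ k * 1 ^ (m + 1 - k) *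
      (m + 1).choose k) h2
    rw [Finset.sum_pair (by omega)] at h3
    simp only [one_pow, mul_one, Nat.choose_self, Nat.choose_succ_self_right, Nat.sub_self,
      pow_zero] at h3
    simp only [one_pow, mul_one]
    calc m ^ (m + 1) + (m + 1) * m ^ m = m ^ (m + 1) + m ^ m * (m + 1) := by ring
      _ ≤ _ := h3
  calc 2 * m ^ (m + 1) = m ^ (m + 1) + m * m ^ m := by ring
    _ ≤ m ^ (m + 1) + (m + 1) * m ^ m := by
      apply Nat.add_le_add_left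
      exact Nat.mul_le_mul_right _ (Nat.le_succ m)
    _ ≤ _ := h1

theorem contraction_pow (M τ : ℕ) (hM : 1 ≤ M) :
    ((M : ℝ) ^ 2 - M) ^ (2 * M * τ) * (2 ^ τ) ^ 2 ≤ ((M : ℝ) ^ (2 * M * τ)) ^ 2 := by
  have h1 : ((M : ℝ) ^ 2 - M) = M * ((M - 1 : ℕ) : ℝ) := by
    rw [Nat.cast_sub hM]; push_cast; ring
  have h2 : (2 : ℝ) * (((M - 1 : ℕ) : ℝ)) ^ M ≤ (M : ℝ) ^ M := by
    exact_mod_cast two_mul_pred_pow M hM
  have h3 : ((M : ℝ) ^ 2 - M) ^ (2 * M * τ) * (2 ^ τ) ^ 2 =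
      ((M : ℝ) ^ M * (2 * (((M - 1 : ℕ) : ℝ)) ^ M)) ^ (2 * τ) := by
    rw [h1]
    rw [mul_pow, mul_pow, mul_pow, ← pow_mul, ← pow_mul, ← pow_mul]
    have e1 : M * (2 * τ) = 2 * M * τ := by ring
    have e2 : τ * 2 = 2 * τ := by ring
    rw [e1, e2]; ring
  have h4 : ((M : ℝ) ^ (2 * M * τ)) ^ 2 = ((M : ℝ) ^ M * (M : ℝ) ^ M) ^ (2 * τ) := by
    rw [← pow_add, ← pow_mul, ← pow_mul]
    congr 1; ring
  rw [h3, h4]
  apply pow_le_pow_left₀ (by positivity)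
  exact mul_le_mul_of_nonneg_left h2 (by positivity)

theorem Chain.cnt_bound {Ω : Finset β} {T : β → β → ℕ} {M : ℕ} (h : Chain Ω T M) {y0 : β}
    (hy0 : y0 ∈ Ω) (hM : 1 ≤ M) (τ : ℕ) {y : β} (hy : y ∈ Ω) :
    cnt Ω T y0 (2 * M * τ) y * Ω.card * 2 ^ τ ≤ M ^ (2 * M * τ) * (2 ^ τ + Ω.card) := by
  have h1 := h.norm_bound hy0 hM (2 * M * τ)
  set u : ℝ := (Ω.card : ℝ) * cnt Ω T y0 (2 * M * τ) y - (M : ℝ) ^ (2 * M * τ) with hu
  have h2 : u ^ 2 ≤ ((M : ℝ) ^ 2 - M) ^ (2 * M * τ) * (Ω.card : ℝ) ^ 2 := by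
    refine le_trans ?_ h1
    exact Finset.single_le_sum (f := fun y => ((Ω.card : ℝ) * cnt Ω T y0 (2 * M * τ) y -
      (M : ℝ) ^ (2 * M * τ)) ^ 2) (fun _ _ => sq_nonneg _) hy
  have h3 := contraction_pow M τ hM
  have h4 : (u * 2 ^ τ) ^ 2 ≤ ((M : ℝ) ^ (2 * M * τ) * Ω.card) ^ 2 := by
    calc (u * 2 ^ τ) ^ 2 = u ^ 2 * (2 ^ τ) ^ 2 := by ring
      _ ≤ ((M : ℝ) ^ 2 - M) ^ (2 * M * τ) * (Ω.card : ℝ) ^ 2 * (2 ^ τ) ^ 2 := by
        apply mul_le_mul_of_nonneg_right h2 (by positivity)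
      _ = (((M : ℝ) ^ 2 - M) ^ (2 * M * τ) * (2 ^ τ) ^ 2) * (Ω.card : ℝ) ^ 2 := by ring
      _ ≤ ((M : ℝ) ^ (2 * M * τ)) ^ 2 * (Ω.card : ℝ) ^ 2 := by
        apply mul_le_mul_of_nonneg_right h3 (by positivity)
      _ = _ := by ring
  have h5 := abs_le_of_sq_le_sq' h4 (by positivity)
  have h6 := h5.2
  rw [hu] at h6
  have h7 : (cnt Ω T y0 (2 * M * τ) y : ℝ) * Ω.card * 2 ^ τ ≤
      (M : ℝ) ^ (2 * M * τ) * (2 ^ τ + Ω.card) := by nlinarith [h6]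
  exact_mod_cast h7

theorem Chain.final_bound {Ω : Finset β} {T : β → β → ℕ} {M : ℕ} (h : Chain Ω T M) {y0 : β}
    (hy0 : y0 ∈ Ω) (hM : 1 ≤ M) (s N : ℕ) (hN : Ω.card ≤ 2 ^ N) {y : β} (hy : y ∈ Ω) :
    (2 ^ s - 1) * cnt Ω T y0 (2 * M * (s + N + 1)) y * Ω.card ≤
      2 ^ s * M ^ (2 * M * (s + N + 1)) := by
  set τ := s + N + 1 with hτ
  have h1 := h.cnt_bound hy0 hM τ hy
  set c := cnt Ω T y0 (2 * M * τ) y
  set P := M ^ (2 * M * τ)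
  set K := Ω.card
  have hpos : 0 < 2 ^ τ := by positivity
  have hs : 1 ≤ 2 ^ s := Nat.one_le_two_pow
  have h2 : 2 ^ s * K ≤ 2 ^ τ := by
    calc 2 ^ s * K ≤ 2 ^ s * 2 ^ N := Nat.mul_le_mul_left _ hN
      _ = 2 ^ (s + N) := by rw [pow_add]
      _ ≤ 2 ^ τ := Nat.pow_le_pow_right (by norm_num) (by omega)
  apply Nat.le_of_mul_le_mul_right (c := 2 ^ τ) _ hpos
  calc (2 ^ s - 1) * c * K * 2 ^ τ = (2 ^ s - 1) * (c * K * 2 ^ τ) := by ring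
    _ ≤ (2 ^ s - 1) * (P * (2 ^ τ + K)) := Nat.mul_le_mul_left _ h1
    _ = P * ((2 ^ s - 1) * 2 ^ τ + (2 ^ s - 1) * K) := by ring
    _ ≤ P * ((2 ^ s - 1) * 2 ^ τ + 2 ^ τ) := by
      apply Nat.mul_le_mul_left
      apply Nat.add_le_add_left
      exact (Nat.mul_le_mul_right _ (Nat.sub_le _ _)).trans h2
    _ = 2 ^ s * P * 2 ^ τ := by
      have : (2 ^ s - 1) * 2 ^ τ + 2 ^ τ = 2 ^ s * 2 ^ τ := by
        conv_rhs => rw [← Nat.sub_add_cancel hs]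
        ring
      rw [this]; ring

end Pool.Agent.R561
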