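import Pool.Agent.R561.Alg2
import Pool.Agent.R561.Gap
import Pool.Agent.R561.Mix

/-!
# The walk of the algorithm is a basis exchange walk
-/

set_option autoImplicit false
set_option linter.unusedSectionVars false
set_option linter.unusedVariables false

namespace Pool.Agent.R561

open Pool.Agent.NPC
open Finset

/-! ### Sublists of a range and sets -/

theorem pw_of_sub {N : ℕ} {B : List ℕ} (h : B.Sublist (List.range N)) : B.Pairwise (· < ·) :=
  List.pairwise_lt_range.sublist h

theorem nd_of_sub {N : ℕ} {B : List ℕ} (h : B.Sublist (List.range N)) : B.Nodup :=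
  List.nodup_range.sublist h

theorem eq_of_mem' {N : ℕ} {B B' : List ℕ} (h : B.Sublist (List.range N))
    (h' : B'.Sublist (List.range N)) (hm : ∀ k, k ∈ B ↔ k ∈ B') : B = B' :=
  ((List.perm_ext_iff_of_nodup (nd_of_sub h) (nd_of_sub h')).2 hm).eq_of_pairwise'
    ((pw_of_sub h).imp le_of_lt) ((pw_of_sub h').imp le_of_lt)

/-- the list of a set of indices -/
def li {N : ℕ} (Z : Finset (Fin N)) : List ℕ :=
  (List.range N).filter (fun k => decide (k ∈ Z.map Fin.valEmbedding))

/-- the set of indices of a list -/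
def toF (N : ℕ) (B : List ℕ) : Finset (Fin N) := univ.filter (fun i => (i : ℕ) ∈ B)

theorem li_sub {N : ℕ} (Z : Finset (Fin N)) : (li Z).Sublist (List.range N) :=
  List.filter_sublist

theorem mem_li {N : ℕ} {Z : Finset (Fin N)} {k : ℕ} : k ∈ li Z ↔ ∃ i ∈ Z, (i : ℕ) = k := by
  unfold li
  rw [List.mem_filter, List.mem_range, decide_eq_true_eq, Finset.mem_map]
  constructor
  · rintro ⟨_, i, hi, rfl⟩
    exact ⟨i, hi, rfl⟩
  · rintro ⟨i, hi, rfl⟩
    exact ⟨i.2, i, hi, rfl⟩

theorem coe_mem_li {N : ℕ} {Z : Finset (Fin N)} {i : Fin N} : (i : ℕ) ∈ li Z ↔ i ∈ Z := by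
  rw [mem_li]
  constructor
  · rintro ⟨j, hj, h⟩
    rwa [← Fin.ext h]
  · intro h; exact ⟨i, h, rfl⟩

theorem toF_li {N : ℕ} (Z : Finset (Fin N)) : toF N (li Z) = Z := by
  ext i
  rw [toF, mem_filter, coe_mem_li]
  simp

theorem li_inj {N : ℕ} : Function.Injective (li : Finset (Fin N) → List ℕ) := by
  intro Z Z' h
  rw [← toF_li Z, h, toF_li]

theorem li_toF {N : ℕ} {B : List ℕ} (h : B.Sublist (List.range N)) : li (toF N B) = B := by
  apply eq_of_mem' (li_sub _) h
  intro k
  rw [mem_li]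
  constructor
  · rintro ⟨i, hi, rfl⟩
    exact (mem_filter.1 hi).2
  · intro hk
    have := List.mem_range.1 (h.subset hk)
    exact ⟨⟨k, this⟩, mem_filter.2 ⟨mem_univ _, hk⟩, rfl⟩

theorem length_li {N : ℕ} (Z : Finset (Fin N)) : (li Z).length = Z.card := by
  have h1 : (li Z).toFinset = Z.map Fin.valEmbedding := by
    ext k
    rw [List.mem_toFinset, mem_li, Finset.mem_map]
    rfl
  rw [← List.toFinset_card_of_nodup (nd_of_sub (li_sub Z)), h1, Finset.card_map]

theorem swp_li {N : ℕ} (Z : Finset (Fin N)) (i j : Fin N) :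
    swp N (li Z) i j = li (insert j (Z.erase i)) := by
  apply eq_of_mem' (List.filter_sublist) (li_sub _)
  intro k
  rw [mem_li]
  simp only [swp, List.mem_filter, List.mem_range, Bool.or_eq_true, Bool.and_eq_true,
    decide_eq_true_eq, Bool.not_eq_true', decide_eq_false_iff_not, Finset.mem_insert,
    Finset.mem_erase]
  constructor
  · rintro ⟨hk, ⟨h1, h2⟩ | h1⟩
    · obtain ⟨l, hl, rfl⟩ := mem_li.1 h1
      exact ⟨l, Or.inr ⟨fun h => h2 (by rw [h]), hl⟩, rfl⟩
    · exact ⟨j, Or.inl rfl, h1.symm⟩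
  · rintro ⟨l, h | ⟨h1, h2⟩, rfl⟩
    · subst h; exact ⟨l.2, Or.inr rfl⟩
    · exact ⟨l.2, Or.inl ⟨coe_mem_li.2 h2, fun h => h1 (Fin.ext h)⟩⟩

/-! ### The step -/

variable (x : LL)

theorem nT_le_ww : nT x ≤ ww x := by
  unfold ww aa
  rw [Nat.size_eq_bits_len]
  exact (Nat.lt_size_self _).le

theorem ww_pos : 0 < ww x := by unfold ww; positivity

theorem stp_A {Z : Finset (Fin (nT x))} {u : ℕ} {i j : Fin (nT x)} (hi : u / ww x = i)
    (hj : u % ww x = j) (hiZ : i ∈ Z) (hjZ : j ∉ Z)
    (hind : indL x (li (insert j (Z.erase i))) = true) :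
    stp x (li Z) u = li (insert j (Z.erase i)) := by
  unfold stp
  rw [hi, hj, swp_li, hind]
  have h1 : decide ((i : ℕ) ∈ li Z) = true := decide_eq_true (coe_mem_li.2 hiZ)
  have h2 : decide ((j : ℕ) ∈ li Z) = false := decide_eq_false (fun h => hjZ (coe_mem_li.1 h))
  have h3 : decide ((j : ℕ) < nT x) = true := decide_eq_true j.2
  rw [h1, h2, h3]
  rfl

theorem stp_B (Z : Finset (Fin (nT x))) (u : ℕ) :
    stp x (li Z) u = li Z ∨ ∃ i j : Fin (nT x), u / ww x = i ∧ u % ww x = j ∧ i ∈ Z ∧ j ∉ Z ∧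
      indL x (li (insert j (Z.erase i))) = true ∧ stp x (li Z) u = li (insert j (Z.erase i)) := by
  by_cases h : (decide (u / ww x ∈ li Z) && (!decide (u % ww x ∈ li Z) &&
    (decide (u % ww x < nT x) &&
    indL x (swp (nT x) (li Z) (u / ww x) (u % ww x))))) = true
  · right
    simp only [Bool.and_eq_true, decide_eq_true_eq, Bool.not_eq_true',
      decide_eq_false_iff_not] at h
    obtain ⟨h1, h2, h3, h4⟩ := h
    obtain ⟨i, hi, hi'⟩ := mem_li.1 h1
    refine ⟨i, ⟨_, h3⟩, hi'.symm, rfl, hi, fun h => h2 (mem_li.2 ⟨_, h, rfl⟩), ?_, ?_⟩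
    · rw [← swp_li, hi']; exact h4
    · refine stp_A x hi'.symm rfl hi (fun h => h2 (mem_li.2 ⟨_, h, rfl⟩)) ?_
      rw [← swp_li, hi']; exact h4
  · left
    unfold stp
    rw [Bool.not_eq_true] at h
    rw [h]; rfl

/-- the family of bases -/
def fam : Finset (Finset (Fin (nT x))) :=
  univ.filter (fun Z => Z.card = (base x).length ∧ indL x (li Z) = true)

theorem mem_fam {Z : Finset (Fin (nT x))} :
    Z ∈ fam x ↔ Z.card = (base x).length ∧ indL x (li Z) = true := by
  simp [fam]

theorem card_exch {N : ℕ} {Z : Finset (Fin N)} {i j : Fin N} (hi : i ∈ Z) (hj : j ∉ Z) :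
    (insert j (Z.erase i)).card = Z.card := by
  rw [card_insert_of_notMem (fun h => hj (mem_of_mem_erase h)), card_erase_of_mem hi]
  have := card_pos.2 ⟨i, hi⟩
  omega

/-- the step on sets -/
noncomputable def stZ (Z : Finset (Fin (nT x))) (u : ℕ) : Finset (Fin (nT x)) :=
  toF _ (stp x (li Z) u)

theorem li_stZ (Z : Finset (Fin (nT x))) (u : ℕ) : li (stZ x Z u) = stp x (li Z) u := by
  unfold stZ
  rcases stp_B x Z u with h | ⟨i, j, _, _, _, _, _, h⟩
  · rw [h, toF_li]
  · rw [h, toF_li]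

theorem stZ_mem {Z : Finset (Fin (nT x))} (hZ : Z ∈ fam x) (u : ℕ) : stZ x Z u ∈ fam x := by
  unfold stZ
  rcases stp_B x Z u with h | ⟨i, j, _, _, h1, h2, h3, h⟩
  · rw [h, toF_li]; exact hZ
  · rw [h, toF_li, mem_fam, card_exch h1 h2]
    exact ⟨((mem_fam x).1 hZ).1, h3⟩

/-- transition counts on sets -/
noncomputable def tZ (Z Y : Finset (Fin (nT x))) : ℕ := tc x (li Z) (li Y)

theorem tZ_eq (Z Y : Finset (Fin (nT x))) :
    tZ x Z Y = ((range (MM x)).filter (fun u => stZ x Z u = Y)).card := by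
  unfold tZ tc
  have h1 : ((range (MM x)).filter (fun u => stZ x Z u = Y)) =
      ((List.range (MM x)).filter (fun u => decide (stp x (li Z) u = li Y))).toFinset := by
    ext u
    simp only [mem_filter, mem_range, List.mem_toFinset, List.mem_filter, List.mem_range,
      decide_eq_true_eq]
    constructor
    · rintro ⟨h1, h2⟩
      exact ⟨h1, by rw [← li_stZ, h2]⟩
    · rintro ⟨h1, h2⟩
      exact ⟨h1, li_inj (by rw [li_stZ, h2])⟩
  rw [h1, List.toFinset_card_of_nodup (List.nodup_range.filter _)]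

theorem adj_exists {N : ℕ} {r : ℕ} {Z Y : Finset (Fin N)} (hZ : Z.card = r) (hY : Y.card = r)
    (h : (Z ∩ Y).card + 1 = r) : ∃ i j, Z \ Y = {i} ∧ Y \ Z = {j} ∧ Y = insert j (Z.erase i) := by
  have h1 : (Z \ Y).card = 1 := by
    have := card_sdiff_add_card_inter Z Y
    omega
  have h2 : (Y \ Z).card = 1 := by
    have := card_sdiff_add_card_inter Y Z
    rw [inter_comm] at this
    omega
  obtain ⟨i, hi⟩ := card_eq_one.1 h1
  obtain ⟨j, hj⟩ := card_eq_one.1 h2
  refine ⟨i, j, hi, hj, ?_⟩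
  ext k
  rw [mem_insert, mem_erase]
  constructor
  · intro hk
    by_cases hkZ : k ∈ Z
    · right
      refine ⟨?_, hkZ⟩
      rintro rfl
      have : k ∈ Z \ Y := by rw [hi]; simp
      exact (mem_sdiff.1 this).2 hk
    · left
      have : k ∈ Y \ Z := mem_sdiff.2 ⟨hk, hkZ⟩
      rw [hj, mem_singleton] at this
      exact this
  · rintro (rfl | ⟨h3, h4⟩)
    · have : k ∈ Y \ Z := by rw [hj]; simp
      exact (mem_sdiff.1 this).1
    · by_contra hk
      have : k ∈ Z \ Y := mem_sdiff.2 ⟨h4, hk⟩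
      rw [hi, mem_singleton] at this
      exact h3 this

theorem tZ_adj {Z Y : Finset (Fin (nT x))} (hZ : Z ∈ fam x) (hY : Y ∈ fam x) (hne : Z ≠ Y) :
    tZ x Z Y = if (Z ∩ Y).card + 1 = (base x).length then 1 else 0 := by
  obtain ⟨hZ1, hZ2⟩ := (mem_fam x).1 hZ
  obtain ⟨hY1, hY2⟩ := (mem_fam x).1 hY
  rw [tZ_eq]
  split_ifs with hadj
  · obtain ⟨i, j, hi, hj, hYe⟩ := adj_exists hZ1 hY1 hadj
    have hiZ : i ∈ Z := by
      have : i ∈ Z \ Y := by rw [hi]; simp
      exact (mem_sdiff.1 this).1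
    have hjZ : j ∉ Z := by
      have : j ∈ Y \ Z := by rw [hj]; simp
      exact (mem_sdiff.1 this).2
    rw [card_eq_one]
    refine ⟨ww x * i + j, ?_⟩
    have hw := ww_pos x
    have hjw : (j : ℕ) < ww x := lt_of_lt_of_le j.2 (nT_le_ww x)
    have hiw : (i : ℕ) < ww x := lt_of_lt_of_le i.2 (nT_le_ww x)
    ext u
    rw [mem_filter, mem_range, mem_singleton]
    constructor
    · rintro ⟨_, h2⟩
      rcases stp_B x Z u with h | ⟨i', j', hi', hj', hiZ', hjZ', _, h⟩
      · exfalso
        unfold stZ at h2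
        rw [h, toF_li] at h2
        exact hne h2
      · unfold stZ at h2
        rw [h, toF_li] at h2
        have e1 : i' = i := by
          have : i' ∈ Z \ Y := by
            rw [mem_sdiff, ← h2, mem_insert, mem_erase]
            refine ⟨hiZ', ?_⟩
            rintro (h | ⟨h, _⟩)
            · rw [h] at hiZ'; exact hjZ' hiZ'
            · exact h rfl
          rw [hi, mem_singleton] at this
          exact this
        have e2 : j' = j := by
          have : j' ∈ Y \ Z := by
            rw [mem_sdiff, ← h2]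
            exact ⟨mem_insert_self _ _, hjZ'⟩
          rw [hj, mem_singleton] at this
          exact this
        rw [← e1, ← e2, ← hi', ← hj']
        exact (Nat.div_add_mod u (ww x)).symm
    · rintro rfl
      have e1 : (ww x * i + j) / ww x = i := by
        rw [Nat.mul_add_div hw, Nat.div_eq_of_lt hjw, add_zero]
      have e2 : (ww x * i + j) % ww x = j := by
        rw [Nat.mul_add_mod, Nat.mod_eq_of_lt hjw]
      refine ⟨?_, ?_⟩
      · unfold MM
        calc ww x * i + j < ww x * i + ww x := by omega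
          _ = ww x * (i + 1) := by ring
          _ ≤ ww x * ww x := Nat.mul_le_mul_left _ hiw
      · unfold stZ
        rw [stp_A x e1 e2 hiZ hjZ (by rw [← hYe]; exact hY2), toF_li, ← hYe]
  · rw [card_eq_zero, filter_eq_empty_iff]
    intro u _ h2
    rcases stp_B x Z u with h | ⟨i', j', hi', hj', hiZ', hjZ', _, h⟩
    · unfold stZ at h2
      rw [h, toF_li] at h2
      exact hne h2
    · unfold stZ at h2
      rw [h, toF_li] at h2
      apply hadj
      have e1 : Z ∩ Y = Z.erase i' := by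
        ext k
        rw [mem_inter, ← h2, mem_insert, mem_erase]
        constructor
        · rintro ⟨h3, h | h⟩
          · rw [h] at h3; exact absurd h3 hjZ'
          · exact h
        · rintro ⟨h3, h4⟩
          exact ⟨h4, Or.inr ⟨h3, h4⟩⟩
      rw [e1, card_erase_of_mem hiZ', ← hZ1]
      have := card_pos.2 ⟨i', hiZ'⟩
      omega

theorem tZ_row {Z : Finset (Fin (nT x))} (hZ : Z ∈ fam x) :
    ∑ Y ∈ fam x, tZ x Z Y = MM x := by
  simp_rw [tZ_eq]
  rw [← Finset.card_eq_sum_card_fiberwise (f := fun u => stZ x Z u), card_range]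
  intro u _
  exact stZ_mem x hZ u

theorem two_mul_aux {a n : ℕ} (h : a ≤ n) : 2 * (a * (n - a)) ≤ n * n := by
  obtain ⟨d, rfl⟩ := Nat.exists_eq_add_of_le h
  rw [Nat.add_sub_cancel_left]
  nlinarith [Nat.zero_le (a * a), Nat.zero_le (d * d)]

theorem tZ_diag {Z : Finset (Fin (nT x))} (hZ : Z ∈ fam x) : MM x ≤ 2 * tZ x Z Z := by
  rw [tZ_eq]
  have h1 := Finset.card_filter_add_card_filter_not (s := range (MM x)) (fun u => stZ x Z u = Z)
  rw [card_range] at h1
  -- the moving steps
  have h2 : ((range (MM x)).filter (fun u => ¬ stZ x Z u = Z)).card ≤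
      Z.card * (nT x - Z.card) := by
    have h3 : ((range (MM x)).filter (fun u => ¬ stZ x Z u = Z)).card ≤
        ((Z.map Fin.valEmbedding) ×ˢ (Zᶜ.map Fin.valEmbedding)).card := by
      apply Finset.card_le_card_of_injOn (fun u => (u / ww x, u % ww x))
      · intro u hu
        rw [mem_coe, mem_filter] at hu
        rw [mem_coe, mem_product]
        rcases stp_B x Z u with h | ⟨i, j, h3, h4, h5, h6, _, h7⟩
        · exfalso; apply hu.2
          unfold stZ
          rw [h, toF_li]
        · exact ⟨Finset.mem_map.2 ⟨i, h5, h3.symm⟩, Finset.mem_map.2 ⟨j, mem_compl.2 h6, h4.symm⟩⟩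
      · intro u _ u' _ he
        simp only [Prod.mk.injEq] at he
        rw [← Nat.div_add_mod u (ww x), ← Nat.div_add_mod u' (ww x), he.1, he.2]
    rw [card_product, card_map, card_map, card_compl, Fintype.card_fin] at h3
    exact h3
  have h4 : Z.card ≤ nT x := by
    have := card_le_univ Z
    rwa [Fintype.card_fin] at this
  have h5 : nT x * nT x ≤ MM x := Nat.mul_le_mul (nT_le_ww x) (nT_le_ww x)
  have h6 : 2 * (Z.card * (nT x - Z.card)) ≤ nT x * nT x := two_mul_aux h4
  omega

/-- The chain of the algorithm. -/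
theorem chain (hF : IsBF (base x).length (fam x)) : Chain (fam x) (tZ x) (MM x) := by
  refine ⟨?_, fun Z hZ => tZ_row x hZ, fun Z hZ => tZ_diag x hZ, ?_⟩
  · intro Z hZ Y hY
    by_cases h : Z = Y
    · rw [h]
    · rw [tZ_adj x hZ hY h, tZ_adj x hY hZ (Ne.symm h), inter_comm]
  · intro f
    have hg : EE (base x).length (fam x) f ≤
        ∑ y ∈ fam x, ∑ z ∈ fam x, (tZ x y z : ℝ) * (f y - f z) ^ 2 := by
      unfold EE
      apply Finset.sum_le_sum; intro Z hZ
      apply Finset.sum_le_sum; intro Y hY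
      split_ifs with hadj
      · have hne : Z ≠ Y := by
          rintro rfl
          rw [inter_self, ((mem_fam x).1 hZ).1] at hadj
          omega
        rw [tZ_adj x hZ hY hne, if_pos hadj]
        simp
      · positivity
    refine le_trans ?_ hg
    rcases hr : (base x).length with _ | r
    · -- rank zero
      have h1 : fam x ⊆ {∅} := by
        intro Z hZ
        rw [mem_singleton, ← card_eq_zero]
        rw [((mem_fam x).1 hZ).1, hr]
      rcases subset_singleton_iff.1 h1 with h | h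
      · rw [h]; simp [EE]
      · rw [h]; simp [EE]
    · rw [hr] at hF
      exact gap r (fam x) hF f

end Pool.Agent.R561
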