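import Pool.Agent.R561.FDefs
import Pool.Agent.R561.KerM
import Pool.Agent.R561.ModP
import Pool.Agent.R561.Walk

/-!
# Correctness of the independence test
-/

set_option autoImplicit false
set_option linter.unusedSectionVars false
set_option linter.unusedVariables false

namespace Pool.Agent.R561

open Pool.Agent.NPC
open Finset Matrix
open Pool.Agent.H442R3.MPar (kerL)

/-- integer boundary coefficients -/
def cZ (S T : Finset ℕ) : ℤ :=
  ∑ v ∈ S, if S.erase v = T then (-1 : ℤ) ^ (S.filter (fun u => u < v)).card else 0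

theorem bd_eq (S T : Finset ℕ) : bd S T = ((cZ S T : ℤ) : ℚ) := by
  unfold bd cZ
  rw [Int.cast_sum]
  apply Finset.sum_congr rfl
  intro v _
  split_ifs <;> simp

theorem cZ_abs (S T : Finset ℕ) : |cZ S T| ≤ 1 := by
  unfold cZ
  by_cases h : ∃ v ∈ S, S.erase v = T
  · obtain ⟨v, hv, rfl⟩ := h
    rw [Finset.sum_eq_single v]
    · rw [if_pos rfl, abs_pow, abs_neg, abs_one, one_pow]
    · intro u hu huv
      rw [if_neg]
      intro h
      have : u ∈ S.erase v := mem_erase.2 ⟨huv, hu⟩
      rw [← h] at this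
      exact notMem_erase _ _ this
    · intro h; exact absurd hv h
  · push Not at h
    rw [Finset.sum_eq_zero]
    · simp
    · intro v hv
      rw [if_neg (h v hv)]

theorem cZ_zero {S T : Finset ℕ} (h : ∀ v ∈ S, S.erase v ≠ T) : cZ S T = 0 := by
  unfold cZ
  apply Finset.sum_eq_zero
  intro v hv
  rw [if_neg (h v hv)]

theorem zipIdx_sum {A : Type*} [AddCommMonoid A] (h : ℕ → ℕ → A) : ∀ (l : List ℕ) (k : ℕ),
    l.Pairwise (· < ·) → ((l.zipIdx k).map (fun a => h a.1 a.2)).sum =
      ∑ v ∈ l.toFinset, h v (k + (l.toFinset.filter (fun u => u < v)).card) := by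
  intro l
  induction l with
  | nil => intro k _; simp
  | cons b l ih =>
    intro k hp
    rw [List.pairwise_cons] at hp
    have hb : b ∉ l.toFinset := by
      rw [List.mem_toFinset]; intro h; exact lt_irrefl _ (hp.1 b h)
    rw [List.zipIdx_cons, List.map_cons, List.sum_cons, ih (k + 1) hp.2, List.toFinset_cons,
      Finset.sum_insert hb]
    congr 1
    · have : (insert b l.toFinset).filter (fun u => u < b) = ∅ := by
        rw [filter_eq_empty_iff]
        intro u hu
        rw [mem_insert, List.mem_toFinset] at hu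
        rcases hu with rfl | hu
        · exact lt_irrefl _
        · exact not_lt.2 (hp.1 u hu).le
      rw [this]; simp
    · apply Finset.sum_congr rfl
      intro v hv
      rw [List.mem_toFinset] at hv
      have : (insert b l.toFinset).filter (fun u => u < v) =
          insert b (l.toFinset.filter (fun u => u < v)) := by
        rw [filter_insert, if_pos (hp.1 v hv)]
      rw [this, card_insert_of_notMem (fun h => hb (mem_of_mem_filter b h))]
      congr 1; omega

theorem eq_of_toFinset {l l' : List ℕ} (h : l.Pairwise (· < ·)) (h' : l'.Pairwise (· < ·))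
    (he : l.toFinset = l'.toFinset) : l = l' := by
  have hm : ∀ a, a ∈ l ↔ a ∈ l' := by
    intro a
    rw [← List.mem_toFinset, ← List.mem_toFinset, he]
  have nd : l.Nodup := h.imp (fun h => ne_of_lt h)
  have nd' : l'.Nodup := h'.imp (fun h => ne_of_lt h)
  exact ((List.perm_ext_iff_of_nodup nd nd').2 hm).eq_of_pairwise' (h.imp le_of_lt)
    (h'.imp le_of_lt)

theorem filter_iff {F G : List ℕ} (hF : F.Pairwise (· < ·)) (hG : G.Pairwise (· < ·)) (a : ℕ) :
    F.filter (fun v => !decide (v = a)) = G ↔ F.toFinset.erase a = G.toFinset := by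
  have h1 : (F.filter (fun v => !decide (v = a))).toFinset = F.toFinset.erase a := by
    ext u
    simp only [List.mem_toFinset, List.mem_filter, Bool.not_eq_true', decide_eq_false_iff_not,
      mem_erase]
    tauto
  constructor
  · rintro rfl; exact h1.symm
  · intro h
    apply eq_of_toFinset (hF.filter _) hG
    rw [h1, h]

theorem coefL_cast {F G : List ℕ} (hF : F.Pairwise (· < ·)) (hG : G.Pairwise (· < ·)) (q : ℕ) :
    ((coefL (q + 1) F G : ℕ) : ZMod (q + 1)) = ((cZ F.toFinset G.toFinset : ℤ) : ZMod (q + 1)) := by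
  unfold coefL cZ
  have h1 := zipIdx_sum (fun a i => if F.filter (fun v => !decide (v = a)) = G then
    (if i % 2 = 0 then 1 else q + 1 - 1) else 0) F 0 hF
  have h2 : F.zipIdx = F.zipIdx 0 := rfl
  rw [h2]
  have h3 : ((F.zipIdx 0).map (fun a => if F.filter (fun v => !decide (v = a.1)) = G then
    (if a.2 % 2 = 0 then 1 else q + 1 - 1) else 0)).sum = _ := h1
  rw [h3, Nat.cast_sum, Int.cast_sum]
  apply Finset.sum_congr rfl
  intro v _
  have h4 := filter_iff hF hG v
  by_cases h5 : F.filter (fun u => !decide (u = v)) = G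
  · rw [if_pos h5, if_pos (h4.1 h5), zero_add]
    rcases Nat.even_or_odd (F.toFinset.filter (fun u => u < v)).card with h6 | h6
    · rw [if_pos (Nat.even_iff.1 h6), h6.neg_one_pow]; simp
    · rw [if_neg (by rw [Nat.odd_iff.1 h6]; norm_num), h6.neg_one_pow]
      rw [Nat.add_sub_cancel, Int.cast_neg, Int.cast_one, eq_neg_iff_add_eq_zero]
      have : ((q + 1 : ℕ) : ZMod (q + 1)) = 0 := ZMod.natCast_self _
      rw [Nat.cast_add, Nat.cast_one] at this
      exact this
  · rw [if_neg h5, if_neg (fun h => h5 (h4.2 h))]; simp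

variable {x : LL} {Δ : Finset (Finset ℕ)}

/-- the vertex set of the `i`-th top face -/
def tf (x : LL) (i : ℕ) : Finset ℕ := ((topF x).getD i []).toFinset

/-- the `i`-th column -/
def col (x : LL) (i : Fin (nT x)) : Finset ℕ → ℚ := bd (tf x i)

theorem topF_getD (x : LL) (i : Fin (nT x)) : (topF x).getD i [] ∈ topF x := by
  rw [List.getD_eq_getElem _ _ i.2]
  exact List.getElem_mem _

theorem mem_of_topF {F : List ℕ} (h : F ∈ topF x) : F ∈ x := List.mem_of_mem_filter h

theorem getD_sorted (hL : Lists x Δ) (i : ℕ) : ((topF x).getD i []).Pairwise (· < ·) := by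
  by_cases h : i < (topF x).length
  · rw [List.getD_eq_getElem _ _ h]
    exact hL.sorted _ (mem_of_topF (List.getElem_mem _))
  · rw [List.getD_eq_default _ _ (by omega)]
    exact List.Pairwise.nil

/-- the matrix -/
def mat (x : LL) (B : List ℕ) : Matrix (Fin x.length) (Fin B.length) ℤ :=
  Matrix.of (fun g i => cZ (tf x B[i]) (x[g]).toFinset)

theorem isEmpty_kerL (hL : Lists x Δ) (B : List ℕ) (q : ℕ) [hq : Fact (q + 1).Prime] :
    (kerL (q + 1) (List.range B.length) (rowsB (q + 1) x B)).isEmpty = true ↔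
      TK (ZMod (q + 1)) (mat x B) := by
  set U : Submodule (ZMod (q + 1)) (Fin B.length → ZMod (q + 1)) :=
    LinearMap.ker ((mat x B).map (Int.cast : ℤ → ZMod (q + 1))).mulVecLin with hU
  have hDL : ∀ (g : Fin x.length) (y : Fin B.length → ZMod (q + 1)),
      KM.DL (q + 1) B.length (B.map (fun i => coefL (q + 1) ((topF x).getD i []) x[g])) y =
        ((mat x B).map (Int.cast : ℤ → ZMod (q + 1)) *ᵥ y) g := by
    intro g y
    rw [KM.DL_apply]
    show _ = ∑ i, (mat x B).map (Int.cast : ℤ → ZMod (q + 1)) g i * y i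
    apply Finset.sum_congr rfl
    intro i _
    congr 1
    show (((B.map (fun i => coefL (q + 1) ((topF x).getD i []) x[g])).getD i 0 : ℕ) :
      ZMod (q + 1)) = ((cZ (tf x B[i]) (x[g]).toFinset : ℤ) : ZMod (q + 1))
    rw [List.getD_eq_getElem _ _ (by rw [List.length_map]; exact i.2), List.getElem_map]
    exact coefL_cast (getD_sorted hL _) (hL.sorted _ (List.getElem_mem _)) q
  have hmem : ∀ y, y ∈ U ↔ ∀ f ∈ rowsB (q + 1) x B, KM.DL (q + 1) B.length f y = 0 := by
    intro y
    rw [hU, LinearMap.mem_ker, Matrix.mulVecLin_apply]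
    constructor
    · intro h f hf
      obtain ⟨G, hG, rfl⟩ := List.mem_map.1 hf
      obtain ⟨g, hg, rfl⟩ := List.mem_iff_getElem.1 hG
      refine (hDL ⟨g, hg⟩ y).trans ?_
      rw [h]
      rfl
    · intro h
      funext g
      rw [← hDL g y]
      exact h _ (List.mem_map.2 ⟨x[g], List.getElem_mem _, rfl⟩)
  have hlen := KM.kerL_length (q + 1) B.length (rowsB (q + 1) x B) U hmem
  rw [List.isEmpty_iff_length_eq_zero, hlen, Submodule.finrank_eq_zero, hU,
    LinearMap.ker_eq_bot']
  rfl

theorem linIndep_iff_TK (hL : Lists x Δ) (hΔ : IsComplex Δ) {d : ℕ}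
    (htop : ∀ F ∈ topF x, 2 ≤ F.length) (Z : Finset (Fin (nT x))) :
    LinearIndepOn ℚ (col x) (Z : Set (Fin (nT x))) ↔ TK ℚ (mat x (li Z)) := by
  -- the positions in the list
  have hlt : ∀ i : Fin (li Z).length, (li Z)[i] < nT x := fun i =>
    List.mem_range.1 ((li_sub Z).subset (List.getElem_mem _))
  have hmemZ : ∀ i : Fin (li Z).length, (⟨(li Z)[i], hlt i⟩ : Fin (nT x)) ∈ (Z : Set (Fin (nT x))) := by
    intro i
    rw [Finset.mem_coe, ← coe_mem_li]
    exact List.getElem_mem _
  let e0 : Fin (li Z).length → (Z : Set (Fin (nT x))) := fun i => ⟨⟨(li Z)[i], hlt i⟩, hmemZ i⟩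
  have he0 : Function.Bijective e0 := by
    constructor
    · intro i j h
      have h1 : (li Z)[i] = (li Z)[j] := by
        have := congrArg (fun a : (Z : Set (Fin (nT x))) => ((a : Fin (nT x)) : ℕ)) h
        exact this
      exact Fin.ext ((List.Nodup.getElem_inj_iff (nd_of_sub (li_sub Z))).1 h1)
    · rintro ⟨k, hk⟩
      have h1 : (k : ℕ) ∈ li Z := coe_mem_li.2 hk
      obtain ⟨i, hi, h2⟩ := List.mem_iff_getElem.1 h1
      refine ⟨⟨i, hi⟩, ?_⟩
      apply Subtype.ext
      apply Fin.ext
      exact h2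
  have h1 : LinearIndepOn ℚ (col x) (Z : Set (Fin (nT x))) ↔
      LinearIndependent ℚ (fun i : Fin (li Z).length => bd (tf x (li Z)[i])) := by
    unfold LinearIndepOn
    rw [← linearIndependent_equiv (Equiv.ofBijective e0 he0)]
    rfl
  rw [h1, Fintype.linearIndependent_iff]
  have hval : ∀ (y : Fin (li Z).length → ℚ) (T : Finset ℕ),
      (∑ i, y i • bd (tf x (li Z)[i])) T = ∑ i, ((cZ (tf x (li Z)[i]) T : ℤ) : ℚ) * y i := by
    intro y T
    rw [Finset.sum_apply]
    apply Finset.sum_congr rfl
    intro i _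
    rw [Pi.smul_apply, smul_eq_mul, bd_eq, mul_comm]
  have hsupp : ∀ (i : Fin (li Z).length) (T : Finset ℕ), T ∉ Δ → cZ (tf x (li Z)[i]) T = 0 := by
    intro i T hT
    apply cZ_zero
    intro v hv h
    apply hT
    have h2 : (topF x).getD (li Z)[i] [] ∈ topF x := topF_getD x ⟨_, hlt i⟩
    have h3 : tf x (li Z)[i] ∈ Δ := (hL.mem _).2 ⟨_, mem_of_topF h2, rfl⟩
    rw [← h]
    apply hΔ.down _ h3 _ (erase_subset _ _)
    rw [← card_pos, card_erase_of_mem hv]
    have h4 : (tf x (li Z)[i]).card = ((topF x).getD (li Z)[i] []).length :=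
      List.toFinset_card_of_nodup ((getD_sorted hL _).imp (fun h => ne_of_lt h))
    have h5 := htop _ h2
    omega
  constructor
  · intro h y hy
    funext i
    apply h y _ i
    funext T
    rw [hval]
    by_cases hT : T ∈ Δ
    · obtain ⟨F, hF, rfl⟩ := (hL.mem T).1 hT
      obtain ⟨g, hg, rfl⟩ := List.mem_iff_getElem.1 hF
      exact congrFun hy ⟨g, hg⟩
    · show _ = (0 : ℚ)
      apply Finset.sum_eq_zero
      intro i _
      rw [hsupp i T hT]; simp
  · intro h y hy i
    have h2 : y = 0 := by
      apply h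
      funext g
      have h3 := congrFun hy (x[g]).toFinset
      rw [hval] at h3
      exact h3
    rw [h2]; rfl

theorem prL_iff {T p : ℕ} (hp : p ≤ T) : prL T p = true ↔ p.Prime := by
  unfold prL
  rw [Bool.and_eq_true, decide_eq_true_eq, List.all_eq_true, Nat.prime_def_lt']
  apply and_congr_right
  intro h2
  constructor
  · intro h m hm hmp hd
    have := h m (List.mem_range.2 (by omega))
    simp only [Bool.or_eq_true, decide_eq_true_eq, Bool.not_eq_true',
      decide_eq_false_iff_not] at this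
    rcases this with h3 | h3 | h3
    · omega
    · omega
    · exact h3 (Nat.mod_eq_zero_of_dvd hd)
  · intro h q hq
    simp only [Bool.or_eq_true, decide_eq_true_eq, Bool.not_eq_true',
      decide_eq_false_iff_not]
    by_cases h3 : q < 2
    · exact Or.inl h3
    · right
      by_cases h4 : p ≤ q
      · exact Or.inl h4
      · right
        intro h5
        exact h q (by omega) (by omega) (Nat.dvd_of_mod_eq_zero h5)

theorem indL_iff (hL : Lists x Δ) (hΔ : IsComplex Δ)
    (htop : ∀ F ∈ topF x, 2 ≤ F.length) (Z : Finset (Fin (nT x))) :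
    indL x (li Z) = true ↔ LinearIndepOn ℚ (col x) (Z : Set (Fin (nT x))) := by
  rw [linIndep_iff_TK (d := 0) hL hΔ htop Z]
  unfold indL
  rw [List.any_eq_true]
  constructor
  · rintro ⟨q, hq, h⟩
    rw [Bool.and_eq_true] at h
    have hp : (q + 1).Prime := (prL_iff (by have := List.mem_range.1 hq; omega)).1 h.1
    have : Fact (q + 1).Prime := ⟨hp⟩
    exact TK_of_mod _ (q + 1) ((isEmpty_kerL hL (li Z) q).1 h.2)
  · intro h
    have hlen : (li Z).length ≤ x.length := by
      rw [length_li]
      have h1 := card_le_univ Z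
      rw [Fintype.card_fin] at h1
      refine h1.trans ?_
      unfold nT topF
      exact List.length_filter_le _ _
    obtain ⟨p, hp, hple, hTK⟩ := exists_prime_TK (mat x (li Z)) (fun i j => by
        show |cZ (tf x (li Z)[j]) (x[i]).toFinset| ≤ 1
        exact cZ_abs _ _) h x.length le_rfl hlen
    obtain ⟨q, rfl⟩ : ∃ q, p = q + 1 := ⟨p - 1, by have := hp.pos; omega⟩
    have hTT : q + 1 < TT x := by
      unfold TT tb
      omega
    have : Fact (q + 1).Prime := ⟨hp⟩
    refine ⟨q, List.mem_range.2 (by omega), ?_⟩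
    rw [Bool.and_eq_true]
    exact ⟨(prL_iff hTT.le).2 hp, (isEmpty_kerL hL (li Z) q).2 hTK⟩

end Pool.Agent.R561
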