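import Pool.Agent.R561.Bases

/-!
# The quadratic form of the pair counts of the bases of a matroid has one positive eigenvalue
-/

set_option autoImplicit false
set_option linter.unusedSectionVars false
set_option linter.unusedVariables false

namespace Pool.Agent.R561

open Finset Matrix

variable {α : Type*} [DecidableEq α] [Fintype α]

theorem nn_eq_zero_of {F : Finset (Finset α)} {i : α} (h : ¬ 0 < nn F i) {B : Finset α}
    (hB : B ∈ F) : i ∉ B := fun hi => h (nn_pos hB hi)

theorem qq_eq_zero_of {F : Finset (Finset α)} {i j : α} (h : ¬ 0 < nn F i) : qq F i j = 0 := by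
  unfold qq
  split_ifs
  · rfl
  · rw [Nat.cast_eq_zero, card_eq_zero, filter_eq_empty_iff]
    intro B hB hc
    exact nn_eq_zero_of h hB hc.1

theorem KI_zero {F : Finset (Finset α)} (h : IsBF 1 F) : KI 1 F := by
  intro φ
  have h1 : ∑ B ∈ F, (s1 φ B ^ 2 - s2 φ B) = 0 := by
    apply Finset.sum_eq_zero
    intro B hB
    obtain ⟨a, rfl⟩ := card_eq_one.1 (h.card B hB)
    simp [s1, s2]
  rw [h1]; simp

/-- An equivalence relation gives a nonnegative form. -/
theorem equiv_form_nonneg (V : Finset α) (R : α → α → Prop) [∀ i j, Decidable (R i j)]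
    (hrefl : ∀ i ∈ V, R i i) (hsymm : ∀ i ∈ V, ∀ j ∈ V, R i j → R j i)
    (htrans : ∀ i ∈ V, ∀ j ∈ V, ∀ k ∈ V, R i j → R j k → R i k) (η : α → ℝ) :
    0 ≤ ∑ i ∈ V, ∑ j ∈ V, (if R i j then (1 : ℝ) else 0) * (η i * η j) := by
  classical
  let nk : α → ℝ := fun k => ((V.filter (fun i => R k i)).card : ℝ)
  have hpos : ∀ k ∈ V, 0 < nk k := by
    intro k hk
    have : 0 < (V.filter (fun i => R k i)).card := card_pos.2 ⟨k, mem_filter.2 ⟨hk, hrefl k hk⟩⟩
    show (0 : ℝ) < ((V.filter (fun i => R k i)).card : ℝ)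
    exact_mod_cast this
  have hcls : ∀ i ∈ V, ∀ k ∈ V, R i k → nk i = nk k := by
    intro i hi k hk hik
    show ((V.filter (fun j => R i j)).card : ℝ) = ((V.filter (fun j => R k j)).card : ℝ)
    congr 2
    apply Finset.filter_congr
    intro j hj
    exact ⟨fun h => htrans k hk i hi j hj (hsymm i hi k hk hik) h,
      fun h => htrans i hi k hk j hj hik h⟩
  have key : ∀ i ∈ V, ∀ j ∈ V, (if R i j then (1 : ℝ) else 0) =
      ∑ k ∈ V, (if R i k then (1 : ℝ) else 0) * (if R j k then (1 : ℝ) else 0) * (1 / nk k) := by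
    intro i hi j hj
    by_cases hij : R i j
    · rw [if_pos hij]
      have h1 : ∀ k ∈ V, (if R i k then (1 : ℝ) else 0) * (if R j k then (1 : ℝ) else 0) * (1 / nk k)
          = if R i k then 1 / nk i else 0 := by
        intro k hk
        by_cases hik : R i k
        · have : R j k := htrans j hj i hi k hk (hsymm i hi j hj hij) hik
          rw [if_pos hik, if_pos this, if_pos hik, hcls i hi k hk hik]; ring
        · rw [if_neg hik, if_neg hik]; ring
      rw [Finset.sum_congr rfl h1, ← Finset.sum_filter, Finset.sum_const, nsmul_eq_mul]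
      show (1 : ℝ) = nk i * (1 / nk i)
      have := hpos i hi
      field_simp
    · rw [if_neg hij]
      symm
      apply Finset.sum_eq_zero
      intro k hk
      by_cases hik : R i k
      · have : ¬ R j k := fun h => hij (htrans i hi k hk j hj hik (hsymm j hj k hk h))
        rw [if_neg this]; ring
      · rw [if_neg hik]; ring
  have e : ∑ i ∈ V, ∑ j ∈ V, (if R i j then (1 : ℝ) else 0) * (η i * η j) =
      ∑ k ∈ V, (1 / nk k) * (∑ i ∈ V, (if R i k then (1 : ℝ) else 0) * η i) ^ 2 := by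
    have h1 : ∑ i ∈ V, ∑ j ∈ V, (if R i j then (1 : ℝ) else 0) * (η i * η j) =
        ∑ i ∈ V, ∑ j ∈ V, ∑ k ∈ V, (1 / nk k) * (((if R i k then (1 : ℝ) else 0) * η i) *
          ((if R j k then (1 : ℝ) else 0) * η j)) := by
      apply Finset.sum_congr rfl; intro i hi
      apply Finset.sum_congr rfl; intro j hj
      rw [key i hi j hj, Finset.sum_mul]
      exact Finset.sum_congr rfl fun k _ => by ring
    rw [h1]
    have h2 : ∀ i ∈ V, ∑ j ∈ V, ∑ k ∈ V, (1 / nk k) * (((if R i k then (1 : ℝ) else 0) * η i) *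
          ((if R j k then (1 : ℝ) else 0) * η j)) = ∑ k ∈ V, ∑ j ∈ V, (1 / nk k) *
          (((if R i k then (1 : ℝ) else 0) * η i) * ((if R j k then (1 : ℝ) else 0) * η j)) :=
      fun i _ => Finset.sum_comm
    rw [Finset.sum_congr rfl h2, Finset.sum_comm]
    apply Finset.sum_congr rfl; intro k _
    rw [sq, Finset.sum_mul, Finset.mul_sum]
    apply Finset.sum_congr rfl; intro i _
    rw [Finset.mul_sum, Finset.mul_sum]
  rw [e]
  apply Finset.sum_nonneg
  intro k hk
  have := hpos k hk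
  positivity

/-- the parallel relation in rank two is transitive -/
theorem IsBF.par_trans {F : Finset (Finset α)} (h : IsBF 2 F) {i j k : α} (hi : 0 < nn F i)
    (hj : 0 < nn F j) (hk : 0 < nn F k) (hij : qq F i j = 0) (hjk : qq F j k = 0) :
    qq F i k = 0 := by
  by_contra hne
  by_cases hik : i = k
  · apply hne; unfold qq; rw [if_pos hik]
  have hpos : 0 < qq F i k := lt_of_le_of_ne (qq_nonneg F i k) (Ne.symm hne)
  have hex : ∃ B ∈ F, i ∈ B ∧ k ∈ B := by
    unfold qq at hpos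
    rw [if_neg hik] at hpos
    have h' : 0 < (F.filter (fun B => i ∈ B ∧ k ∈ B)).card := by exact_mod_cast hpos
    obtain ⟨B, hB⟩ := Finset.card_pos.1 h'
    exact ⟨B, (mem_filter.1 hB).1, (mem_filter.1 hB).2⟩
  obtain ⟨B, hB, hiB, hkB⟩ := hex
  obtain ⟨B', hB', hjB'⟩ := nn_pos_iff.1 hj
  by_cases hji : j = i
  · rw [hji] at hjk; exact hne hjk
  by_cases hjk' : j = k
  · rw [hjk'] at hij; exact hne hij
  have hBeq : B = {i, k} := by
    symm
    apply Finset.eq_of_subset_of_card_le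
    · intro x hx
      rw [mem_insert, mem_singleton] at hx
      rcases hx with rfl | rfl <;> assumption
    · rw [h.card B hB, card_pair hik]
  have hjB : j ∉ B := by
    rw [hBeq]; simp [hji, hjk']
  obtain ⟨z, hz, hins⟩ := h.exists_exch hB hB' hjB' hjB
  have hz' : z = i ∨ z = k := by rw [hBeq] at hz; simpa using hz
  rcases hz' with rfl | rfl
  · have := qq_pos hjk' hins (mem_insert_self _ _) (by simp [hkB, Ne.symm hik])
    rw [hjk] at this; exact lt_irrefl _ this
  · have := qq_pos (Ne.symm hji) hins (by simp [hiB, hik]) (mem_insert_self _ _)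
    rw [hij] at this; exact lt_irrefl _ this

theorem qq_two {F : Finset (Finset α)} (h : IsBF 2 F) (i j : α) : qq F i j = 0 ∨ qq F i j = 1 := by
  unfold qq
  split_ifs with hij
  · exact Or.inl rfl
  · have hsub : F.filter (fun B => i ∈ B ∧ j ∈ B) ⊆ {{i, j}} := by
      intro B hB
      obtain ⟨hB, hi, hj⟩ := mem_filter.1 hB
      rw [mem_singleton]
      symm
      apply Finset.eq_of_subset_of_card_le
      · intro x hx
        rw [mem_insert, mem_singleton] at hx
        rcases hx with rfl | rfl <;> assumption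
      · rw [h.card B hB, card_pair hij]
    have hc := card_le_card hsub
    rw [card_singleton] at hc
    interval_cases hcc : (F.filter (fun B => i ∈ B ∧ j ∈ B)).card
    · left; simp
    · right; simp

/-- the bilinear form -/
def qf (F : Finset (Finset α)) (φ ψ : α → ℝ) : ℝ := ∑ i, φ i * ∑ j, qq F i j * ψ j

theorem qf_symm (F : Finset (Finset α)) (φ ψ : α → ℝ) : qf F φ ψ = qf F ψ φ := by
  unfold qf
  simp_rw [Finset.mul_sum]
  rw [Finset.sum_comm]
  apply Finset.sum_congr rfl; intro i _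
  apply Finset.sum_congr rfl; intro j _
  rw [qq_symm F j i]; ring

theorem qf_self (F : Finset (Finset α)) (φ : α → ℝ) :
    qf F φ φ = ∑ B ∈ F, (s1 φ B ^ 2 - s2 φ B) := form_eq F φ

theorem qf_one {r : ℕ} {F : Finset (Finset α)} (h : IsBF (r + 1) F) (φ : α → ℝ) :
    qf F φ (fun _ => 1) = r * ∑ B ∈ F, s1 φ B := by
  unfold qf
  simp only [mul_one]
  rw [← sum_nn_mul, Finset.mul_sum]
  apply Finset.sum_congr rfl; intro i _
  rw [sum_qq h]; ring

theorem sum_s1_one {r : ℕ} {F : Finset (Finset α)} (h : IsBF r F) :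
    ∑ B ∈ F, s1 (fun _ => (1 : ℝ)) B = r * F.card := by
  have : ∀ B ∈ F, s1 (fun _ => (1 : ℝ)) B = r := by
    intro B hB
    unfold s1; rw [Finset.sum_const, nsmul_eq_mul, mul_one, h.card B hB]
  rw [Finset.sum_congr rfl this, Finset.sum_const, nsmul_eq_mul, mul_comm]

theorem KI_one {F : Finset (Finset α)} (h : IsBF 2 F) : KI 2 F := by
  intro φ
  classical
  set V : Finset α := univ.filter (fun i => 0 < nn F i) with hV
  rcases F.eq_empty_or_nonempty with rfl | hne
  · simp
  have hVne : V.Nonempty := by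
    obtain ⟨B, hB⟩ := hne
    have : B.Nonempty := by rw [← card_pos, h.card B hB]; norm_num
    obtain ⟨i, hi⟩ := this
    exact ⟨i, by rw [hV, mem_filter]; exact ⟨mem_univ _, nn_pos hB hi⟩⟩
  have hVc : (0 : ℝ) < V.card := by exact_mod_cast card_pos.2 hVne
  -- form on the nonloops
  have hform : ∀ η : α → ℝ, qf F η η = (∑ i ∈ V, η i) ^ 2 -
      ∑ i ∈ V, ∑ j ∈ V, (if qq F i j = 0 then (1 : ℝ) else 0) * (η i * η j) := by
    intro η
    have h1 : qf F η η = ∑ i ∈ V, ∑ j ∈ V, qq F i j * (η i * η j) := by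
      unfold qf
      rw [hV, Finset.sum_filter]
      apply Finset.sum_congr rfl; intro i _
      split_ifs with hi
      · rw [Finset.mul_sum, Finset.sum_filter]
        apply Finset.sum_congr rfl; intro j _
        split_ifs with hj
        · ring
        · rw [qq_symm, qq_eq_zero_of hj]; ring
      · rw [Finset.sum_eq_zero, mul_zero]
        intro j _
        rw [qq_eq_zero_of hi, zero_mul]
    rw [h1, sq, Finset.sum_mul, ← Finset.sum_sub_distrib]
    apply Finset.sum_congr rfl; intro i _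
    rw [Finset.mul_sum, ← Finset.sum_sub_distrib]
    apply Finset.sum_congr rfl; intro j _
    rcases qq_two h i j with h2 | h2
    · rw [h2, if_pos rfl]; ring
    · rw [h2, if_neg one_ne_zero]; ring
  set t : ℝ := (∑ i ∈ V, φ i) / V.card with ht
  set η : α → ℝ := fun i => φ i - t with hη
  have hη0 : ∑ i ∈ V, η i = 0 := by
    rw [hη, Finset.sum_sub_distrib, Finset.sum_const, nsmul_eq_mul, ht]
    field_simp; ring
  have hle : qf F η η ≤ 0 := by
    rw [hform η, hη0]
    have := equiv_form_nonneg V (fun i j => qq F i j = 0) (fun i _ => by unfold qq; simp)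
      (fun i _ j _ h => by rw [qq_symm]; exact h)
      (fun i hi j hj k hk h1 h2 => h.par_trans (mem_filter.1 hi).2 (mem_filter.1 hj).2
        (mem_filter.1 hk).2 h1 h2) η
    linarith
  -- expand
  have hexp : qf F η η = qf F φ φ - 2 * t * qf F φ (fun _ => 1) +
      t ^ 2 * qf F (fun _ => 1) (fun _ => 1) := by
    have h3 := qf_symm F φ (fun _ => 1)
    have h2 : qf F η η = qf F φ φ - t * qf F φ (fun _ => 1) - t * qf F (fun _ => 1) φ +
      t ^ 2 * qf F (fun _ => 1) (fun _ => 1) := by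
      unfold qf
      simp_rw [hη, Finset.mul_sum]
      rw [← Finset.sum_sub_distrib, ← Finset.sum_sub_distrib, ← Finset.sum_add_distrib]
      apply Finset.sum_congr rfl; intro i _
      rw [← Finset.sum_sub_distrib, ← Finset.sum_sub_distrib, ← Finset.sum_add_distrib]
      apply Finset.sum_congr rfl; intro j _
      ring
    rw [h2, ← h3]; ring
  rw [hexp, qf_one (r := 1) h, qf_one (r := 1) h, sum_s1_one h, qf_self] at hle
  push_cast at hle ⊢
  set S := ∑ B ∈ F, s1 φ B
  set c : ℝ := (F.card : ℝ)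
  have hc : 0 ≤ c := Nat.cast_nonneg _
  nlinarith [mul_le_mul_of_nonneg_left hle hc, sq_nonneg (S - 2 * t * c)]

/-- summing the forms of the links -/
theorem sum_links {r : ℕ} {F : Finset (Finset α)} (h : IsBF (r + 2) F) (φ : α → ℝ) :
    ∑ i, ∑ C ∈ lnk F i, (s1 φ C ^ 2 - s2 φ C) = r * ∑ B ∈ F, (s1 φ B ^ 2 - s2 φ B) := by
  have h1 : ∀ i : α, ∑ C ∈ lnk F i, (s1 φ C ^ 2 - s2 φ C) =
      ∑ B ∈ F.filter (fun B => i ∈ B), ((s1 φ B - φ i) ^ 2 - (s2 φ B - φ i ^ 2)) := by
    intro i
    rw [sum_lnk]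
    apply Finset.sum_congr rfl
    intro B hB
    have hi := (mem_filter.1 hB).2
    have e1 : s1 φ (B.erase i) = s1 φ B - φ i := by
      unfold s1; rw [← Finset.add_sum_erase B φ hi]; ring
    have e2 : s2 φ (B.erase i) = s2 φ B - φ i ^ 2 := by
      unfold s2; rw [← Finset.add_sum_erase B (fun i => φ i ^ 2) hi]; ring
    rw [e1, e2]
  simp_rw [h1]
  rw [sum_mem_swap F (fun i B => (s1 φ B - φ i) ^ 2 - (s2 φ B - φ i ^ 2)), Finset.mul_sum]
  apply Finset.sum_congr rfl
  intro B hB
  have e : ∀ i ∈ B, (s1 φ B - φ i) ^ 2 - (s2 φ B - φ i ^ 2) =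
      (s1 φ B ^ 2 - s2 φ B) - 2 * s1 φ B * φ i + 2 * φ i ^ 2 := fun i _ => by ring
  rw [Finset.sum_congr rfl e, Finset.sum_add_distrib, Finset.sum_sub_distrib, Finset.sum_const,
    nsmul_eq_mul, ← Finset.mul_sum, ← Finset.mul_sum, h.card B hB]
  have e1 : ∑ i ∈ B, φ i = s1 φ B := rfl
  have e2 : ∑ i ∈ B, φ i ^ 2 = s2 φ B := rfl
  rw [e1, e2]; push_cast; ring

theorem KI_step {r : ℕ} {F : Finset (Finset α)} (h : IsBF (r + 3) F)
    (ih : ∀ i, KI (r + 2) (lnk F i)) : KI (r + 3) F := by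
  intro φ
  classical
  -- the vector `g`
  let g : (α → ℝ) → α → ℝ := fun φ i => ∑ j, qq F i j * φ j
  have hgl : ∀ (φ : α → ℝ) (i : α), ∑ C ∈ lnk F i, s1 φ C = g φ i := by
    intro φ i
    show _ = ∑ j, qq F i j * φ j
    rw [sum_lnk, sum_qq_mul]
    apply Finset.sum_congr rfl
    intro B hB
    have hi := (mem_filter.1 hB).2
    unfold s1; rw [← Finset.add_sum_erase B φ hi]; ring
  have hg0 : ∀ (φ : α → ℝ) (i : α), ¬ 0 < nn F i → g φ i = 0 := by
    intro φ i hi
    show ∑ j, qq F i j * φ j = 0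
    apply Finset.sum_eq_zero
    intro j _
    rw [qq_eq_zero_of hi, zero_mul]
  have hmain : ∀ φ : α → ℝ, ((r : ℝ) + 2) * ∑ B ∈ F, (s1 φ B ^ 2 - s2 φ B) ≤
      ∑ i, (g φ i) ^ 2 / nn F i := by
    intro φ
    have h1 := sum_links (r := r + 1) h φ
    have h2 : ∀ i, ((r : ℝ) + 2) * ∑ C ∈ lnk F i, (s1 φ C ^ 2 - s2 φ C) ≤
        ((r : ℝ) + 1) * ((g φ i) ^ 2 / nn F i) := by
      intro i
      by_cases hi : 0 < nn F i
      · have h3 := ih i φ
        rw [hgl, card_lnk] at h3
        have h4 : ((F.filter (fun B => i ∈ B)).card : ℝ) = nn F i := rfl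
        rw [h4] at h3
        push_cast at h3
        rw [← mul_div_assoc, le_div_iff₀ hi]
        nlinarith [h3]
      · have h5 : lnk F i = ∅ := by
          rw [Finset.eq_empty_iff_forall_notMem]
          intro C hC
          rw [mem_lnk] at hC
          exact nn_eq_zero_of hi hC.2 (mem_insert_self _ _)
        rw [h5, hg0 φ i hi]; simp
    have h3 := Finset.sum_le_sum (fun i (_ : i ∈ univ) => h2 i)
    rw [← Finset.mul_sum, ← Finset.mul_sum, h1] at h3
    push_cast at h3
    have hr : (0 : ℝ) < r + 1 := by positivity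
    have h4 : ((r : ℝ) + 1) * (((r : ℝ) + 2) * ∑ B ∈ F, (s1 φ B ^ 2 - s2 φ B)) ≤
      ((r : ℝ) + 1) * ∑ i, (g φ i) ^ 2 / nn F i := by
      calc _ = ((r : ℝ) + 2) * (((r : ℝ) + 1) * ∑ B ∈ F, (s1 φ B ^ 2 - s2 φ B)) := by ring
        _ ≤ _ := h3
    exact le_of_mul_le_mul_left h4 hr
  -- the matrix
  set t : ℝ := (r : ℝ) + 2 with ht
  have htpos : 0 < t := by positivity
  let s : α → ℝ := fun i => Real.sqrt (nn F i)
  have hs2 : ∀ i, s i * s i = nn F i := fun i => Real.mul_self_sqrt (nn_nonneg F i)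
  have hs0 : ∀ i, ¬ 0 < nn F i → s i = 0 := by
    intro i hi
    have : nn F i = 0 := le_antisymm (not_lt.1 hi) (nn_nonneg F i)
    show Real.sqrt (nn F i) = 0
    rw [this, Real.sqrt_zero]
  have hspos : ∀ i, 0 < nn F i → 0 < s i := fun i hi => Real.sqrt_pos.2 hi
  let A : Matrix α α ℝ := Matrix.of (fun i j => qq F i j / (t * s i * s j))
  have hA : A.IsHermitian := by
    ext i j
    simp only [Matrix.conjTranspose_apply, star_trivial]
    show qq F j i / (t * s j * s i) = qq F i j / (t * s i * s j)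
    rw [qq_symm F j i]; congr 1; ring
  have hAv : ∀ (ψ : α → ℝ) (i : α), (A *ᵥ ψ) i = g (fun j => ψ j / s j) i / (t * s i) := by
    intro ψ i
    show ∑ j, qq F i j / (t * s i * s j) * ψ j = (∑ j, qq F i j * (ψ j / s j)) / (t * s i)
    rw [Finset.sum_div]
    apply Finset.sum_congr rfl; intro j _
    rw [div_mul_eq_mul_div, ← mul_div_assoc, div_div, mul_comm (s j) (t * s i)]
  have hqA : ∀ ψ : α → ℝ, ψ ⬝ᵥ (A *ᵥ ψ) = (∑ B ∈ F, (s1 (fun j => ψ j / s j) B ^ 2 -
      s2 (fun j => ψ j / s j) B)) / t := by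
    intro ψ
    rw [← qf_self]
    unfold qf
    show ∑ i, ψ i * (A *ᵥ ψ) i = _
    rw [Finset.sum_div]
    apply Finset.sum_congr rfl; intro i _
    rw [hAv]
    show ψ i * ((∑ j, qq F i j * (ψ j / s j)) / (t * s i)) =
      ψ i / s i * (∑ j, qq F i j * (ψ j / s j)) / t
    rw [div_mul_eq_mul_div, div_div, ← mul_div_assoc, mul_comm t (s i)]
  have hAA : ∀ ψ : α → ℝ, (A *ᵥ ψ) ⬝ᵥ (A *ᵥ ψ) =
      (∑ i, (g (fun j => ψ j / s j) i) ^ 2 / nn F i) / t ^ 2 := by
    intro ψ
    show ∑ i, (A *ᵥ ψ) i * (A *ᵥ ψ) i = _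
    rw [Finset.sum_div]
    apply Finset.sum_congr rfl; intro i _
    rw [hAv, div_mul_div_comm, ← sq, div_div, ← hs2 i]
    congr 1; ring
  have hdir : ∀ φ : α → ℝ, ∑ i, ∑ j, qq F i j * (φ i - φ j) ^ 2 =
      2 * (t * ∑ i, nn F i * φ i ^ 2 - ∑ B ∈ F, (s1 φ B ^ 2 - s2 φ B)) := by
    intro φ
    rw [← qf_self]
    have e1 : ∑ i, ∑ j, qq F i j * (φ i - φ j) ^ 2 =
        ∑ i, ∑ j, qq F i j * φ i ^ 2 + ∑ i, ∑ j, qq F i j * φ j ^ 2 -
          2 * ∑ i, ∑ j, φ i * (qq F i j * φ j) := by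
      rw [Finset.mul_sum, ← Finset.sum_add_distrib, ← Finset.sum_sub_distrib]
      apply Finset.sum_congr rfl; intro i _
      rw [Finset.mul_sum, ← Finset.sum_add_distrib, ← Finset.sum_sub_distrib]
      apply Finset.sum_congr rfl; intro j _
      ring
    have e2 : ∑ i, ∑ j, qq F i j * φ i ^ 2 = t * ∑ i, nn F i * φ i ^ 2 := by
      rw [Finset.mul_sum]
      apply Finset.sum_congr rfl; intro i _
      rw [← Finset.sum_mul, sum_qq (r := r + 2) h, ht]; push_cast; ring
    have e3 : ∑ i, ∑ j, qq F i j * φ j ^ 2 = ∑ i, ∑ j, qq F i j * φ i ^ 2 := by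
      rw [Finset.sum_comm]
      apply Finset.sum_congr rfl; intro i _
      apply Finset.sum_congr rfl; intro j _
      rw [qq_symm]
    have e4 : ∑ i, ∑ j, φ i * (qq F i j * φ j) = qf F φ φ := by
      unfold qf
      apply Finset.sum_congr rfl; intro i _
      rw [Finset.mul_sum]
    rw [e1, e3, e2, e4]; ring
  have hspec := spec_le A hA s
    (by
      intro ψ
      rw [hqA, hAA, div_le_div_iff₀ htpos (by positivity)]
      have := hmain (fun j => ψ j / s j)
      nlinarith [this])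
    (by
      intro ψ l hψ hl hl1
      -- norm comparison
      have h1 : l * (ψ ⬝ᵥ ψ) = (∑ B ∈ F, (s1 (fun j => ψ j / s j) B ^ 2 -
          s2 (fun j => ψ j / s j) B)) / t := by
        rw [← hqA, hl, dotProduct_smul, smul_eq_mul]
      have h2 := hdir (fun j => ψ j / s j)
      have h3 : ∑ i, nn F i * (ψ i / s i) ^ 2 ≤ ψ ⬝ᵥ ψ := by
        show _ ≤ ∑ i, ψ i * ψ i
        apply Finset.sum_le_sum
        intro i _
        by_cases hi : 0 < nn F i
        · have := hspos i hi
          rw [← hs2 i]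
          apply le_of_eq
          field_simp
        · rw [hs0 i hi]; simp only [div_zero]
          nlinarith [mul_self_nonneg (ψ i)]
      have h4 : 0 ≤ ∑ i, ∑ j, qq F i j * ((ψ i / s i) - (ψ j / s j)) ^ 2 :=
        Finset.sum_nonneg fun i _ => Finset.sum_nonneg fun j _ =>
          mul_nonneg (qq_nonneg F i j) (sq_nonneg _)
      have hψpos : 0 < ψ ⬝ᵥ ψ := by
        rcases lt_or_eq_of_le (show 0 ≤ ψ ⬝ᵥ ψ from Finset.sum_nonneg fun i _ => mul_self_nonneg _)
          with h | h
        · exact h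
        · exfalso; exact hψ (dotProduct_self_eq_zero.1 h.symm)
      have h5 : (∑ B ∈ F, (s1 (fun j => ψ j / s j) B ^ 2 -
          s2 (fun j => ψ j / s j) B)) = t * (l * (ψ ⬝ᵥ ψ)) := by
        rw [h1]; field_simp
      rw [h5] at h2
      have h6 : t * ∑ i, nn F i * (ψ i / s i) ^ 2 ≤ t * (ψ ⬝ᵥ ψ) :=
        mul_le_mul_of_nonneg_left h3 htpos.le
      have h7 : t * ((l - 1) * (ψ ⬝ᵥ ψ)) ≤ 0 := by
        have : 0 ≤ 2 * (t * ∑ i, nn F i * (ψ i / s i) ^ 2 - t * (l * (ψ ⬝ᵥ ψ))) := by
          rw [← h2]; exact h4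
        nlinarith [this, h6]
      have h8 : (l - 1) * (ψ ⬝ᵥ ψ) ≤ 0 := by
        by_contra hcon
        push Not at hcon
        have := mul_pos htpos hcon
        linarith
      have hl' : l = 1 := by
        by_contra hne
        have : 0 < l - 1 := by
          rcases lt_or_eq_of_le hl1 with h | h
          · linarith
          · exact absurd h.symm hne
        have := mul_pos this hψpos
        linarith
      refine ⟨hl', ?_⟩
      have h9 : ∑ i, ∑ j, qq F i j * ((ψ i / s i) - (ψ j / s j)) ^ 2 = 0 := by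
        apply le_antisymm _ h4
        rw [h2, hl']; nlinarith [h6]
      have h10 : ∀ i j, 0 < qq F i j → ψ i / s i = ψ j / s j := by
        intro i j hij
        have e1 := (Finset.sum_eq_zero_iff_of_nonneg (fun i _ => Finset.sum_nonneg fun j _ =>
          mul_nonneg (qq_nonneg F i j) (sq_nonneg _))).1 h9 i (mem_univ i)
        have e2 := (Finset.sum_eq_zero_iff_of_nonneg (fun j _ =>
          mul_nonneg (qq_nonneg F i j) (sq_nonneg _))).1 e1 j (mem_univ j)
        rcases mul_eq_zero.1 e2 with e | e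
        · rw [e] at hij; exact absurd hij (lt_irrefl _)
        · have := pow_eq_zero_iff (n := 2) (by norm_num) |>.1 e
          linarith
      have hloop : ∀ i, ¬ 0 < nn F i → ψ i = 0 := by
        intro i hi
        have e1 : (A *ᵥ ψ) i = ψ i := by rw [hl, hl', one_smul]
        rw [hAv, hs0 i hi, mul_zero, div_zero] at e1
        exact e1.symm
      obtain ⟨i0, hi0⟩ : ∃ i, 0 < nn F i := by
        by_contra hcon
        push Not at hcon
        apply hψ
        ext i
        exact hloop i (not_lt.2 (hcon i))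
      refine ⟨ψ i0 / s i0, ?_⟩
      ext i
      simp only [Pi.smul_apply, smul_eq_mul]
      by_cases hi : 0 < nn F i
      · have hc := IsBF.conn (r := r + 1) h (fun i => ψ i / s i) h10 hi hi0
        have hsi := hspos i hi
        rw [← hc]; field_simp
      · rw [hloop i hi, hs0 i hi, mul_zero])
  -- apply to `ψ = s φ`
  have hfin := hspec (fun i => s i * φ i)
  rw [hqA] at hfin
  have e1 : ∀ B ∈ F, ∀ i ∈ B, s i * φ i / s i = φ i := by
    intro B hB i hi
    have := hspos i (nn_pos hB hi)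
    field_simp
  have e2 : ∑ B ∈ F, (s1 (fun j => s j * φ j / s j) B ^ 2 - s2 (fun j => s j * φ j / s j) B) =
      ∑ B ∈ F, (s1 φ B ^ 2 - s2 φ B) := by
    apply Finset.sum_congr rfl
    intro B hB
    have e3 : s1 (fun j => s j * φ j / s j) B = s1 φ B := Finset.sum_congr rfl (e1 B hB)
    have e4 : s2 (fun j => s j * φ j / s j) B = s2 φ B :=
      Finset.sum_congr rfl fun i hi => by simp only; rw [e1 B hB i hi]
    rw [e3, e4]
  have e5 : s ⬝ᵥ s = ((r : ℝ) + 3) * F.card := by
    show ∑ i, s i * s i = _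
    have := sum_nn_mul F (fun _ => (1 : ℝ))
    rw [sum_s1_one h] at this
    simp only [mul_one] at this
    rw [Finset.sum_congr rfl fun i _ => hs2 i, this]; push_cast; ring
  have e6 : s ⬝ᵥ (fun i => s i * φ i) = ∑ B ∈ F, s1 φ B := by
    show ∑ i, s i * (s i * φ i) = _
    rw [← sum_nn_mul]
    apply Finset.sum_congr rfl; intro i _
    rw [← hs2 i]; ring
  rw [e2, e5, e6, div_mul_eq_mul_div, div_le_iff₀ htpos] at hfin
  push_cast
  calc ((r : ℝ) + 3) * F.card * ∑ B ∈ F, (s1 φ B ^ 2 - s2 φ B)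
      = (∑ B ∈ F, (s1 φ B ^ 2 - s2 φ B)) * (((r : ℝ) + 3) * F.card) := by ring
    _ ≤ (∑ B ∈ F, s1 φ B) ^ 2 * t := hfin
    _ = ((r : ℝ) + 3 - 1) * (∑ B ∈ F, s1 φ B) ^ 2 := by rw [ht]; ring

theorem KI_all (r : ℕ) : ∀ F : Finset (Finset α), IsBF (r + 1) F → KI (r + 1) F := by
  induction r with
  | zero => intro F h; exact KI_zero h
  | succ r ih =>
    intro F h
    rcases r with _ | r
    · exact KI_one h
    · exact KI_step h fun i => ih _ (h.lnk i)

end Pool.Agent.R561
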