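import Pool.Agent.NPC.Num
import Pool.Agent.H671R2.PolyAuto

/-!
# Computability within a given time bound
-/

set_option autoImplicit false

namespace Pool.Agent.R561

open Pool.Agent.NPC
open Function

/-- computability by a program within time `T` -/
def PCt {α β : Type} (ea : α → List Bool) (eb : β → List Bool) (f : α → β) (T : α → ℕ) : Prop :=
  ∃ c : Cmd ℕ, ∀ a, Runs c (inp (ea a)) (inp (eb (f a))) (T a)

variable {α β γ σ : Type} {ea : α → List Bool} {eb : β → List Bool} {ec : γ → List Bool}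

theorem PCt.mono {f : α → β} {T T' : α → ℕ} (h : PCt ea eb f T) (hT : ∀ a, T a ≤ T' a) :
    PCt ea eb f T' := by
  obtain ⟨c, h⟩ := h
  exact ⟨c, fun a => (h a).mono (hT a)⟩

theorem toPCt {f : α → β} (h : PC ea eb f) :
    ∃ p : Polynomial ℕ, PCt ea eb f (fun a => p.eval (ea a).length) := by
  obtain ⟨c, p, h⟩ := h
  exact ⟨p, c, h⟩

theorem PCt.comp {g : β → γ} {f : α → β} {Tg : β → ℕ} {Tf : α → ℕ} (hg : PCt eb ec g Tg)
    (hf : PCt ea eb f Tf) : PCt ea ec (fun a => g (f a)) (fun a => Tf a + Tg (f a)) := by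
  obtain ⟨c, hf⟩ := hf
  obtain ⟨d, hg⟩ := hg
  exact ⟨Cmd.seq c d, fun a => (hf a).seq (hg (f a))⟩

theorem PCt.ite {f : α → T} {g h : α → β} {Tg Th : α → ℕ} (hf : PC ea T.enc f)
    (hg : PCt ea eb g Tg) (hh : PCt ea eb h Th) :
    ∃ p : Polynomial ℕ, PCt ea eb (fun a => if f a = T.nil then g a else h a)
      (fun a => p.eval (ea a).length + if f a = T.nil then Tg a else Th a) := by
  obtain ⟨q, hq⟩ := hf.length_le
  obtain ⟨c, p, hf⟩ := hf
  obtain ⟨d, hg⟩ := hg
  obtain ⟨e, hh⟩ := hh
  refine ⟨Polynomial.C 9 * Polynomial.X + p + Polynomial.C 2 * q + Polynomial.C 10,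
    Cmd.seq (Cmd.seq (mv 0 2) (cp 2 0 1)) (Cmd.seq (od c)
    (Cmd.cases 1 Cmd.skip (Cmd.seq (clr 1) (ev d)) (Cmd.seq (clr 1) (ev e)))), fun a => ?_⟩
  rw [inp_eq_st, inp_eq_st]
  have h1 := dup_runs (ea a)
  have h2 := od_runs (hf a) (ea a)
  have h3 := clr_runs (i := 1) (f a).enc (st (ea a) (f a).enc []) (st (ea a) [] []) (by simp)
    (by simp)
  have := hq a
  by_cases hn : f a = T.nil
  · have h4 := ev_runs (hg a) []
    have h5 := Runs.casesFalse (k := 1) (l := []) (c₀ := Cmd.skip)
      (ct := Cmd.seq (clr 1) (ev e)) (by simp [hn, T.enc]) (h3.seq h4)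
    refine (h1.seq (h2.seq h5)).conv rfl (by simp [hn]) ?_
    simp only [Polynomial.eval_add, Polynomial.eval_mul, Polynomial.eval_C, Polynomial.eval_X,
      if_pos hn]
    omega
  · have h4 := ev_runs (hh a) []
    obtain ⟨x, y, hxy⟩ : ∃ x y, f a = T.node x y := by
      cases hfa : f a with
      | nil => exact absurd hfa hn
      | node x y => exact ⟨x, y, rfl⟩
    have h5 := Runs.casesTrue (k := 1) (l := x.enc ++ y.enc) (c₀ := Cmd.skip)
      (cf := Cmd.seq (clr 1) (ev d)) (by simp [hxy, T.enc]) (h3.seq h4)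
    refine (h1.seq (h2.seq h5)).conv rfl (by simp [hn]) ?_
    simp only [Polynomial.eval_add, Polynomial.eval_mul, Polynomial.eval_C, Polynomial.eval_X,
      if_neg hn]
    omega

theorem PCt.iterate {tb : β → T} {n : α → T} {x : α → β} {f : β → β}
    (hn : PC ea T.enc n) (hx : PC ea (fun b => (tb b).enc) x)
    (hf : PC (fun b => (tb b).enc) (fun b => (tb b).enc) f) :
    ∃ p q : Polynomial ℕ, ∀ B : α → ℕ,
      (∀ a, ∀ k ≤ (n a).size, (tb (f^[k] (x a))).size ≤ B a) →
      PCt ea (fun b => (tb b).enc) (fun a => f^[(n a).size] (x a))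
        (fun a => p.eval (ea a).length + (q.eval (B a)) * p.eval (ea a).length) := by
  have hx' : PC ea T.enc (fun a => tb (x a)) := hx
  obtain ⟨u', hu'⟩ := hn.length_le
  obtain ⟨d, r, hd⟩ := hn.node hx'
  obtain ⟨c, p, hf⟩ := hf
  refine ⟨r + (Polynomial.C 5 * u' + Polynomial.C 3) + u' + 1, p + Polynomial.C 2,
    fun B hB => ⟨Cmd.seq d (Cmd.seq split (Cmd.loop 1 (Cmd.seq (Cmd.pop 1) (ev c)))),
    fun a => ?_⟩⟩
  have h1 := hd a
  rw [inp_eq_st, inp_eq_st] at h1
  rw [inp_eq_st, inp_eq_st]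
  have h2 := split_runs (n a) (tb (x a))
  have h3 := loop_runs hf (B a) (n a).enc.reverse (x a) (by
    intro k hk
    exact hB a k (by simpa [T.size] using hk))
  refine (h1.seq (h2.seq h3)).conv rfl ?_ ?_
  · simp [T.size]
  · have e1 := hu' a
    simp only [List.length_reverse, Polynomial.eval_add, Polynomial.eval_mul, Polynomial.eval_C,
      Polynomial.eval_one]
    have e2 : (n a).size = (n a).enc.length := rfl
    rw [e2]
    have e3 : (Polynomial.eval (B a) p + 2) * (n a).enc.length ≤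
      (Polynomial.eval (B a) p + 2) *
        (Polynomial.eval (ea a).length r + (5 * Polynomial.eval (ea a).length u' + 3) +
          Polynomial.eval (ea a).length u' + 1) := Nat.mul_le_mul_left _ (by omega)
    omega

/-- Folding with intermediate results of bounded size; the input is kept. -/
theorem PCt.foldl {α β σ : Type} [TEnc α] [TEnc β] [TEnc σ] {l : α → List β} {s : α → σ}
    {F : α → σ → β → σ} (hl : Poly l) (hs : Poly s)
    (hF : Poly (fun p : α × σ × β => F p.1 p.2.1 p.2.2)) :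
    ∃ p q : Polynomial ℕ, ∀ B : α → ℕ,
      (∀ a, ∀ k ≤ (l a).length, sz (((l a).take k).foldl (F a) (s a)) ≤ B a) →
      PCt (bits : α → List Bool) (bits : α × List β × σ → List Bool)
        (fun a => (a, ([] : List β), (l a).foldl (F a) (s a)))
        (fun a => p.eval (sz a) + q.eval (p.eval (sz a) + B a) * p.eval (sz a)) := by
  have hstep : Poly (Poly.foldStep F) := by
    have h1 : Poly (fun p : (α × List β × σ) × β × List β =>
        ((p.1.1, p.2.2, F p.1.1 p.1.2.2 p.2.1) : α × List β × σ)) := by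
      refine Poly.pair (Poly.fst (Poly.fst Poly.id)) (Poly.pair (Poly.snd (Poly.snd Poly.id)) ?_)
      exact hF.comp (Poly.pair (Poly.fst (Poly.fst Poly.id))
        (Poly.pair (Poly.snd (Poly.snd (Poly.fst Poly.id))) (Poly.fst (Poly.snd Poly.id))))
    refine (Poly.listCases (l := fun x : α × List β × σ => x.2.1)
      (g := fun x => x) (h := fun x b t => (x.1, t, F x.1 x.2.2 b))
      (Poly.fst (Poly.snd Poly.id)) Poly.id h1).congr ?_
    rintro ⟨a, l, s⟩
    cases l <;> rfl
  obtain ⟨r, hr⟩ := hl.sz_le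
  obtain ⟨p, q, h2⟩ := PCt.iterate (α := α) (ea := bits) (β := α × List β × σ) (tb := toT)
    (n := fun a => toT (l a)) (x := fun a => (a, l a, s a)) (f := Poly.foldStep F)
    hl (Poly.pair Poly.id (Poly.pair hl hs)) hstep
  refine ⟨p + Polynomial.X + r + 2, q, fun B hB => ?_⟩
  have h3 := h2 (fun a => sz a + r.eval (sz a) + B a + 2) (by
    intro a k _
    rw [Poly.foldStep_iterate]
    change sz (a, (l a).drop k, ((l a).take k).foldl (F a) (s a)) ≤ _
    have e1 := Poly.sz_drop_le (l a) k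
    have e2 := hr a
    have e3 : sz (((l a).take k).foldl (F a) (s a)) ≤ B a := by
      by_cases hk : k ≤ (l a).length
      · exact hB a k hk
      · have := hB a _ le_rfl
        rw [List.take_of_length_le (by omega)]
        rwa [List.take_length] at this
    simp only [sz_pair]
    omega)
  obtain ⟨c, hc⟩ := h3
  refine ⟨c, fun a => ?_⟩
  have h4 := hc a
  have h5 : (Poly.foldStep F)^[(toT (l a)).size] (a, l a, s a) =
      (a, ([] : List β), (l a).foldl (F a) (s a)) := by
    rw [Poly.foldStep_iterate]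
    have : (l a).length < (toT (l a)).size := length_lt_sz (l a)
    rw [List.take_of_length_le (by omega), List.drop_of_length_le (by omega)]
  beta_reduce at h4
  rw [h5] at h4
  refine h4.mono ?_
  change p.eval (sz a) + q.eval (sz a + r.eval (sz a) + B a + 2) * p.eval (sz a) ≤ _
  simp only [Polynomial.eval_add, Polynomial.eval_X, Polynomial.eval_ofNat]
  have e4 : q.eval (sz a + r.eval (sz a) + B a + 2) ≤
      q.eval (p.eval (sz a) + sz a + r.eval (sz a) + 2 + B a) := eval_mono q (by omega)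
  have e5 := Nat.mul_le_mul e4 (show p.eval (sz a) ≤ p.eval (sz a) + sz a + r.eval (sz a) + 2 by
    omega)
  omega

/-- a polynomial at a product -/
theorem eval_mul_le (p : Polynomial ℕ) (a : ℕ) {b : ℕ} (hb : 1 ≤ b) :
    p.eval (a * b) ≤ p.eval a * b ^ p.natDegree := by
  rw [Polynomial.eval_eq_sum_range, Polynomial.eval_eq_sum_range, Finset.sum_mul]
  apply Finset.sum_le_sum
  intro i hi
  rw [Finset.mem_range] at hi
  rw [mul_pow, ← mul_assoc]
  exact Nat.mul_le_mul_left _ (Nat.pow_le_pow_right hb (by omega))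

end Pool.Agent.R561
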