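import Pool.Agent.R561.Sampler
import Pool.Agent.R561.PCt

/-!
# The machine of a rejection sampler
-/

set_option autoImplicit false

namespace Pool.Agent.R561

open Turing MeasureTheory Function
open Pool.Agent.NPC
open scoped ENNReal

theorem bits_inl {X Y : Type} [TEnc X] [TEnc Y] (x : X) :
    bits (Sum.inl x : X ⊕ Y) = true :: false :: bits x := by
  simp [bits, T.enc]

theorem bits_inr {X Y : Type} [TEnc X] [TEnc Y] (y : Y) :
    bits (Sum.inr y : X ⊕ Y) = true :: true :: false :: false :: bits y := by
  simp [bits, T.enc]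

theorem bits_pair {X Y : Type} [TEnc X] [TEnc Y] (x : X) (y : Y) :
    bits (x, y) = true :: (bits x ++ bits y) := by
  simp [bits, T.enc]

/-- the second program -/
def asm (c : Cmd ℕ) : Cmd ℕ :=
  Cmd.seq (Cmd.pop 1) (Cmd.seq (mv 0 1) (Cmd.seq (mv 1 2) (Cmd.seq (Cmd.push 2 true)
    (Cmd.seq (mv 2 1) (Cmd.seq (mv 1 0) c)))))

theorem asm_runs {X : Type} [TEnc X] {c : Cmd ℕ} {x : X} {w : List Bool} {z : List Bool} {T : ℕ}
    (h : Runs c (inp (bits (x, w))) (inp z) T) :
    Runs (asm c) (st (bits x) [false] (bits w)) (st z [] [])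
      (16 * sz x + 8 * sz w + 14 + T) := by
  rw [inp_eq_st, inp_eq_st] at h
  have h1 : Runs (Cmd.pop 1) (st (bits x) [false] (bits w)) (st (bits x) [] (bits w)) 1 :=
    (Runs.pop _ 1).conv rfl (by simp) le_rfl
  have h2 : Runs (mv 0 1) (st (bits x) [] (bits w)) (st [] (bits x).reverse (bits w))
      (4 * (bits x).length + 1) := mv_runs (by decide) (bits x) _ _ rfl (by simp)
  have h3 : Runs (mv 1 2) (st [] (bits x).reverse (bits w)) (st [] [] (bits x ++ bits w))
      (4 * (bits x).reverse.length + 1) := mv_runs (by decide) _ _ _ rfl (by simp)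
  have h4 : Runs (Cmd.push 2 true) (st [] [] (bits x ++ bits w)) (st [] [] (bits (x, w))) 1 :=
    (Runs.push _ 2 true).conv rfl (by rw [bits_pair]; simp) le_rfl
  have h5 : Runs (mv 2 1) (st [] [] (bits (x, w))) (st [] (bits (x, w)).reverse [])
      (4 * (bits (x, w)).length + 1) := mv_runs (by decide) _ _ _ rfl (by simp)
  have h6 : Runs (mv 1 0) (st [] (bits (x, w)).reverse []) (st (bits (x, w)) [] [])
      (4 * (bits (x, w)).reverse.length + 1) := mv_runs (by decide) _ _ _ rfl (by simp)
  refine (h1.seq (h2.seq (h3.seq (h4.seq (h5.seq (h6.seq h)))))).mono ?_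
  simp only [List.length_reverse, bits_length, sz_pair]
  omega

/-- the first program -/
def prep (c : Cmd ℕ) : Cmd ℕ :=
  Cmd.seq (Cmd.seq (mv 0 2) (cp 2 0 1)) (Cmd.seq (od c) (Cmd.push 2 false))

theorem prep_runs {X : Type} [TEnc X] {c : Cmd ℕ} {x : X} {z : List Bool} {T : ℕ}
    (h : Runs c (inp (bits x)) (inp z) T) :
    Runs (prep c) (st (bits x) [] []) (st (bits x) z [false]) (9 * sz x + 3 + T) := by
  have h1 := dup_runs (bits x)
  have h2 := od_runs h (bits x)
  have h3 : Runs (Cmd.push 2 false) (st (bits x) z []) (st (bits x) z [false]) 1 :=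
    (Runs.push _ 2 false).conv rfl (by simp) le_rfl
  refine (h1.seq (h2.seq h3)).mono ?_
  rw [bits_length]
  omega

open Classical in
theorem exists_machine {X Y : Type} [TEnc X] [TEnc Y] (F : X × List Bool → X ⊕ Y) (L : X → ℕ)
    (hL : UPoly L) (T : X × List Bool → ℕ) (hF : PCt bits bits F T) :
    ∃ (M : PTM) (p : Polynomial ℕ), ∀ x : X,
      (∀ w, w.length = L x → F (x, w) = Sum.inl x ∨ ∃ y, F (x, w) = Sum.inr y) →
      (∀ y : Y, M.pOut (M.start (bits x)) (bits y) =
        avgW (L x) (fun w => if F (x, w) = Sum.inl x then M.pOut (M.start (bits x)) (bits y) else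
          if F (x, w) = Sum.inr y then 1 else 0)) ∧
      ∀ m, M.eT m (M.start (bits x)) ≤ ((p.eval (sz x) : ℕ) : ℝ≥0∞) +
        avgW (L x) (fun w => (T (x, w) : ℝ≥0∞) +
          if F (x, w) = Sum.inl x then M.eT m (M.start (bits x)) else 0) := by
  obtain ⟨c, hc⟩ := hF
  obtain ⟨r, hr⟩ := (hL : Poly (fun a => List.replicate (L a) ())).sz_le
  obtain ⟨d, q, hd⟩ := (hL : Poly (fun a => List.replicate (L a) ()))
  set n := max (prep d).bd (asm c).bd with hn
  refine ⟨smp (n := n) ((prep d).map (Fin.ofNat (n + 3))) ((asm c).map (Fin.ofNat (n + 3))),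
    (Polynomial.C 9 * Polynomial.X + 3 + q + r + 1) +
      (Polynomial.C 16 * Polynomial.X + Polynomial.C 8 * (Polynomial.C 4 * r + 1) + 15),
    fun x hx => ?_⟩
  -- the length of the random string
  have hLr : L x ≤ r.eval (sz x) := by
    have h1 := hr x
    have h2 := length_lt_sz (List.replicate (L x) ())
    rw [List.length_replicate] at h2
    omega
  obtain ⟨tA, htA, hrA⟩ := prep_runs (x := x) (hd x)
  have hA := hrA.restrict (n := n + 2) (by rw [hn]; omega)
  have hex : ∀ w : List Bool, ∃ t, t ≤ 16 * sz x + 8 * sz w + 14 + T (x, w) ∧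
      Run (asm c) (st (bits x) [false] (bits w)) (st (bits (F (x, w))) [] []) t := by
    intro w
    obtain ⟨t, ht, h⟩ := asm_runs (hc (x, w))
    exact ⟨t, ht, h⟩
  choose tB htB hrB using hex
  let R : List Bool → Option (List Bool) := fun w =>
    match F (x, w) with
    | Sum.inl _ => none
    | Sum.inr y => some (bits y)
  have hR : ∀ w, w.length = L x → bits (F (x, w)) = rcode (bits x) (R w) := by
    intro w hw
    rcases hx w hw with h | ⟨y, h⟩
    · show bits (F (x, w)) = rcode (bits x) (match F (x, w) with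
        | Sum.inl _ => none
        | Sum.inr y => some (bits y))
      rw [h, bits_inl]; rfl
    · show bits (F (x, w)) = rcode (bits x) (match F (x, w) with
        | Sum.inl _ => none
        | Sum.inr y => some (bits y))
      rw [h, bits_inr]; rfl
  have hRn : ∀ w, w.length = L x → (R w = none ↔ F (x, w) = Sum.inl x) := by
    intro w hw
    show (match F (x, w) with
        | Sum.inl _ => none
        | Sum.inr y => some (bits y)) = none ↔ _
    rcases hx w hw with h | ⟨y, h⟩
    · rw [h]; simp
    · rw [h]; simp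
  have hRs : ∀ w, w.length = L x → ∀ y : Y, (R w = some (bits y) ↔ F (x, w) = Sum.inr y) := by
    intro w hw y
    show (match F (x, w) with
        | Sum.inl _ => none
        | Sum.inr y => some (bits y)) = some (bits y) ↔ _
    rcases hx w hw with h | ⟨y', h⟩
    · rw [h]; simp
    · rw [h]
      simp only [Option.some.injEq, Sum.inr.injEq]
      exact ⟨fun h => bits_injective h, fun h => by rw [h]⟩
  have hB : ∀ w : List Bool, w.length = L x →
      Run ((asm c).map (Fin.ofNat (n + 3))) (s3 n (bits x) [false] (bits w))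
        (s3 n (rcode (bits x) (R w)) [] []) (tB w) := by
    intro w hw
    have h := (hrB w).restrict (n := n + 2) (by rw [hn]; omega)
    rw [hR w hw] at h
    exact h
  obtain ⟨h1, h2⟩ := round_analysis (n := n) (cA := (prep d).map (Fin.ofNat (n + 3)))
    (cB := (asm c).map (Fin.ofNat (n + 3))) (x := bits x) (L := L x) hA R tB hB
  constructor
  · intro y
    refine (h1 (bits y)).trans ?_
    apply avgW_congr
    intro w hw
    simp only [hRn w hw, hRs w hw y]
  · intro m
    refine (h2 m).trans ?_
    have h3 : ∀ w : List Bool, w.length = L x → sz w ≤ 4 * r.eval (sz x) + 1 := by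
      intro w hw
      have := sz_listBool_le w
      rw [hw] at this
      omega
    have h4 : avgW (L x) (fun w => ((tB w + 1 : ℕ) : ℝ≥0∞) +
        if R w = none then (smp ((prep d).map (Fin.ofNat (n + 3)))
          ((asm c).map (Fin.ofNat (n + 3)))).eT m ((smp ((prep d).map (Fin.ofNat (n + 3)))
          ((asm c).map (Fin.ofNat (n + 3)))).start (bits x)) else 0) ≤
        ((16 * sz x + 8 * (4 * r.eval (sz x) + 1) + 15 : ℕ) : ℝ≥0∞) +
        avgW (L x) (fun w => (T (x, w) : ℝ≥0∞) +
        if F (x, w) = Sum.inl x then (smp ((prep d).map (Fin.ofNat (n + 3)))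
          ((asm c).map (Fin.ofNat (n + 3)))).eT m ((smp ((prep d).map (Fin.ofNat (n + 3)))
          ((asm c).map (Fin.ofNat (n + 3)))).start (bits x)) else 0) := by
      have h5 : ∀ (k : ℕ) (C : ℝ≥0∞) (g : List Bool → ℝ≥0∞),
          avgW k (fun w => C + g w) = C + avgW k g := by
        intro k
        induction k with
        | zero => intro C g; rfl
        | succ k ih =>
          intro C g
          rw [avgW, avgW, ih, ih]
          calc 2⁻¹ * (C + avgW k fun u => g (u ++ [false])) + 2⁻¹ * (C + avgW k fun u => g (u ++ [true]))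
              = (2⁻¹ + 2⁻¹) * C + (2⁻¹ * (avgW k fun u => g (u ++ [false])) +
                2⁻¹ * (avgW k fun u => g (u ++ [true]))) := by ring
            _ = _ := by rw [ENNReal.inv_two_add_inv_two, one_mul]
      rw [← h5]
      apply avgW_mono
      intro w hw
      simp only [hRn w hw]
      rw [← add_assoc]
      apply add_le_add _ le_rfl
      have h6 := htB w
      have h7 := h3 w hw
      have h8 : tB w + 1 ≤ (16 * sz x + 8 * (4 * r.eval (sz x) + 1) + 15) + T (x, w) := by omega
      exact_mod_cast h8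
    refine (add_le_add le_rfl h4).trans ?_
    rw [← add_assoc]
    apply add_le_add _ le_rfl
    have h9 : (tA + L x + 1) + (16 * sz x + 8 * (4 * r.eval (sz x) + 1) + 15) ≤
        ((Polynomial.C 9 * Polynomial.X + 3 + q + r + 1) +
      (Polynomial.C 16 * Polynomial.X + Polynomial.C 8 * (Polynomial.C 4 * r + 1) + 15) :
        Polynomial ℕ).eval (sz x) := by
      simp only [Polynomial.eval_add, Polynomial.eval_mul, Polynomial.eval_C, Polynomial.eval_X,
        Polynomial.eval_one, Polynomial.eval_ofNat]
      rw [bits_length] at htA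
      omega
    exact_mod_cast h9

end Pool.Agent.R561
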