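import Pool.Agent.R561.Trees

/-!
# An efficient exact uniform sampler for simplicial spanning trees
-/

set_option autoImplicit false
set_option linter.unusedSectionVars false
set_option linter.unusedVariables false

namespace Pool.Agent.R561

open Pool.Agent.NPC
open Finset MeasureTheory
open scoped ENNReal

theorem outEv_unique (M : PTM) (c : M.Conf) {y y' : List Bool} {ω : ℕ → Bool}
    (h : ω ∈ M.outEv c y) (h' : ω ∈ M.outEv c y') : y = y' := by
  obtain ⟨n, h1, h2⟩ := h
  obtain ⟨n', h1', h2'⟩ := h'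
  rcases le_total n n' with hn | hn
  · rw [← h2, ← h2', M.halted_le hn h1]
  · rw [← h2, ← h2', M.halted_le hn h1']

variable {L : LL} {Δ : Finset (Finset ℕ)}

theorem length_le_card (hL : Lists L Δ) : L.length ≤ Δ.card := by
  rw [← List.toFinset_card_of_nodup hL.nodup]
  apply Finset.card_le_card_of_injOn List.toFinset
  · intro F hF
    exact (hL.mem _).2 ⟨F, List.mem_toFinset.1 hF, rfl⟩
  · intro F hF G hG h
    exact eq_of_toFinset (hL.sorted F (List.mem_toFinset.1 hF))
      (hL.sorted G (List.mem_toFinset.1 hG)) h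

theorem sz_le_card (hL : Lists L Δ) (hv : ∀ s ∈ Δ, ∀ v ∈ s, v < Δ.card) :
    sz L ≤ Δ.card * (Δ.card * (4 * Δ.card + 2) + 2) + 1 := by
  set n := Δ.card with hn
  have h1 : ∀ F ∈ L, sz F ≤ n * (4 * n + 2) + 1 := by
    intro F hF
    have hFΔ : F.toFinset ∈ Δ := (hL.mem _).2 ⟨F, hF, rfl⟩
    have h2 : ∀ v ∈ F, v < n := fun v hvF => hv _ hFΔ v (List.mem_toFinset.2 hvF)
    have h3 := sz_le_length_mul F (4 * n + 1) (by
      intro v hvF
      have h4 := sz_nat_le v
      have h5 := Poly.size_le_self v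
      have := h2 v hvF
      omega)
    have h6 : F.length ≤ n := by
      rw [← length_eq_card hL hF]
      have : F.toFinset ⊆ range n := by
        intro v hvF
        exact mem_range.2 (h2 v (List.mem_toFinset.1 hvF))
      have := card_le_card this
      rwa [card_range] at this
    refine h3.trans ?_
    exact Nat.add_le_add_right (Nat.mul_le_mul_right _ h6) 1
  refine (sz_le_length_mul L _ h1).trans ?_
  exact Nat.add_le_add_right (Nat.mul_le_mul_right _ (length_le_card hL)) 1

theorem main : ∃ (M : PTM) (p q : Polynomial ℕ), ∀ (Δ : Finset (Finset ℕ)) (d : ℕ)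
    (L : List (List ℕ)), IsComplex Δ → 1 ≤ d → HasDim Δ d → Lists L Δ →
    (∀ Υ, IsSpanningTree Δ d Υ →
      coins {ω | M.Outputs (bits L) ω (bits (subList L Υ))} =
        ((({Υ | IsSpanningTree Δ d Υ}.ncard : ℕ) : ℝ≥0∞))⁻¹) ∧
    (∀ᵐ ω ∂coins, ∃ Υ, IsSpanningTree Δ d Υ ∧ M.Outputs (bits L) ω (bits (subList L Υ))) ∧
    ∫⁻ ω, M.time (bits L) ω ∂coins ≤ ((p.eval (bits L).length : ℕ) : ℝ≥0∞) ∧
    ((∀ s ∈ Δ, ∀ v ∈ s, v < Δ.card) →
      ∫⁻ ω, M.time (bits L) ω ∂coins ≤ ((q.eval Δ.card : ℕ) : ℝ≥0∞)) := by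
  classical
  obtain ⟨M, p, hM⟩ := sampler_spec
  refine ⟨M, p, p.comp (Polynomial.X * (Polynomial.X * (Polynomial.C 4 * Polynomial.X + 2) + 2) +
    1), fun Δ d L hΔ hd1 hd hL => ?_⟩
  obtain ⟨h1, h2⟩ := hM L (good hL hΔ hd1 hd)
  -- the set of spanning trees
  have hset : {Υ | IsSpanningTree Δ d Υ} = (((fam L).image (ups L Δ d) :
      Finset (Finset (Finset ℕ))) : Set (Finset (Finset ℕ))) := by
    ext Υ
    rw [Finset.mem_coe, Finset.mem_image]
    constructor
    · intro h
      have h3 := tree_eq_ups hL hd h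
      refine ⟨_, ?_, h3.symm⟩
      rw [← isTree_iff hL hΔ hd1 hd, ← h3]
      exact h
    · rintro ⟨Z, hZ, rfl⟩
      exact (isTree_iff hL hΔ hd1 hd Z).2 hZ
  have hcard : {Υ | IsSpanningTree Δ d Υ}.ncard = (fam L).card := by
    rw [hset, Set.ncard_coe_finset, Finset.card_image_of_injOn]
    intro Z _ Z' _ h
    exact ups_inj hL hd h
  have hprob : ∀ Υ, IsSpanningTree Δ d Υ →
      coins {ω | M.Outputs (bits L) ω (bits (subList L Υ))} = (((fam L).card : ℕ) : ℝ≥0∞)⁻¹ := by
    intro Υ hΥ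
    have h3 : Υ ∈ {Υ | IsSpanningTree Δ d Υ} := hΥ
    rw [hset, Finset.mem_coe, Finset.mem_image] at h3
    obtain ⟨Z, hZ, rfl⟩ := h3
    have h4 := h1 Z hZ
    rw [outB_eq hL hd] at h4
    exact h4
  refine ⟨?_, ?_, ?_, ?_⟩
  · intro Υ hΥ
    rw [hcard]
    exact hprob Υ hΥ
  · -- almost surely the output is a spanning tree
    have hmeas : ∀ Υ, MeasurableSet {ω | M.Outputs (bits L) ω (bits (subList L Υ))} := fun Υ =>
      M.measurable_outEv (M.start (bits L)) _
    have hdisj : Set.PairwiseDisjoint ((((fam L).image (ups L Δ d) :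
        Finset (Finset (Finset ℕ))) : Set (Finset (Finset ℕ))))
        (fun Υ => {ω | M.Outputs (bits L) ω (bits (subList L Υ))}) := by
      intro Υ hΥ Υ' hΥ' hne
      rw [Function.onFun, Set.disjoint_left]
      intro ω hω hω'
      apply hne
      have h5 := bits_injective (outEv_unique M (M.start (bits L)) hω hω')
      rw [← hset] at hΥ hΥ'
      exact filter_inj hL (IsSpanningTree.sub hΥ) (IsSpanningTree.sub hΥ') h5
    have hunion : coins (⋃ Υ ∈ (fam L).image (ups L Δ d),
        {ω | M.Outputs (bits L) ω (bits (subList L Υ))}) = 1 := by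
      rw [measure_biUnion_finset hdisj (fun Υ _ => hmeas Υ)]
      have h6 : ∀ Υ ∈ (fam L).image (ups L Δ d),
          coins {ω | M.Outputs (bits L) ω (bits (subList L Υ))} =
            (((fam L).card : ℕ) : ℝ≥0∞)⁻¹ := by
        intro Υ hΥ
        apply hprob
        have : Υ ∈ {Υ | IsSpanningTree Δ d Υ} := by rw [hset]; exact hΥ
        exact this
      rw [Finset.sum_congr rfl h6, Finset.sum_const, nsmul_eq_mul]
      have h7 : ((fam L).image (ups L Δ d)).card = (fam L).card := by
        rw [Finset.card_image_of_injOn]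
        intro Z _ Z' _ h
        exact ups_inj hL hd h
      rw [h7]
      obtain ⟨Z0, hZ0, _⟩ := (good hL hΔ hd1 hd).bs
      have h8 : 0 < (fam L).card := card_pos.2 ⟨Z0, hZ0⟩
      exact ENNReal.mul_inv_cancel (by exact_mod_cast h8.ne') (ENNReal.natCast_ne_top _)
    have hmeasU : MeasurableSet (⋃ Υ ∈ (fam L).image (ups L Δ d),
        {ω | M.Outputs (bits L) ω (bits (subList L Υ))}) :=
      Finset.measurableSet_biUnion _ fun Υ _ => hmeas Υ
    have hae := (prob_compl_eq_zero_iff hmeasU).2 hunion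
    rw [ae_iff]
    refine measure_mono_null ?_ hae
    intro ω hω
    rw [Set.mem_compl_iff]
    intro hω'
    apply hω
    simp only [Set.mem_iUnion] at hω'
    obtain ⟨Υ, hΥ, hout⟩ := hω'
    refine ⟨Υ, ?_, hout⟩
    have : Υ ∈ {Υ | IsSpanningTree Δ d Υ} := by rw [hset]; exact hΥ
    exact this
  · exact h2
  · intro hv
    refine h2.trans ?_
    have h3 := eval_mono p (sz_le_card hL hv)
    rw [Polynomial.eval_comp]
    simp only [Polynomial.eval_add, Polynomial.eval_mul, Polynomial.eval_X, Polynomial.eval_C,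
      Polynomial.eval_one, Polynomial.eval_ofNat]
    exact Nat.cast_le.2 h3

end Pool.Agent.R561
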