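import Pool.Agent.R561.PDefs

/-!
# One step analysis of randomized machines
-/

set_option autoImplicit false

namespace Pool.Agent.R561

open Turing MeasureTheory Function
open scoped ENNReal

instance : IsProbabilityMeasure fairCoin := by
  constructor
  unfold fairCoin
  simp only [Measure.coe_add, Measure.coe_smul, Pi.add_apply, Pi.smul_apply, measure_univ,
    smul_eq_mul, mul_one]
  exact ENNReal.inv_two_add_inv_two

instance : IsProbabilityMeasure coins := by unfold coins; infer_instance

/-- put a coin in front -/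
def consω (b : Bool) (ω : ℕ → Bool) : ℕ → Bool
  | 0 => b
  | n + 1 => ω n

/-- drop the first coin -/
def tailω (ω : ℕ → Bool) : ℕ → Bool := fun n => ω (n + 1)

@[simp] theorem consω_zero (b : Bool) (ω : ℕ → Bool) : consω b ω 0 = b := rfl
@[simp] theorem consω_succ (b : Bool) (ω : ℕ → Bool) (n : ℕ) : consω b ω (n + 1) = ω n := rfl
@[simp] theorem tailω_consω (b : Bool) (ω : ℕ → Bool) : tailω (consω b ω) = ω := rfl

theorem measurable_consω : Measurable (fun p : Bool × (ℕ → Bool) => consω p.1 p.2) := by
  rw [measurable_pi_iff]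
  intro n
  cases n with
  | zero => exact measurable_fst
  | succ n => exact (measurable_pi_apply n).comp measurable_snd

theorem coins_eq_map : (fairCoin.prod coins).map (fun p => consω p.1 p.2) = coins := by
  unfold coins
  apply Measure.eq_infinitePi
  intro s t ht
  classical
  rw [Measure.map_apply measurable_consω (MeasurableSet.pi s.countable_toSet fun i _ => ht i)]
  -- the preimage is a product
  set s' : Finset ℕ := (s.erase 0).image (fun n => n - 1) with hs'
  have hpre : (fun p : Bool × (ℕ → Bool) => consω p.1 p.2) ⁻¹' (Set.pi s t) =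
      (if 0 ∈ s then t 0 else Set.univ) ×ˢ Set.pi s' (fun n => t (n + 1)) := by
    ext ⟨b, ω⟩
    simp only [Set.mem_preimage, Set.mem_pi, Set.mem_prod, Finset.mem_coe]
    constructor
    · intro h
      refine ⟨?_, ?_⟩
      · split_ifs with h0
        · exact h 0 h0
        · trivial
      · intro n hn
        rw [hs', Finset.mem_image] at hn
        obtain ⟨m, hm, rfl⟩ := hn
        rw [Finset.mem_erase] at hm
        have := h m hm.2
        obtain ⟨k, rfl⟩ := Nat.exists_eq_succ_of_ne_zero hm.1
        simpa using this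
    · rintro ⟨h1, h2⟩ n hn
      cases n with
      | zero => rw [if_pos hn] at h1; exact h1
      | succ n =>
        apply h2 n
        rw [hs', Finset.mem_image]
        exact ⟨n + 1, Finset.mem_erase.2 ⟨Nat.succ_ne_zero _, hn⟩, rfl⟩
  rw [hpre, Measure.prod_prod, Measure.infinitePi_pi _ (fun i _ => ht _)]
  have hprod : ∏ i ∈ s', fairCoin (t (i + 1)) = ∏ i ∈ s.erase 0, fairCoin (t i) := by
    rw [hs', Finset.prod_image]
    · apply Finset.prod_congr rfl
      intro n hn
      obtain ⟨k, rfl⟩ := Nat.exists_eq_succ_of_ne_zero (Finset.mem_erase.1 hn).1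
      simp
    · intro a ha b hb hab
      have h1 := (Finset.mem_erase.1 ha).1
      have h2 := (Finset.mem_erase.1 hb).1
      simp only at hab
      omega
  rw [hprod]
  split_ifs with h0
  · rw [← Finset.mul_prod_erase s _ h0]
  · rw [measure_univ, one_mul, Finset.erase_eq_of_notMem h0]

theorem lintegral_coins {f : (ℕ → Bool) → ℝ≥0∞} (hf : Measurable f) :
    ∫⁻ ω, f ω ∂coins = 2⁻¹ * (∫⁻ ω, f (consω false ω) ∂coins) +
      2⁻¹ * (∫⁻ ω, f (consω true ω) ∂coins) := by
  conv_lhs => rw [← coins_eq_map]
  rw [lintegral_map hf measurable_consω,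
    lintegral_prod (μ := fairCoin) (ν := coins) (fun p => f (consω p.1 p.2))
      (hf.comp measurable_consω).aemeasurable]
  unfold fairCoin
  rw [lintegral_add_measure, lintegral_smul_measure, lintegral_smul_measure, lintegral_dirac,
    lintegral_dirac]
  rfl

theorem measure_coins {A : Set (ℕ → Bool)} (hA : MeasurableSet A) :
    coins A = 2⁻¹ * coins {ω | consω false ω ∈ A} + 2⁻¹ * coins {ω | consω true ω ∈ A} := by
  have h := lintegral_coins (f := A.indicator 1) (measurable_one.indicator hA)
  rw [lintegral_indicator_one hA] at h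
  have hm : ∀ b, MeasurableSet {ω | consω b ω ∈ A} := fun b =>
    (measurable_consω.comp (measurable_const.prodMk measurable_id)) hA
  have e : ∀ b, ∫⁻ ω, A.indicator 1 (consω b ω) ∂coins = coins {ω | consω b ω ∈ A} := by
    intro b
    rw [← lintegral_indicator_one (hm b)]
    rfl
  rw [e, e] at h
  exact h

namespace PTM

variable (M : PTM)

theorem next_halted (b : Bool) {c : M.Conf} (h : c.l = none) : M.next b c = c := by
  obtain ⟨l, v, S⟩ := c
  simp only at h
  subst h
  rfl

theorem conf_shift (c : M.Conf) (ω : ℕ → Bool) (n : ℕ) :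
    M.conf c ω (n + 1) = M.conf (M.next (ω 0) c) (tailω ω) n := by
  induction n with
  | zero => rfl
  | succ n ih =>
    rw [conf, ih]
    rfl

theorem halted_succ {c : M.Conf} {ω : ℕ → Bool} {n : ℕ} (h : (M.conf c ω n).l = none) :
    M.conf c ω (n + 1) = M.conf c ω n := by
  rw [conf, M.next_halted _ h]

theorem halted_le {c : M.Conf} {ω : ℕ → Bool} {m n : ℕ} (hmn : m ≤ n)
    (h : (M.conf c ω m).l = none) : M.conf c ω n = M.conf c ω m := by
  induction n, hmn using Nat.le_induction with
  | base => rfl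
  | succ n hmn ih => rw [← ih]; exact M.halted_succ (by rw [ih]; exact h)

theorem measurable_conf (n : ℕ) : ∀ (c : M.Conf) (S : Set M.Conf),
    MeasurableSet {ω : ℕ → Bool | M.conf c ω n ∈ S} := by
  induction n with
  | zero =>
    intro c S
    by_cases h : c ∈ S
    · convert MeasurableSet.univ using 1
      ext ω; simp [conf, h]
    · convert MeasurableSet.empty using 1
      ext ω; simp [conf, h]
  | succ n ih =>
    intro c S
    have hm0 : Measurable (fun ω : ℕ → Bool => ω 0) := measurable_pi_apply 0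
    have hmt : Measurable tailω := by
      rw [measurable_pi_iff]; intro n; exact measurable_pi_apply (n + 1)
    have : {ω : ℕ → Bool | M.conf c ω (n + 1) ∈ S} =
        ({ω | ω 0 = false} ∩ tailω ⁻¹' {ω | M.conf (M.next false c) ω n ∈ S}) ∪
        ({ω | ω 0 = true} ∩ tailω ⁻¹' {ω | M.conf (M.next true c) ω n ∈ S}) := by
      ext ω
      simp only [Set.mem_ofPred_eq, conf_shift, Set.mem_union, Set.mem_inter_iff,
        Set.mem_preimage]
      cases ω 0 <;> simp
    rw [this]
    exact ((hm0 (measurableSet_singleton false)).inter (hmt (ih _ _))).union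
      ((hm0 (measurableSet_singleton true)).inter (hmt (ih _ _)))

/-- the event of halting with output `y`, from a configuration -/
def outEv (c : M.Conf) (y : List Bool) : Set (ℕ → Bool) :=
  {ω | ∃ n, (M.conf c ω n).l = none ∧ (M.conf c ω n).stk M.io = y}

theorem measurable_outEv (c : M.Conf) (y : List Bool) : MeasurableSet (M.outEv c y) := by
  have : M.outEv c y = ⋃ n, {ω : ℕ → Bool | M.conf c ω n ∈
      {d : M.Conf | d.l = none ∧ d.stk M.io = y}} := by
    ext ω; simp [outEv]
  rw [this]
  exact MeasurableSet.iUnion fun n => M.measurable_conf n c _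

/-- probability of halting with output `y` -/
noncomputable def pOut (c : M.Conf) (y : List Bool) : ℝ≥0∞ := coins (M.outEv c y)

theorem pOut_next (c : M.Conf) (y : List Bool) :
    M.pOut c y = 2⁻¹ * M.pOut (M.next false c) y + 2⁻¹ * M.pOut (M.next true c) y := by
  unfold pOut
  rw [measure_coins (M.measurable_outEv c y)]
  have h : ∀ b, {ω | consω b ω ∈ M.outEv c y} = M.outEv (M.next b c) y := by
    intro b
    ext ω
    simp only [outEv, Set.mem_ofPred_eq]
    constructor
    · rintro ⟨n, h1, h2⟩
      refine ⟨n, ?_⟩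
      have h3 : M.conf (M.next b c) ω n = M.conf c (consω b ω) (n + 1) := by
        rw [conf_shift]; rfl
      rw [h3, M.halted_succ h1]
      exact ⟨h1, h2⟩
    · rintro ⟨n, h1, h2⟩
      refine ⟨n + 1, ?_⟩
      rw [conf_shift]
      exact ⟨h1, h2⟩
  rw [h, h]

theorem pOut_halted {c : M.Conf} (h : c.l = none) (y : List Bool) :
    M.pOut c y = if c.stk M.io = y then 1 else 0 := by
  unfold pOut
  have h1 : ∀ (ω : ℕ → Bool) (n : ℕ), M.conf c ω n = c := fun ω n =>
    M.halted_le (m := 0) (Nat.zero_le n) h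
  split_ifs with hy
  · have : M.outEv c y = Set.univ := by
      ext ω
      simp only [outEv, Set.mem_ofPred_eq, Set.mem_univ, iff_true]
      exact ⟨0, by rw [h1]; exact ⟨h, hy⟩⟩
    rw [this, measure_univ]
  · have : M.outEv c y = ∅ := by
      ext ω
      simp only [outEv, Set.mem_ofPred_eq, Set.mem_empty_iff_false, iff_false, not_exists, h1]
      rintro n ⟨_, h3⟩
      exact hy h3
    rw [this, measure_empty]

theorem pOut_le_one (c : M.Conf) (y : List Bool) : M.pOut c y ≤ 1 := prob_le_one

/-- number of steps before `n` at which the machine has not halted -/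
noncomputable def tn (c : M.Conf) (n : ℕ) (ω : ℕ → Bool) : ℝ≥0∞ :=
  ∑ k ∈ Finset.range n, Set.indicator {ω | M.conf c ω k ∈ {d : M.Conf | d.l ≠ none}} 1 ω

theorem measurable_tn (c : M.Conf) (n : ℕ) : Measurable (M.tn c n) := by
  unfold tn
  apply Finset.measurable_fun_sum
  intro k _
  exact measurable_one.indicator (M.measurable_conf k c _)

/-- expected truncated time -/
noncomputable def eT (n : ℕ) (c : M.Conf) : ℝ≥0∞ := ∫⁻ ω, M.tn c n ω ∂coins

theorem tn_succ (c : M.Conf) (n : ℕ) (b : Bool) (ω : ℕ → Bool) :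
    M.tn c (n + 1) (consω b ω) ≤ 1 + M.tn (M.next b c) n ω := by
  unfold tn
  rw [Finset.sum_range_succ', add_comm]
  apply add_le_add
  · unfold Set.indicator
    split_ifs <;> simp
  · apply le_of_eq
    apply Finset.sum_congr rfl
    intro k _
    unfold Set.indicator
    have : M.conf c (consω b ω) (k + 1) = M.conf (M.next b c) ω k := by
      rw [conf_shift]; rfl
    simp only [Set.mem_ofPred_eq, this, Pi.one_apply]

theorem tn_mono (c : M.Conf) {m n : ℕ} (h : m ≤ n) (ω : ℕ → Bool) : M.tn c m ω ≤ M.tn c n ω := by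
  unfold tn
  exact Finset.sum_le_sum_of_subset (Finset.range_mono h)

theorem tn_le (c : M.Conf) (n : ℕ) (ω : ℕ → Bool) : M.tn c n ω ≤ n := by
  unfold tn
  calc _ ≤ ∑ k ∈ Finset.range n, (1 : ℝ≥0∞) := by
        apply Finset.sum_le_sum
        intro k _
        unfold Set.indicator
        split_ifs <;> simp
    _ = n := by simp

theorem eT_le (n : ℕ) (c : M.Conf) : M.eT n c ≤ n := by
  unfold eT
  calc _ ≤ ∫⁻ _, (n : ℝ≥0∞) ∂coins := lintegral_mono (M.tn_le c n)
    _ = n := by simp

theorem eT_next (n : ℕ) (c : M.Conf) :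
    M.eT n c ≤ 1 + (2⁻¹ * M.eT n (M.next false c) + 2⁻¹ * M.eT n (M.next true c)) := by
  have h1 : M.eT n c ≤ M.eT (n + 1) c := by
    unfold eT; exact lintegral_mono (M.tn_mono c (Nat.le_succ n))
  refine h1.trans ?_
  have h2 : M.eT (n + 1) c = 2⁻¹ * (∫⁻ ω, M.tn c (n + 1) (consω false ω) ∂coins) +
      2⁻¹ * (∫⁻ ω, M.tn c (n + 1) (consω true ω) ∂coins) := lintegral_coins (M.measurable_tn c _)
  have h3 : ∀ b, ∫⁻ ω, M.tn c (n + 1) (consω b ω) ∂coins ≤ 1 + M.eT n (M.next b c) := by
    intro b
    calc _ ≤ ∫⁻ ω, (1 + M.tn (M.next b c) n ω) ∂coins := lintegral_mono (M.tn_succ c n b)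
      _ = 1 + M.eT n (M.next b c) := by
        rw [lintegral_add_left measurable_const]
        simp [eT]
  rw [h2]
  calc _ ≤ 2⁻¹ * (1 + M.eT n (M.next false c)) + 2⁻¹ * (1 + M.eT n (M.next true c)) :=
        add_le_add (mul_le_mul_right (h3 false) _) (mul_le_mul_right (h3 true) _)
    _ = (2⁻¹ + 2⁻¹) + (2⁻¹ * M.eT n (M.next false c) + 2⁻¹ * M.eT n (M.next true c)) := by ring
    _ = _ := by rw [ENNReal.inv_two_add_inv_two]

theorem eT_halted (n : ℕ) {c : M.Conf} (h : c.l = none) : M.eT n c = 0 := by
  have h1 : ∀ (ω : ℕ → Bool) (n : ℕ), M.conf c ω n = c := fun ω n =>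
    M.halted_le (m := 0) (Nat.zero_le n) h
  unfold eT
  have : ∀ ω, M.tn c n ω = 0 := by
    intro ω
    unfold tn
    apply Finset.sum_eq_zero
    intro k _
    simp [Set.indicator, h1, h]
  simp [this]

theorem time_le_iSup (x : List Bool) (ω : ℕ → Bool) :
    M.time x ω ≤ ⨆ n, M.tn (M.start x) n ω := by
  by_cases hh : ∃ n, M.HaltedBy x ω n
  · classical
    set N := Nat.find hh with hN
    have hN1 : M.HaltedBy x ω N := Nat.find_spec hh
    have hN2 : ∀ k < N, ¬ M.HaltedBy x ω k := fun k hk => Nat.find_min hh hk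
    have h1 : M.time x ω ≤ N := by
      unfold time
      exact iInf₂_le N hN1
    refine h1.trans ?_
    refine le_trans (le_of_eq ?_) (le_iSup _ N)
    unfold tn
    have : ∀ k ∈ Finset.range N, Set.indicator {ω | M.conf (M.start x) ω k ∈
        {d : M.Conf | d.l ≠ none}} (1 : (ℕ → Bool) → ℝ≥0∞) ω = 1 := by
      intro k hk
      have := hN2 k (Finset.mem_range.1 hk)
      rw [Set.indicator_of_mem]
      · rfl
      · exact this
    rw [Finset.sum_congr rfl this]
    simp
  · push Not at hh
    have h1 : ∀ n, M.tn (M.start x) n ω = n := by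
      intro n
      unfold tn
      have : ∀ k ∈ Finset.range n, Set.indicator {ω | M.conf (M.start x) ω k ∈
          {d : M.Conf | d.l ≠ none}} (1 : (ℕ → Bool) → ℝ≥0∞) ω = 1 := by
        intro k _
        rw [Set.indicator_of_mem]
        · rfl
        · exact hh k
      rw [Finset.sum_congr rfl this]
      simp
    simp only [h1]
    rw [ENNReal.iSup_natCast]
    exact le_top

theorem lintegral_time_le (x : List Bool) (B : ℝ≥0∞) (h : ∀ n, M.eT n (M.start x) ≤ B) :
    ∫⁻ ω, M.time x ω ∂coins ≤ B := by
  calc _ ≤ ∫⁻ ω, ⨆ n, M.tn (M.start x) n ω ∂coins := lintegral_mono (M.time_le_iSup x)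
    _ = ⨆ n, ∫⁻ ω, M.tn (M.start x) n ω ∂coins := by
      apply lintegral_iSup
      · exact fun n => M.measurable_tn _ n
      · intro m n h ω; exact M.tn_mono _ h ω
    _ ≤ B := iSup_le h

end PTM

end Pool.Agent.R561
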