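import Pool.Agent.R561.Count
import Pool.Agent.R561.Mach

/-!
# The sampler for inputs whose independence test defines a matroid
-/

set_option autoImplicit false
set_option linter.unusedSectionVars false
set_option linter.unusedVariables false

namespace Pool.Agent.R561

open Pool.Agent.NPC
open Finset MeasureTheory
open scoped ENNReal

theorem fD_eq (D : ℕ) (x : LL) (w : List Bool) :
    fD D (x, w) = (rho x (D * nT x) (valB w)).elim (Sum.inl x) (fun B => Sum.inr (outB x B)) := by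
  unfold fD rho
  simp only
  split_ifs with h
  · rfl
  · unfold fbF gF
    simp only [List.length_replicate]
    rfl

/-- hypotheses on the input -/
structure Good (x : LL) : Prop where
  bf : IsBF (base x).length (fam x)
  bs : ∃ Z0 ∈ fam x, li Z0 = base x
  inj : ∀ Y ∈ fam x, ∀ Y' ∈ fam x, outB x (li Y) = outB x (li Y') → Y = Y'

theorem prob_lemma (P : ℝ≥0∞) (hP : P ≤ 1) (L n0 K F' : ℕ) (hK : 0 < K) (hF : 0 < F')
    (hsum : n0 + K * F' = 2 ^ L) (h : P = (2 ^ L)⁻¹ * (n0 * P + F')) : P = (K : ℝ≥0∞)⁻¹ := by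
  have hPtop : P ≠ ⊤ := ne_top_of_le_ne_top ENNReal.one_ne_top hP
  have h7 : (2 : ℝ≥0∞) ^ L * P = n0 * P + (F' : ℝ≥0∞) := by
    conv_lhs => rw [h]
    rw [← mul_assoc, ENNReal.mul_inv_cancel (by positivity) (by simp), one_mul]
  have h8 : (2 : ℝ≥0∞) ^ L = n0 + K * F' := by
    have : ((2 ^ L : ℕ) : ℝ≥0∞) = ((n0 + K * F' : ℕ) : ℝ≥0∞) := by rw [hsum]
    push_cast at this
    exact this
  rw [h8, add_mul] at h7
  have htop : (n0 : ℝ≥0∞) * P ≠ ⊤ := ENNReal.mul_ne_top (ENNReal.natCast_ne_top _) hPtop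
  have h9 : (K : ℝ≥0∞) * F' * P = F' := (ENNReal.add_right_inj htop).1 h7
  have hF0 : (F' : ℝ≥0∞) ≠ 0 := by exact_mod_cast hF.ne'
  have h10 : (F' : ℝ≥0∞) * (K * P) = F' * 1 := by
    rw [mul_one]
    calc (F' : ℝ≥0∞) * (K * P) = K * F' * P := by ring
      _ = F' := h9
  have h11 : (K : ℝ≥0∞) * P = 1 :=
    (ENNReal.mul_right_inj hF0 (ENNReal.natCast_ne_top _)).1 h10
  exact ENNReal.eq_inv_of_mul_eq_one_left (by rw [mul_comm]; exact h11)

theorem time_lemma (e a A B : ℝ≥0∞) (he : e ≠ ⊤) (s m n0 : ℕ) (hn0 : 2 * n0 ≤ 2 ^ (s + m))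
    (h : e ≤ a + (2 ^ (s + m))⁻¹ * (2 ^ (s + m) * A + 2 ^ m * (B * 2 ^ s) + n0 * e)) :
    e ≤ 2 * (a + A + B) := by
  have hpos : (2 : ℝ≥0∞) ^ (s + m) ≠ 0 := by positivity
  have htop : (2 : ℝ≥0∞) ^ (s + m) ≠ ⊤ := by simp
  have e1 : (2 ^ (s + m))⁻¹ * (2 ^ (s + m) * A + 2 ^ m * (B * 2 ^ s) + n0 * e) =
      A + B + (2 ^ (s + m))⁻¹ * n0 * e := by
    have e2 : (2 : ℝ≥0∞) ^ m * (B * 2 ^ s) = 2 ^ (s + m) * B := by rw [pow_add]; ring
    rw [e2, ← mul_add, mul_add, ← mul_assoc, ENNReal.inv_mul_cancel hpos htop, one_mul,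
      ← mul_assoc]
  have e3 : (2 ^ (s + m))⁻¹ * (n0 : ℝ≥0∞) ≤ 2⁻¹ := by
    have h1 : (2 : ℝ≥0∞) * n0 ≤ 2 ^ (s + m) := by exact_mod_cast hn0
    calc (2 ^ (s + m))⁻¹ * (n0 : ℝ≥0∞) = (2 ^ (s + m))⁻¹ * (2⁻¹ * (2 * n0)) := by
          rw [← mul_assoc 2⁻¹ 2, ENNReal.inv_mul_cancel (by simp) (by simp), one_mul]
      _ ≤ (2 ^ (s + m))⁻¹ * (2⁻¹ * 2 ^ (s + m)) := by gcongr
      _ = 2⁻¹ := by
          rw [mul_comm 2⁻¹, ← mul_assoc, ENNReal.inv_mul_cancel hpos htop, one_mul]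
  rw [e1] at h
  have h2 : e ≤ (a + A + B) + 2⁻¹ * e := by
    refine h.trans ?_
    calc a + (A + B + (2 ^ (s + m))⁻¹ * n0 * e) ≤ a + (A + B + 2⁻¹ * e) := by gcongr
      _ = _ := by ring
  have h3 : e = 2⁻¹ * e + 2⁻¹ * e := by
    rw [← add_mul, ENNReal.inv_two_add_inv_two, one_mul]
  have htop2 : 2⁻¹ * e ≠ ⊤ := ENNReal.mul_ne_top (by simp) he
  have h4 : 2⁻¹ * e ≤ a + A + B := by
    have h5 : 2⁻¹ * e + 2⁻¹ * e ≤ (a + A + B) + 2⁻¹ * e := by rw [← h3]; exact h2
    exact (ENNReal.add_le_add_iff_right htop2).1 h5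
  calc e = 2 * (2⁻¹ * e) := by
        rw [← mul_assoc, ENNReal.mul_inv_cancel (by simp) (by simp), one_mul]
    _ ≤ _ := by gcongr

theorem sum_lemma (L m : ℕ) (hm : m ≤ L) (A C e : ℝ≥0∞) (p : ℕ → Prop) [DecidablePred p] :
    ∑ v ∈ range (2 ^ L), ((A + if 2 ^ m ≤ v then 0 else C) + if p v then e else 0) =
      2 ^ L * A + 2 ^ m * C + (((range (2 ^ L)).filter p).card : ℕ) * e := by
  rw [Finset.sum_add_distrib, Finset.sum_add_distrib, Finset.sum_const, card_range, nsmul_eq_mul,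
    ← Finset.sum_filter, Finset.sum_const, nsmul_eq_mul]
  have h1 : ∑ v ∈ range (2 ^ L), (if 2 ^ m ≤ v then (0 : ℝ≥0∞) else C) = 2 ^ m * C := by
    have h2 : ∀ v ∈ range (2 ^ L), (if 2 ^ m ≤ v then (0 : ℝ≥0∞) else C) =
        if v ∈ range (2 ^ m) then C else 0 := by
      intro v _
      by_cases h : 2 ^ m ≤ v
      · rw [if_pos h, if_neg (by rw [mem_range]; omega)]
      · rw [if_neg h, if_pos (by rw [mem_range]; omega)]
    rw [Finset.sum_congr rfl h2, Finset.sum_ite_mem, inter_eq_right.2 (Finset.range_subset_range.2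
      (Nat.pow_le_pow_right (by norm_num) hm)), Finset.sum_const, card_range, nsmul_eq_mul]
    push_cast; rfl
  rw [h1]
  push_cast
  rfl

theorem mm_ge {x : LL} (h : 0 < nT x) (s : ℕ) : nT x + 1 ≤ mm x s := by
  unfold mm tt
  have h1 : 1 ≤ aa x := by
    unfold aa
    rw [Nat.size_eq_bits_len]
    exact Nat.size_pos.2 h
  have h2 := MM_pos x
  calc nT x + 1 ≤ s + nT x + 1 := by omega
    _ ≤ MM x * (s + nT x + 1) := Nat.le_mul_of_pos_left _ h2
    _ ≤ 2 * (MM x * (s + nT x + 1)) := Nat.le_mul_of_pos_left _ (by norm_num)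
    _ = 2 * MM x * (s + nT x + 1) := by ring
    _ ≤ (2 * aa x) * (2 * MM x * (s + nT x + 1)) := Nat.le_mul_of_pos_left _ (by omega)

theorem pos_quot {x : LL} (s : ℕ) : (fam x).card ≤ 2 ^ (s + mm x s) := by
  refine (card_fam_le x).trans (Nat.pow_le_pow_right (by norm_num) ?_)
  rcases Nat.eq_zero_or_pos (nT x) with h | h
  · omega
  · have := mm_ge h s; omega

theorem count_none {x : LL} (h : Good x) (s : ℕ) :
    ((range (2 ^ (s + mm x s))).filter (fun v => rho x s v = none)).card +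
      (fam x).card * (2 ^ (s + mm x s) / (fam x).card) = 2 ^ (s + mm x s) := by
  obtain ⟨Z0, hZ0, h0⟩ := h.bs
  classical
  have h1 : ∑ Y ∈ fam x, ((range (2 ^ (s + mm x s))).filter
      (fun v => rho x s v = some (li Y))).card =
      (fam x).card * (2 ^ (s + mm x s) / (fam x).card) := by
    rw [Finset.sum_congr rfl fun Y hY => count_rho x h.bf h0 hZ0 s Y hY, Finset.sum_const,
      smul_eq_mul]
  rw [← h1]
  have h2 : ∑ Y ∈ fam x, ((range (2 ^ (s + mm x s))).filter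
      (fun v => rho x s v = some (li Y))).card =
      ((range (2 ^ (s + mm x s))).filter (fun v => ¬ rho x s v = none)).card := by
    rw [← Finset.card_biUnion]
    · congr 1
      ext v
      simp only [mem_biUnion, mem_filter, mem_range]
      constructor
      · rintro ⟨Y, _, h3, h4⟩
        exact ⟨h3, by rw [h4]; simp⟩
      · rintro ⟨h3, h4⟩
        rcases rho_spec x h0 hZ0 s v with h5 | ⟨Y, hY, h5⟩
        · exact absurd h5 h4
        · exact ⟨Y, hY, h3, h5⟩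
    · intro Y _ Y' _ hne
      rw [Function.onFun, Finset.disjoint_left]
      intro v hv hv'
      rw [mem_filter] at hv hv'
      apply hne
      apply li_inj
      have := hv.2.symm.trans hv'.2
      exact Option.some.inj this
  rw [h2, Finset.card_filter_add_card_filter_not, card_range]

theorem two_mul_none {x : LL} (h : Good x) (s : ℕ) :
    2 * ((range (2 ^ (s + mm x s))).filter (fun v => rho x s v = none)).card ≤
      2 ^ (s + mm x s) := by
  have h1 := count_none h s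
  obtain ⟨Z0, hZ0, h0⟩ := h.bs
  have hK : 0 < (fam x).card := card_pos.2 ⟨Z0, hZ0⟩
  have h2 : ((range (2 ^ (s + mm x s))).filter (fun v => rho x s v = none)).card =
      2 ^ (s + mm x s) % (fam x).card := by
    have := Nat.div_add_mod (2 ^ (s + mm x s)) (fam x).card
    omega
  rw [h2]
  have h3 := Nat.mod_lt (2 ^ (s + mm x s)) hK
  have h4 := card_fam_le x
  rcases Nat.eq_zero_or_pos (nT x) with h5 | h5
  · have h4' : (fam x).card ≤ 1 := h4.trans (le_of_eq (by rw [h5, pow_zero]))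
    have h7 : 2 ^ (s + mm x s) % (fam x).card = 0 := by omega
    rw [h7]; exact Nat.zero_le _
  · have h6 := mm_ge h5 s
    have h7 : 2 * 2 ^ nT x ≤ 2 ^ (s + mm x s) := by
      rw [← pow_succ']
      exact Nat.pow_le_pow_right (by norm_num) (by omega)
    omega


end Pool.Agent.R561
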