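import Pool.Agent.R561.Samp

/-!
# The sampler for inputs whose independence test defines a matroid: conclusion
-/

set_option autoImplicit false
set_option linter.unusedSectionVars false
set_option linter.unusedVariables false
set_option maxHeartbeats 400000

namespace Pool.Agent.R561

open Pool.Agent.NPC
open Finset MeasureTheory
open scoped ENNReal

theorem prob_part (D : ℕ) (x : LL) (hx : Good x) (Y : Finset (Fin (nT x)))
    (hY : Y ∈ fam x) (P : ℝ≥0∞) (hPle : P ≤ 1) (g : List Bool → ℝ≥0∞)
    (hg1 : ∀ w, fD D (x, w) = Sum.inl x → g w = P)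
    (hg2 : ∀ w, fD D (x, w) ≠ Sum.inl x → fD D (x, w) = Sum.inr (outB x (li Y)) → g w = 1)
    (hg3 : ∀ w, fD D (x, w) ≠ Sum.inl x → fD D (x, w) ≠ Sum.inr (outB x (li Y)) → g w = 0)
    (h3 : P = avgW (lD D x) g) : P = ((fam x).card : ℝ≥0∞)⁻¹ := by
  classical
  obtain ⟨Z0, hZ0, h0⟩ := hx.bs
  have hK : 0 < (fam x).card := card_pos.2 ⟨Z0, hZ0⟩
  have hL : lD D x = (D * nT x) + mm x (D * nT x) := rfl
  have hfd : ∀ w, fD D (x, w) = (rho x (D * nT x) (valB w)).elim (Sum.inl x)
      (fun B => Sum.inr (outB x B)) := fun w => fD_eq D x w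
  generalize D * nT x = s at hL hfd
  have hcn := count_none hx s
  refine prob_lemma P hPle (s + mm x s) _ _ _ hK (Nat.div_pos (pos_quot s) hK) hcn ?_
  have h4 : avgW (lD D x) g =
      avgW (lD D x) (fun w => (fun v => if rho x s v = none then P else
          if rho x s v = some (li Y) then 1 else 0) (valB w)) := by
    apply avgW_congr
    intro w _
    beta_reduce
    rcases rho_spec x h0 hZ0 s (valB w) with h5 | ⟨Y', hY', h5⟩
    · have h6 : fD D (x, w) = Sum.inl x := by rw [hfd, h5]; rfl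
      rw [hg1 w h6, if_pos h5]
    · have h6 : fD D (x, w) = Sum.inr (outB x (li Y')) := by rw [hfd, h5]; rfl
      have h7 : fD D (x, w) ≠ Sum.inl x := by rw [h6]; exact Sum.inr_ne_inl
      have h8 : ¬ rho x s (valB w) = none := by rw [h5]; exact Option.some_ne_none _
      rw [if_neg h8, h5]
      by_cases hYY : Y' = Y
      · rw [hg2 w h7 (by rw [h6, hYY]), if_pos (by rw [hYY])]
      · rw [hg3 w h7 (by
          rw [h6]
          intro h
          exact hYY (hx.inj Y' hY' Y hY (Sum.inr.inj h))), if_neg]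
        intro h
        exact hYY (li_inj (Option.some.inj h))
  have h5 : ∑ v ∈ range (2 ^ (s + mm x s)), (if rho x s v = none then P else
        if rho x s v = some (li Y) then 1 else 0) =
      (((range (2 ^ (s + mm x s))).filter (fun v => rho x s v = none)).card : ℝ≥0∞) * P +
        ((2 ^ (s + mm x s) / (fam x).card : ℕ) : ℝ≥0∞) := by
    have h6 : ∀ v ∈ range (2 ^ (s + mm x s)), (if rho x s v = none then P else
        if rho x s v = some (li Y) then 1 else 0) =
        (if rho x s v = none then P else 0) + (if rho x s v = some (li Y) then 1 else 0) := by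
      intro v _
      by_cases h7 : rho x s v = none
      · have h8 : ¬ rho x s v = some (li Y) := by rw [h7]; exact fun h => by cases h
        rw [if_pos h7, if_pos h7, if_neg h8, add_zero]
      · rw [if_neg h7, if_neg h7, zero_add]
    rw [Finset.sum_congr rfl h6, Finset.sum_add_distrib, ← Finset.sum_filter,
      Finset.sum_const, nsmul_eq_mul, ← Finset.sum_filter, Finset.sum_const, nsmul_eq_mul,
      mul_one, count_rho x hx.bf h0 hZ0 s Y hY]
  calc P = avgW (lD D x) g := h3
    _ = avgW (lD D x) (fun w => (fun v => if rho x s v = none then P else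
          if rho x s v = some (li Y) then 1 else 0) (valB w)) := h4
    _ = (2 ^ (s + mm x s))⁻¹ * ∑ v ∈ range (2 ^ (s + mm x s)), (if rho x s v = none then P else
        if rho x s v = some (li Y) then 1 else 0) := by
      rw [hL]
      exact avgW_valB _ (fun v => if rho x s v = none then P else
          if rho x s v = some (li Y) then 1 else 0)
    _ = _ := by rw [h5]

theorem time_part (D : ℕ) (x : LL) (hx : Good x) (e a A B : ℝ≥0∞) (he : e ≠ ⊤)
    (T : List Bool → ℝ≥0∞) (g : List Bool → ℝ≥0∞)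
    (hT1 : ∀ w, w.length = lD D x → 2 ^ mm x (D * nT x) ≤ valB w → T w ≤ A)
    (hT2 : ∀ w, w.length = lD D x → ¬ 2 ^ mm x (D * nT x) ≤ valB w →
      T w ≤ A + B * 2 ^ (D * nT x))
    (hg1 : ∀ w, w.length = lD D x → fD D (x, w) = Sum.inl x → g w = T w + e)
    (hg2 : ∀ w, w.length = lD D x → fD D (x, w) ≠ Sum.inl x → g w = T w)
    (h3 : e ≤ a + avgW (lD D x) g) : e ≤ 2 * (a + A + B) := by
  classical
  obtain ⟨Z0, hZ0, h0⟩ := hx.bs
  have hL : lD D x = (D * nT x) + mm x (D * nT x) := rfl
  have hfd : ∀ w, fD D (x, w) = (rho x (D * nT x) (valB w)).elim (Sum.inl x)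
      (fun B => Sum.inr (outB x B)) := fun w => fD_eq D x w
  generalize D * nT x = s at hL hfd hT1 hT2
  have htwo := two_mul_none hx s
  refine time_lemma e a A B he s (mm x s) _ htwo (h3.trans (add_le_add le_rfl ?_))
  rw [← sum_lemma (s + mm x s) (mm x s) (Nat.le_add_left _ _) A (B * 2 ^ s) e, ← avgW_valB, ← hL]
  apply avgW_mono
  intro w hw
  have h4 : T w ≤ A + if 2 ^ mm x s ≤ valB w then 0 else B * 2 ^ s := by
    by_cases h : 2 ^ mm x s ≤ valB w
    · rw [if_pos h, add_zero]; exact hT1 w hw h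
    · rw [if_neg h]; exact hT2 w hw h
  by_cases h : rho x s (valB w) = none
  · have h6 : fD D (x, w) = Sum.inl x := by rw [hfd, h]; rfl
    rw [hg1 w hw h6, if_pos h]
    exact add_le_add h4 le_rfl
  · have h6 : fD D (x, w) ≠ Sum.inl x := by
      rw [hfd]
      cases h7 : rho x s (valB w) with
      | none => exact absurd h7 h
      | some B => exact Sum.inr_ne_inl
    rw [hg2 w hw h6, if_neg h, add_zero]
    exact h4

theorem sampler_spec : ∃ (M : PTM) (p : Polynomial ℕ), ∀ x : LL, Good x →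
    (∀ Y ∈ fam x, M.pOut (M.start (bits x)) (bits (outB x (li Y))) =
      ((fam x).card : ℝ≥0∞)⁻¹) ∧
    ∫⁻ ω, M.time (bits x) ω ∂coins ≤ ((p.eval (sz x) : ℕ) : ℝ≥0∞) := by
  obtain ⟨D, p0, p1, hA⟩ := exists_alg
  obtain ⟨M, p, hM⟩ := exists_machine (fD D) (lD D) (upoly_lD D) _ hA
  obtain ⟨r, hr⟩ := (show NPC.Poly (fun x => List.replicate (lD D x) ()) from upoly_lD D).sz_le
  refine ⟨M, Polynomial.C 2 * (p + p0.comp (Polynomial.X + Polynomial.C 4 * r + 2) +
    p1.comp (Polynomial.X + Polynomial.C 4 * r + 2)), fun x hx => ?_⟩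
  have hinr : ∀ w : List Bool, w.length = lD D x →
      fD D (x, w) = Sum.inl x ∨ ∃ y, fD D (x, w) = Sum.inr y := by
    intro w _
    rw [fD_eq]
    cases rho x (D * nT x) (valB w) with
    | none => exact Or.inl rfl
    | some B => exact Or.inr ⟨_, rfl⟩
  obtain ⟨h1, h2⟩ := hM x hinr
  constructor
  · intro Y hY
    refine prob_part D x hx Y hY _ (M.pOut_le_one _ _) _ ?_ ?_ ?_ (h1 (outB x (li Y)))
    · intro w hw
      rw [if_pos hw]
    · intro w hw hw'
      rw [if_neg hw, if_pos hw']
    · intro w hw hw'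
      rw [if_neg hw, if_neg hw']
  · apply M.lintegral_time_le
    intro m
    have hetop : M.eT m (M.start (bits x)) ≠ ⊤ :=
      ne_top_of_le_ne_top (ENNReal.natCast_ne_top m) (M.eT_le m _)
    have hsz : ∀ w : List Bool, w.length = lD D x →
        sz (x, w) ≤ sz x + 4 * r.eval (sz x) + 2 := by
      intro w hw
      have e1 : sz (List.replicate (lD D x) ()) ≤ r.eval (sz x) := hr x
      have e2 := length_lt_sz (List.replicate (lD D x) ())
      rw [List.length_replicate] at e2
      have e3 := sz_listBool_le w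
      have e4 : sz (x, w) = sz x + sz w + 1 := sz_pair _ _
      rw [hw] at e3
      omega
    have hfin := time_part D x hx _ ((p.eval (sz x) : ℕ) : ℝ≥0∞)
      ((p0.eval (sz x + 4 * r.eval (sz x) + 2) : ℕ) : ℝ≥0∞)
      ((p1.eval (sz x + 4 * r.eval (sz x) + 2) : ℕ) : ℝ≥0∞) hetop
      (fun w => (((p0.eval (sz (x, w)) + if 2 ^ mm x (D * nT x) ≤ valB w then 0 else
        p1.eval (sz (x, w)) * 2 ^ (D * nT x) : ℕ)) : ℝ≥0∞)) _ ?_ ?_ ?_ ?_ (h2 m)
    · refine hfin.trans (le_of_eq ?_)
      simp only [Polynomial.eval_add, Polynomial.eval_mul, Polynomial.eval_comp,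
        Polynomial.eval_X, Polynomial.eval_C, Polynomial.eval_ofNat]
      push_cast
      ring
    · intro w hw h
      beta_reduce
      rw [if_pos h, add_zero]
      exact Nat.cast_le.2 (eval_mono p0 (hsz w hw))
    · intro w hw h
      beta_reduce
      rw [if_neg h]
      have e1 := eval_mono p0 (hsz w hw)
      have e2 := eval_mono p1 (hsz w hw)
      have e3 : ((p0.eval (sz (x, w)) + p1.eval (sz (x, w)) * 2 ^ (D * nT x) : ℕ) : ℝ≥0∞) =
          ((p0.eval (sz (x, w)) : ℕ) : ℝ≥0∞) + ((p1.eval (sz (x, w)) : ℕ) : ℝ≥0∞) *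
            2 ^ (D * nT x) := by
        rw [Nat.cast_add, Nat.cast_mul, Nat.cast_pow, Nat.cast_ofNat]
      rw [e3]
      exact add_le_add (Nat.cast_le.2 e1) (mul_le_mul' (Nat.cast_le.2 e2) le_rfl)
    · intro w hw h
      rw [if_pos h]
    · intro w hw h
      rw [if_neg h, add_zero]

end Pool.Agent.R561
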