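import Pool.Agent.R561.Prob
import Pool.Agent.NPC.Num

/-!
# The rejection sampling machine
-/

set_option autoImplicit false

namespace Pool.Agent.R561

open Turing MeasureTheory Function
open Pool.Agent.NPC
open scoped ENNReal

/-! ### Deterministic segments -/

/-- one step of a program which may use coins -/
def nxt {K : Type} [DecidableEq K] {L : Type} (P : Bool → L → Cmd.Stm K L) (b : Bool)
    (c : TM2.Cfg (fun _ : K => Bool) L (Option Bool)) :
    TM2.Cfg (fun _ : K => Bool) L (Option Bool) := (TM2.step (P b) c).getD c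

/-- `t` steps which do not depend on the coins -/
def DS {C : Type} (nx : Bool → C → C) : ℕ → C → C → Prop
  | 0, a, b => a = b
  | t + 1, a, b => ∃ a', (∀ x, nx x a = a') ∧ DS nx t a' b

theorem DS.trans {C : Type} {nx : Bool → C → C} {s t : ℕ} : ∀ {a b c : C}, DS nx s a b →
    DS nx t b c → DS nx (s + t) a c := by
  induction s with
  | zero => intro a b c h1 h2; rw [show a = b from h1, Nat.zero_add]; exact h2
  | succ s ih =>
    rintro a b c ⟨a', h1, h2⟩ h3
    rw [Nat.succ_add]
    exact ⟨a', h1, ih h2 h3⟩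

theorem DS.one {C : Type} {nx : Bool → C → C} {a b : C} (h : ∀ x, nx x a = b) : DS nx 1 a b :=
  ⟨b, h, rfl⟩

theorem code_correct' {K : Type} [DecidableEq K] {L : Type} {c : Cmd K} {s s' : K → List Bool}
    {t : ℕ} (h : Run c s s' t) :
    ∀ (P : Bool → L → Cmd.Stm K L) (emb : c.Lbl → L) (exit : L),
      (∀ b l, P b (emb l) = c.code emb exit l) →
      ∀ v, ∃ v', DS (nxt P) t ⟨some (emb c.entry), v, s⟩ ⟨some exit, v', s'⟩ := by
  induction h with
  | skip s =>
    intro M emb exit hM v
    refine ⟨v, DS.one fun x => ?_⟩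
    simp [nxt, TM2.step, hM, Cmd.code]
  | push s k b =>
    intro M emb exit hM v
    refine ⟨v, DS.one fun x => ?_⟩
    simp [nxt, TM2.step, hM, Cmd.code]
  | pop s k =>
    intro M emb exit hM v
    refine ⟨v, DS.one fun x => ?_⟩
    simp [nxt, TM2.step, hM, Cmd.code]
  | @seq c d s s' s'' t t' _ _ ih₁ ih₂ =>
    intro M emb exit hM v
    obtain ⟨v₁, h₁⟩ := ih₁ M (fun x => emb (Sum.inl x)) (emb (Sum.inr d.entry))
      (fun b l => hM b (Sum.inl l)) v
    obtain ⟨v₂, h₂⟩ := ih₂ M (fun x => emb (Sum.inr x)) exit (fun b l => hM b (Sum.inr l)) v₁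
    exact ⟨v₂, h₁.trans h₂⟩
  | @casesNil k c₀ cf ct s s' t hk _ ih =>
    intro M emb exit hM v
    obtain ⟨v₁, h₁⟩ := ih M (fun x => emb (some (Sum.inl x))) exit
      (fun b l => hM b (some (Sum.inl l))) none
    refine ⟨v₁, ?_⟩
    rw [add_comm]
    refine DS.trans (DS.one fun x => ?_) h₁
    have : M x (emb none) = _ := hM x none
    simp [nxt, TM2.step, Cmd.entry, this, Cmd.code, hk]
  | @casesFalse k c₀ cf ct s s' t l hk _ ih =>
    intro M emb exit hM v
    obtain ⟨v₁, h₁⟩ := ih M (fun x => emb (some (Sum.inr (Sum.inl x)))) exit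
      (fun b l => hM b (some (Sum.inr (Sum.inl l)))) (some false)
    refine ⟨v₁, ?_⟩
    rw [add_comm]
    refine DS.trans (DS.one fun x => ?_) h₁
    have : M x (emb none) = _ := hM x none
    simp [nxt, TM2.step, Cmd.entry, this, Cmd.code, hk]
  | @casesTrue k c₀ cf ct s s' t l hk _ ih =>
    intro M emb exit hM v
    obtain ⟨v₁, h₁⟩ := ih M (fun x => emb (some (Sum.inr (Sum.inr x)))) exit
      (fun b l => hM b (some (Sum.inr (Sum.inr l)))) (some true)
    refine ⟨v₁, ?_⟩
    rw [add_comm]
    refine DS.trans (DS.one fun x => ?_) h₁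
    have : M x (emb none) = _ := hM x none
    simp [nxt, TM2.step, Cmd.entry, this, Cmd.code, hk]
  | @loopNil k c s hk =>
    intro M emb exit hM v
    refine ⟨none, DS.one fun x => ?_⟩
    have : M x (emb none) = _ := hM x none
    simp [nxt, TM2.step, Cmd.entry, this, Cmd.code, hk]
  | @loopCons k c s s' s'' t t' hk _ _ ih₁ ih₂ =>
    intro M emb exit hM v
    obtain ⟨b, l, hl⟩ := List.exists_cons_of_ne_nil hk
    obtain ⟨v₁, h₁⟩ := ih₁ M (fun x => emb (some x)) (emb none)
      (fun b l => hM b (some l)) (some b)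
    obtain ⟨v₂, h₂⟩ := ih₂ M emb exit hM v₁
    refine ⟨v₂, ?_⟩
    have e : t + t' + 1 = 1 + (t + t') := by ring
    rw [e]
    refine DS.trans (DS.one fun x => ?_) (h₁.trans h₂)
    have : M x (emb none) = _ := hM x none
    simp [nxt, TM2.step, Cmd.entry, this, Cmd.code, hl]

/-! ### Averages over bit strings -/

/-- the average of a function over all bit strings of length `k` -/
noncomputable def avgW : ℕ → (List Bool → ℝ≥0∞) → ℝ≥0∞
  | 0, g => g []
  | k + 1, g => 2⁻¹ * avgW k (fun u => g (u ++ [false])) + 2⁻¹ * avgW k (fun u => g (u ++ [true]))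

theorem avgW_congr {k : ℕ} : ∀ {g g' : List Bool → ℝ≥0∞}, (∀ u, u.length = k → g u = g' u) →
    avgW k g = avgW k g' := by
  induction k with
  | zero => intro g g' h; exact h [] rfl
  | succ k ih =>
    intro g g' h
    rw [avgW, avgW, ih (g' := fun u => g' (u ++ [false])) fun u hu => h _ (by simp [hu]),
      ih (g' := fun u => g' (u ++ [true])) fun u hu => h _ (by simp [hu])]

theorem avgW_mono {k : ℕ} : ∀ {g g' : List Bool → ℝ≥0∞}, (∀ u, u.length = k → g u ≤ g' u) →
    avgW k g ≤ avgW k g' := by
  induction k with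
  | zero => intro g g' h; exact h [] rfl
  | succ k ih =>
    intro g g' h
    rw [avgW, avgW]
    exact add_le_add (mul_le_mul_right (ih fun u hu => h _ (by simp [hu])) _)
      (mul_le_mul_right (ih fun u hu => h _ (by simp [hu])) _)

theorem avgW_valB (k : ℕ) : ∀ (g : ℕ → ℝ≥0∞),
    avgW k (fun u => g (valB u)) = (2 ^ k)⁻¹ * ∑ v ∈ Finset.range (2 ^ k), g v := by
  induction k with
  | zero => intro g; simp [avgW, valB]
  | succ k ih =>
    intro g
    rw [avgW]
    have h1 : avgW k (fun u => g (valB (u ++ [false]))) = avgW k (fun u => g (valB u)) :=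
      avgW_congr fun u _ => by rw [valB_append]; simp [valB]
    have h2 : avgW k (fun u => g (valB (u ++ [true]))) = avgW k (fun u => g (valB u + 2 ^ k)) :=
      avgW_congr fun u hu => by rw [valB_append, hu]; simp [valB]
    have h5 : ∑ v ∈ Finset.range (2 ^ (k + 1)), g v =
        ∑ v ∈ Finset.range (2 ^ k), g v + ∑ v ∈ Finset.range (2 ^ k), g (2 ^ k + v) := by
      rw [pow_succ, mul_two, Finset.sum_range_add]
    have h3 : ((2 : ℝ≥0∞) ^ (k + 1))⁻¹ = 2⁻¹ * (2 ^ k)⁻¹ := by
      rw [pow_succ, ENNReal.mul_inv (by simp) (by simp), mul_comm]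
    have h6 : ∑ v ∈ Finset.range (2 ^ k), g (v + 2 ^ k) =
        ∑ v ∈ Finset.range (2 ^ k), g (2 ^ k + v) :=
      Finset.sum_congr rfl fun v _ => by rw [add_comm]
    rw [h1, h2, ih g, ih (fun v => g (v + 2 ^ k)), h3, h5, h6]
    ring

/-! ### The machine -/

/-- labels -/
abbrev SL {n : ℕ} (cA cB : Cmd (Fin (n + 3))) : Type := cA.Lbl ⊕ (Unit ⊕ (cB.Lbl ⊕ Unit))

/-- the flipping label -/
def lF {n : ℕ} (cA cB : Cmd (Fin (n + 3))) : SL cA cB := Sum.inr (Sum.inl ())

/-- the final check -/
def lC {n : ℕ} (cA cB : Cmd (Fin (n + 3))) : SL cA cB := Sum.inr (Sum.inr (Sum.inr ()))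

/-- the program for flipping coins -/
def stF {n : ℕ} (cA cB : Cmd (Fin (n + 3))) (b : Bool) : Cmd.Stm (Fin (n + 3)) (SL cA cB) :=
  TM2.Stmt.peek 1 (fun _ a => a) (TM2.Stmt.branch (fun v => v == some true)
    (TM2.Stmt.pop 1 (fun v _ => v) (TM2.Stmt.pop 1 (fun v _ => v)
      (if b then TM2.Stmt.push 2 (fun _ => false) (TM2.Stmt.push 2 (fun _ => false)
          (TM2.Stmt.push 2 (fun _ => true) (TM2.Stmt.push 2 (fun _ => true)
            (TM2.Stmt.goto fun _ => lF cA cB))))
        else TM2.Stmt.push 2 (fun _ => false) (TM2.Stmt.push 2 (fun _ => true)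
            (TM2.Stmt.goto fun _ => lF cA cB)))))
    (TM2.Stmt.goto fun _ => Sum.inr (Sum.inr (Sum.inl cB.entry))))

/-- the program for the final check -/
def stC {n : ℕ} (cA cB : Cmd (Fin (n + 3))) : Cmd.Stm (Fin (n + 3)) (SL cA cB) :=
  TM2.Stmt.pop 0 (fun v _ => v) (TM2.Stmt.pop 0 (fun _ a => a)
    (TM2.Stmt.branch (fun v => v == some false)
      (TM2.Stmt.load (fun _ => none) (TM2.Stmt.goto fun _ => Sum.inl cA.entry))
      (TM2.Stmt.pop 0 (fun v _ => v) (TM2.Stmt.pop 0 (fun v _ => v) TM2.Stmt.halt))))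

/-- the program -/
def sProg {n : ℕ} (cA cB : Cmd (Fin (n + 3))) (b : Bool) :
    SL cA cB → Cmd.Stm (Fin (n + 3)) (SL cA cB)
  | Sum.inl l => cA.code Sum.inl (lF cA cB) l
  | Sum.inr (Sum.inl _) => stF cA cB b
  | Sum.inr (Sum.inr (Sum.inl l)) =>
    cB.code (fun l => Sum.inr (Sum.inr (Sum.inl l))) (lC cA cB) l
  | Sum.inr (Sum.inr (Sum.inr _)) => stC cA cB

/-- the machine -/
def smp {n : ℕ} (cA cB : Cmd (Fin (n + 3))) : PTM where
  K := Fin (n + 3)
  decK := inferInstance
  finK := inferInstance
  io := 0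
  Λ := SL cA cB
  finΛ := inferInstance
  main := Sum.inl cA.entry
  σ := Option Bool
  finσ := inferInstance
  ini := none
  prog := sProg cA cB

/-- configurations with three stacks in use -/
def s3 (n : ℕ) (a b c : List Bool) : Fin (n + 3) → List Bool := fun i => st a b c i

@[simp] theorem s3_zero {n : ℕ} (a b c) : s3 n a b c 0 = a := rfl
@[simp] theorem s3_one {n : ℕ} (a b c) : s3 n a b c 1 = b := rfl
@[simp] theorem s3_two {n : ℕ} (a b c) : s3 n a b c 2 = c := rfl

@[simp] theorem update_s3_zero {n : ℕ} (a b c x) : update (s3 n a b c) 0 x = s3 n x b c := by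
  funext i
  by_cases h : i = 0
  · subst h; simp
  · rw [update_of_ne h]
    have : (i : ℕ) ≠ 0 := fun h' => h (Fin.ext h')
    show st a b c i = st x b c i
    rw [← update_st_zero a b c x, update_of_ne this]

@[simp] theorem update_s3_one {n : ℕ} (a b c x) : update (s3 n a b c) 1 x = s3 n a x c := by
  funext i
  by_cases h : i = 1
  · subst h; simp
  · rw [update_of_ne h]
    have : (i : ℕ) ≠ 1 := fun h' => h (Fin.ext h')
    show st a b c i = st a x c i
    rw [← update_st_one a b c x, update_of_ne this]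

@[simp] theorem update_s3_two {n : ℕ} (a b c x) : update (s3 n a b c) 2 x = s3 n a b x := by
  funext i
  by_cases h : i = 2
  · subst h; simp
  · rw [update_of_ne h]
    have : (i : ℕ) ≠ 2 := fun h' => h (Fin.ext h')
    show st a b c i = st a b x i
    rw [← update_st_two a b c x, update_of_ne this]

theorem DS.pOut {M : PTM} {t : ℕ} (y : List Bool) : ∀ {a b : M.Conf}, DS M.next t a b →
    M.pOut a y = M.pOut b y := by
  induction t with
  | zero => intro a b h; rw [show a = b from h]
  | succ t ih =>
    rintro a b ⟨a', h1, h2⟩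
    rw [M.pOut_next, h1, h1, ih h2, ← add_mul, ENNReal.inv_two_add_inv_two, one_mul]

theorem DS.eT {M : PTM} {t : ℕ} (n : ℕ) : ∀ {a b : M.Conf}, DS M.next t a b →
    M.eT n a ≤ t + M.eT n b := by
  induction t with
  | zero => intro a b h; rw [show a = b from h]; simp
  | succ t ih =>
    rintro a b ⟨a', h1, h2⟩
    refine (M.eT_next n a).trans ?_
    rw [h1, h1, ← add_mul, ENNReal.inv_two_add_inv_two, one_mul]
    calc 1 + M.eT n a' ≤ 1 + (t + M.eT n b) := add_le_add le_rfl (ih h2)
      _ = _ := by push_cast; ring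

section

variable {n : ℕ} (cA cB : Cmd (Fin (n + 3)))

/-- the configuration while flipping -/
def cF (v : Option Bool) (x : List Bool) (k : ℕ) (w : List Bool) : (smp cA cB).Conf :=
  ⟨some (lF cA cB), v, s3 n x (bits (List.replicate k ())) (bits w)⟩

theorem bits_cons_false (w : List Bool) : bits (false :: w) = true :: false :: bits w := by
  simp [bits, T.enc]

theorem bits_cons_true (w : List Bool) :
    bits (true :: w) = true :: true :: false :: false :: bits w := by
  simp [bits, T.enc]

theorem bits_rep_zero : bits (List.replicate 0 ()) = [false] := rfl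

theorem bits_rep_succ (k : ℕ) : bits (List.replicate (k + 1) ()) =
    true :: false :: bits (List.replicate k ()) := by
  simp [bits, T.enc, List.replicate_succ]

theorem next_cF_succ (v : Option Bool) (x : List Bool) (k : ℕ) (w : List Bool) (b : Bool) :
    (smp cA cB).next b (cF cA cB v x (k + 1) w) = cF cA cB (some true) x k (b :: w) := by
  unfold cF
  rw [bits_rep_succ]
  change TM2.stepAux (stF cA cB b) v (s3 n x (true :: false :: bits (List.replicate k ()))
      (bits w)) = (⟨some (lF cA cB), some true, s3 n x (bits (List.replicate k ()))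
      (bits (b :: w))⟩ : TM2.Cfg (fun _ : Fin (n + 3) => Bool) (SL cA cB) (Option Bool))
  unfold stF
  cases b
  · rw [bits_cons_false]
    simp [TM2.stepAux]
  · rw [bits_cons_true]
    simp [TM2.stepAux]

/-- the configuration at the start of the second program -/
def cB0 (x : List Bool) (w : List Bool) : (smp cA cB).Conf :=
  ⟨some (Sum.inr (Sum.inr (Sum.inl cB.entry))), some false, s3 n x [false] (bits w)⟩

theorem next_cF_zero (v : Option Bool) (x : List Bool) (w : List Bool) (b : Bool) :
    (smp cA cB).next b (cF cA cB v x 0 w) = cB0 cA cB x w := by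
  unfold cF cB0
  rw [bits_rep_zero]
  change TM2.stepAux (stF cA cB b) v (s3 n x [false] (bits w)) =
    (⟨some (Sum.inr (Sum.inr (Sum.inl cB.entry))), some false, s3 n x [false]
      (bits w)⟩ : TM2.Cfg (fun _ : Fin (n + 3) => Bool) (SL cA cB) (Option Bool))
  unfold stF
  simp [TM2.stepAux]

theorem pOut_cF (x y : List Bool) (k : ℕ) : ∀ (v : Option Bool) (w : List Bool),
    (smp cA cB).pOut (cF cA cB v x k w) y =
      avgW k (fun u => (smp cA cB).pOut (cB0 cA cB x (u ++ w)) y) := by
  induction k with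
  | zero =>
    intro v w
    exact DS.pOut y (DS.one fun b => next_cF_zero cA cB v x w b)
  | succ k ih =>
    intro v w
    rw [PTM.pOut_next, next_cF_succ, next_cF_succ, ih, ih, avgW]
    simp only [List.append_assoc, List.cons_append, List.nil_append]

theorem eT_cF (m : ℕ) (x : List Bool) (k : ℕ) : ∀ (v : Option Bool) (w : List Bool),
    (smp cA cB).eT m (cF cA cB v x k w) ≤
      (k + 1 : ℕ) + avgW k (fun u => (smp cA cB).eT m (cB0 cA cB x (u ++ w))) := by
  induction k with
  | zero =>
    intro v w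
    exact DS.eT m (DS.one fun b => next_cF_zero cA cB v x w b)
  | succ k ih =>
    intro v w
    refine ((smp cA cB).eT_next m _).trans ?_
    rw [next_cF_succ, next_cF_succ, avgW]
    simp only [List.append_assoc, List.cons_append, List.nil_append]
    calc 1 + (2⁻¹ * (smp cA cB).eT m (cF cA cB (some true) x k (false :: w)) +
          2⁻¹ * (smp cA cB).eT m (cF cA cB (some true) x k (true :: w)))
        ≤ 1 + (2⁻¹ * ((k + 1 : ℕ) + avgW k (fun u => (smp cA cB).eT m
            (cB0 cA cB x (u ++ false :: w)))) + 2⁻¹ * ((k + 1 : ℕ) +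
            avgW k (fun u => (smp cA cB).eT m (cB0 cA cB x (u ++ true :: w))))) :=
          add_le_add le_rfl (add_le_add (mul_le_mul_right (ih _ _) _)
            (mul_le_mul_right (ih _ _) _))
      _ = 1 + ((2⁻¹ + 2⁻¹) * ((k + 1 : ℕ) : ℝ≥0∞) + (2⁻¹ * avgW k (fun u => (smp cA cB).eT m
            (cB0 cA cB x (u ++ false :: w))) + 2⁻¹ *
            avgW k (fun u => (smp cA cB).eT m (cB0 cA cB x (u ++ true :: w))))) := by ring
      _ = _ := by
        rw [ENNReal.inv_two_add_inv_two, one_mul, ← add_assoc]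
        push_cast; ring

/-- the code of a result -/
def rcode (x : List Bool) : Option (List Bool) → List Bool
  | none => true :: false :: x
  | some y => true :: true :: false :: false :: y

/-- the configuration at the check -/
def cC (v : Option Bool) (z : List Bool) : (smp cA cB).Conf :=
  ⟨some (lC cA cB), v, s3 n z [] []⟩

theorem start_eq (x : List Bool) : (smp cA cB).start x =
    ⟨some (Sum.inl cA.entry), none, s3 n x [] []⟩ := by
  unfold PTM.start
  have : (update (fun _ => []) (smp cA cB).io x : (smp cA cB).K → List Bool) = s3 n x [] [] := by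
    funext i
    change Fin (n + 3) at i
    by_cases h : i = (0 : Fin (n + 3))
    · subst h
      exact update_self _ _ _
    · have h1 : update (fun _ => []) (smp cA cB).io x i = [] := update_of_ne h _ _
      have h2 : (i : ℕ) ≠ 0 := fun h' => h (Fin.ext h')
      rw [h1]
      show [] = st x [] [] i
      rw [← inp_eq_st]
      simp [inp, h2]
  rw [this]
  rfl

theorem next_cC_none (v : Option Bool) (x : List Bool) (b : Bool) :
    (smp cA cB).next b (cC cA cB v (rcode x none)) = (smp cA cB).start x := by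
  rw [start_eq]
  change TM2.stepAux (stC cA cB) v (s3 n (true :: false :: x) [] []) =
    (⟨some (Sum.inl cA.entry), none, s3 n x [] []⟩ :
      TM2.Cfg (fun _ : Fin (n + 3) => Bool) (SL cA cB) (Option Bool))
  unfold stC
  simp [TM2.stepAux]

theorem next_cC_some (v : Option Bool) (x y : List Bool) (b : Bool) :
    (smp cA cB).next b (cC cA cB v (rcode x (some y))) =
      (⟨none, some true, s3 n y [] []⟩ :
      TM2.Cfg (fun _ : Fin (n + 3) => Bool) (SL cA cB) (Option Bool)) := by
  change TM2.stepAux (stC cA cB) v (s3 n (true :: true :: false :: false :: y) [] []) =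
    (⟨none, some true, s3 n y [] []⟩ :
      TM2.Cfg (fun _ : Fin (n + 3) => Bool) (SL cA cB) (Option Bool))
  unfold stC
  simp [TM2.stepAux]

variable {cA cB}

/-- The analysis of one round. -/
theorem round_analysis {x : List Bool} {L tA : ℕ}
    (hA : Run cA (s3 n x [] []) (s3 n x (bits (List.replicate L ())) (bits ([] : List Bool))) tA)
    (R : List Bool → Option (List Bool)) (tB : List Bool → ℕ)
    (hB : ∀ w : List Bool, w.length = L →
      Run cB (s3 n x [false] (bits w)) (s3 n (rcode x (R w)) [] []) (tB w)) :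
    (∀ y, (smp cA cB).pOut ((smp cA cB).start x) y =
      avgW L (fun w => if R w = none then (smp cA cB).pOut ((smp cA cB).start x) y else
        if R w = some y then 1 else 0)) ∧
    ∀ m, (smp cA cB).eT m ((smp cA cB).start x) ≤ (tA + L + 1 : ℕ) +
      avgW L (fun w => (tB w + 1 : ℕ) +
        if R w = none then (smp cA cB).eT m ((smp cA cB).start x) else 0) := by
  -- the first segment
  obtain ⟨v1, h1⟩ := code_correct' hA (sProg cA cB) Sum.inl (lF cA cB) (fun b l => rfl) none
  have h1' : DS (smp cA cB).next tA ((smp cA cB).start x) (cF cA cB v1 x L []) := by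
    rw [start_eq]; exact h1
  -- the second
  have h2 : ∀ w : List Bool, w.length = L → ∃ v2, DS (smp cA cB).next (tB w) (cB0 cA cB x w)
      (cC cA cB v2 (rcode x (R w))) := by
    intro w hw
    obtain ⟨v2, h2⟩ := code_correct' (hB w hw) (sProg cA cB)
      (fun l => Sum.inr (Sum.inr (Sum.inl l))) (lC cA cB) (fun b l => rfl) (some false)
    exact ⟨v2, h2⟩
  constructor
  · intro y
    refine ((DS.pOut y h1').trans (pOut_cF cA cB x y L v1 [])).trans ?_
    apply avgW_congr
    intro w hw
    rw [List.append_nil]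
    obtain ⟨v2, h3⟩ := h2 w hw
    rw [DS.pOut y h3]
    cases hR : R w with
    | none =>
      rw [if_pos rfl]
      exact DS.pOut y (DS.one fun b => next_cC_none cA cB v2 x b)
    | some z =>
      rw [if_neg (by simp)]
      rw [DS.pOut y (DS.one fun b => next_cC_some cA cB v2 x z b), PTM.pOut_halted]
      · have : s3 n z [] [] (0 : Fin (n + 3)) = z := rfl
        change (if s3 n z [] [] (0 : Fin (n + 3)) = y then (1 : ℝ≥0∞) else 0) = _
        rw [this]
        simp only [Option.some.injEq]
      · rfl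
  · intro m
    refine (DS.eT m h1').trans ?_
    have h4 : avgW L (fun u => (smp cA cB).eT m (cB0 cA cB x (u ++ []))) ≤
        avgW L (fun w => (tB w + 1 : ℕ) +
        if R w = none then (smp cA cB).eT m ((smp cA cB).start x) else 0) := by
      apply avgW_mono
      intro w hw
      rw [List.append_nil]
      obtain ⟨v2, h3⟩ := h2 w hw
      cases hR : R w with
      | none =>
        rw [if_pos rfl]
        rw [hR] at h3
        exact DS.eT m (h3.trans (DS.one fun b => next_cC_none cA cB v2 x b))
      | some z =>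
        rw [if_neg (by simp)]
        rw [hR] at h3
        refine (DS.eT m (h3.trans (DS.one fun b => next_cC_some cA cB v2 x z b))).trans ?_
        rw [PTM.eT_halted _ _ rfl]
    calc _ ≤ (tA : ℝ≥0∞) + ((L + 1 : ℕ) + avgW L (fun u => (smp cA cB).eT m
            (cB0 cA cB x (u ++ [])))) := add_le_add le_rfl (eT_cF cA cB m x L v1 [])
      _ ≤ (tA : ℝ≥0∞) + ((L + 1 : ℕ) + _) := add_le_add le_rfl (add_le_add le_rfl h4)
      _ = _ := by push_cast; ring

end

end Pool.Agent.R561
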