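import Mathlib

/-!
# A spectral lemma for symmetric matrices `A` with `A ≤ A ^ 2`
-/

set_option autoImplicit false

namespace Pool.Agent.R561

open Matrix Finset

variable {ι : Type*} [Fintype ι] [DecidableEq ι]

/-- If `A ≤ A ^ 2` as quadratic forms and every eigenvector with eigenvalue at least `1` has
eigenvalue `1` and is a multiple of `s`, then `A` is at most the projection to `s`. -/
theorem spec_le (A : Matrix ι ι ℝ) (hA : A.IsHermitian) (s : ι → ℝ)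
    (h1 : ∀ ψ : ι → ℝ, ψ ⬝ᵥ (A *ᵥ ψ) ≤ (A *ᵥ ψ) ⬝ᵥ (A *ᵥ ψ))
    (h2 : ∀ (ψ : ι → ℝ) (l : ℝ), ψ ≠ 0 → A *ᵥ ψ = l • ψ → 1 ≤ l → l = 1 ∧ ∃ c : ℝ, ψ = c • s)
    (ψ : ι → ℝ) : (ψ ⬝ᵥ (A *ᵥ ψ)) * (s ⬝ᵥ s) ≤ (s ⬝ᵥ ψ) ^ 2 := by
  classical
  set b := hA.eigenvectorBasis with hb
  set ev := hA.eigenvalues with hev
  -- the eigenvectors as plain functions
  let v : ι → ι → ℝ := fun k => (b k : EuclideanSpace ℝ ι).ofLp
  have hv : ∀ k, A *ᵥ (v k) = ev k • v k := fun k => hA.mulVec_eigenvectorBasis k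
  have hinner : ∀ x y : EuclideanSpace ℝ ι, inner ℝ x y = x.ofLp ⬝ᵥ y.ofLp := by
    intro x y
    rw [EuclideanSpace.inner_eq_star_dotProduct]
    simp [dotProduct_comm]
  have hon : ∀ k l, v k ⬝ᵥ v l = if k = l then 1 else 0 := by
    intro k l
    rw [← hinner]
    have := (orthonormal_iff_ite.1 b.orthonormal) k l
    exact this
  have hv1 : ∀ k, v k ⬝ᵥ v k = 1 := fun k => by rw [hon]; simp
  have hvne : ∀ k, v k ≠ 0 := by
    intro k h
    have := hv1 k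
    rw [h] at this
    simp at this
  -- expansion
  have hexp : ψ = ∑ k, (v k ⬝ᵥ ψ) • v k := by
    have h3 := b.sum_repr' (WithLp.toLp 2 ψ : EuclideanSpace ℝ ι)
    have h4 := congrArg (fun x : EuclideanSpace ℝ ι => x.ofLp) h3
    simp only at h4
    rw [WithLp.ofLp_sum] at h4
    refine h4.symm.trans (Finset.sum_congr rfl fun k _ => ?_)
    rw [hinner]
    rfl
  have hq : ψ ⬝ᵥ (A *ᵥ ψ) = ∑ k, ev k * (v k ⬝ᵥ ψ) ^ 2 := by
    have h3 : A *ᵥ ψ = ∑ k, ((v k ⬝ᵥ ψ) * ev k) • v k := by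
      conv_lhs => rw [hexp]
      rw [Matrix.mulVec_sum]
      apply Finset.sum_congr rfl
      intro k _
      rw [Matrix.mulVec_smul, hv, smul_smul]
    rw [h3, dotProduct_sum]
    apply Finset.sum_congr rfl
    intro k _
    rw [dotProduct_smul, smul_eq_mul, dotProduct_comm ψ (v k)]
    ring
  have hpos : ∀ k, 0 < ev k → ev k = 1 ∧ ∃ c : ℝ, v k = c • s := by
    intro k hk
    have h3 := h1 (v k)
    rw [hv, dotProduct_smul, smul_dotProduct, dotProduct_smul, hv1] at h3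
    simp only [smul_eq_mul, mul_one] at h3
    have h4 : 1 ≤ ev k := by nlinarith
    exact h2 (v k) (ev k) (hvne k) (hv k) h4
  have hss : 0 ≤ s ⬝ᵥ s := by
    rw [dotProduct]
    exact Finset.sum_nonneg fun i _ => mul_self_nonneg _
  rw [hq]
  by_cases hex : ∃ k0, 0 < ev k0
  · obtain ⟨k0, hk0⟩ := hex
    obtain ⟨he, c, hc⟩ := hpos k0 hk0
    have hcc : c * c * (s ⬝ᵥ s) = 1 := by
      have := hv1 k0
      rw [hc, smul_dotProduct, dotProduct_smul] at this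
      simpa [mul_assoc] using this
    have hle : ∀ k, k ≠ k0 → ev k ≤ 0 := by
      intro k hk
      by_contra hcon
      push Not at hcon
      obtain ⟨_, c', hc'⟩ := hpos k hcon
      have h3 := hon k k0
      rw [if_neg hk, hc, hc', smul_dotProduct, dotProduct_smul, smul_eq_mul, smul_eq_mul] at h3
      have h5 := hv1 k
      rw [hc', smul_dotProduct, dotProduct_smul, smul_eq_mul, smul_eq_mul] at h5
      have h6 : (c' * (c' * (s ⬝ᵥ s))) * (c * c * (s ⬝ᵥ s)) = (c' * (c * (s ⬝ᵥ s))) ^ 2 := by ring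
      rw [h3, h5, hcc] at h6
      norm_num at h6
    have h3 : ∑ k, ev k * (v k ⬝ᵥ ψ) ^ 2 ≤ (v k0 ⬝ᵥ ψ) ^ 2 := by
      rw [← Finset.add_sum_erase _ _ (Finset.mem_univ k0), he, one_mul]
      have : ∑ k ∈ Finset.univ.erase k0, ev k * (v k ⬝ᵥ ψ) ^ 2 ≤ 0 := by
        apply Finset.sum_nonpos
        intro k hk
        exact mul_nonpos_of_nonpos_of_nonneg (hle k (Finset.ne_of_mem_erase hk)) (sq_nonneg _)
      linarith
    have h4 : (v k0 ⬝ᵥ ψ) = c * (s ⬝ᵥ ψ) := by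
      rw [hc, smul_dotProduct, smul_eq_mul]
    calc (∑ k, ev k * (v k ⬝ᵥ ψ) ^ 2) * (s ⬝ᵥ s) ≤ (v k0 ⬝ᵥ ψ) ^ 2 * (s ⬝ᵥ s) :=
          mul_le_mul_of_nonneg_right h3 hss
      _ = (c * c * (s ⬝ᵥ s)) * (s ⬝ᵥ ψ) ^ 2 := by rw [h4]; ring
      _ = (s ⬝ᵥ ψ) ^ 2 := by rw [hcc, one_mul]
  · push Not at hex
    have h3 : ∑ k, ev k * (v k ⬝ᵥ ψ) ^ 2 ≤ 0 := by
      apply Finset.sum_nonpos
      intro k _
      exact mul_nonpos_of_nonpos_of_nonneg (hex k) (sq_nonneg _)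
    nlinarith [mul_nonneg (neg_nonneg.2 h3) hss, sq_nonneg (s ⬝ᵥ ψ)]

end Pool.Agent.R561
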