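import Pool.Agent.R561.Indep
import Pool.Agent.R561.Samp2

/-!
# Spanning trees as bases; the greedy basis
-/

set_option autoImplicit false
set_option linter.unusedSectionVars false
set_option linter.unusedVariables false

namespace Pool.Agent.R561

open Pool.Agent.NPC
open Finset

section rank

variable {V : Type*} [AddCommGroup V] [Module ℚ V] {N : ℕ} (c : Fin N → V)

theorem rank_eq {Z : Finset (Fin N)} (h : LinearIndepOn ℚ c (Z : Set (Fin N))) :
    Module.finrank ℚ (Submodule.span ℚ (c '' (Z : Set (Fin N)))) = Z.card := by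
  have h1 : LinearIndependent ℚ (fun i : (Z : Set (Fin N)) => c i) := h
  have h2 := finrank_span_eq_card h1
  have h3 : Set.range (fun i : (Z : Set (Fin N)) => c i) = c '' (Z : Set (Fin N)) := by
    rw [Set.image_eq_range]
  rw [h3] at h2
  rw [h2]
  simp

theorem fd_span (Z : Finset (Fin N)) :
    FiniteDimensional ℚ (Submodule.span ℚ (c '' (Z : Set (Fin N)))) :=
  FiniteDimensional.span_of_finite ℚ ((Z.finite_toSet).image c)

/-- The exchange property of linear independence. -/
theorem exch_lin {S S' : Finset (Fin N)} (h : LinearIndepOn ℚ c (S : Set (Fin N)))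
    (h' : LinearIndepOn ℚ c (S' : Set (Fin N))) (hc : S.card = S'.card) {a : Fin N}
    (ha : a ∈ S) (ha' : a ∉ S') :
    ∃ y ∈ S', y ∉ S ∧ LinearIndepOn ℚ c ((insert y (S.erase a) : Finset (Fin N)) : Set (Fin N)) := by
  have he : LinearIndepOn ℚ c ((S.erase a : Finset (Fin N)) : Set (Fin N)) :=
    h.mono (by intro i hi; exact mem_of_mem_erase hi)
  obtain ⟨y, hy, hny⟩ : ∃ y ∈ S', c y ∉ Submodule.span ℚ (c '' ((S.erase a : Finset (Fin N)) :
      Set (Fin N))) := by
    by_contra hcon
    push Not at hcon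
    have h1 : Submodule.span ℚ (c '' (S' : Set (Fin N))) ≤
        Submodule.span ℚ (c '' ((S.erase a : Finset (Fin N)) : Set (Fin N))) := by
      rw [Submodule.span_le]
      rintro _ ⟨y, hy, rfl⟩
      exact hcon y hy
    have := fd_span c (S.erase a)
    have h2 := Submodule.finrank_mono h1
    rw [rank_eq c h', rank_eq c he, card_erase_of_mem ha] at h2
    have := card_pos.2 ⟨a, ha⟩
    omega
  refine ⟨y, hy, ?_, ?_⟩
  · intro hyS
    apply hny
    apply Submodule.subset_span
    refine ⟨y, ?_, rfl⟩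
    rw [Finset.mem_coe, mem_erase]
    exact ⟨fun h => ha' (h ▸ hy), hyS⟩
  · rw [Finset.coe_insert]
    exact he.insert hny

/-- An independent set with as many elements as a spanning one spans. -/
theorem span_of_card {Z Z0 : Finset (Fin N)} (h : LinearIndepOn ℚ c (Z : Set (Fin N)))
    (h0 : LinearIndepOn ℚ c (Z0 : Set (Fin N))) (hc : Z.card = Z0.card)
    (hs : ∀ i, c i ∈ Submodule.span ℚ (c '' (Z0 : Set (Fin N)))) :
    Submodule.span ℚ (c '' (Z : Set (Fin N))) = Submodule.span ℚ (Set.range c) := by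
  have h1 : Submodule.span ℚ (Set.range c) = Submodule.span ℚ (c '' (Z0 : Set (Fin N))) := by
    apply le_antisymm
    · rw [Submodule.span_le]
      rintro _ ⟨i, rfl⟩
      exact hs i
    · exact Submodule.span_mono (Set.image_subset_range _ _)
  have h2 : Submodule.span ℚ (c '' (Z : Set (Fin N))) ≤ Submodule.span ℚ (Set.range c) :=
    Submodule.span_mono (Set.image_subset_range _ _)
  rw [h1] at h2 ⊢
  have := fd_span c Z0
  exact Submodule.eq_of_le_of_finrank_eq h2 (by rw [rank_eq c h, rank_eq c h0, hc])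

end rank

variable {x : LL} {Δ : Finset (Finset ℕ)}

/-! ### The greedy basis -/

theorem base_spec (hL : Lists x Δ) (hΔ : IsComplex Δ) (htop : ∀ F ∈ topF x, 2 ≤ F.length) :
    ∃ Z : Finset (Fin (nT x)), li Z = base x ∧ LinearIndepOn ℚ (col x) (Z : Set (Fin (nT x))) ∧
      ∀ i, col x i ∈ Submodule.span ℚ (col x '' (Z : Set (Fin (nT x)))) := by
  have key : ∀ k ≤ nT x, ∃ Z : Finset (Fin (nT x)),
      li Z = (List.range k).foldl (fun B i => bif indL x (B ++ [i]) then B ++ [i] else B) [] ∧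
      (∀ i ∈ Z, (i : ℕ) < k) ∧ LinearIndepOn ℚ (col x) (Z : Set (Fin (nT x))) ∧
      ∀ i : Fin (nT x), (i : ℕ) < k → col x i ∈ Submodule.span ℚ (col x '' (Z : Set (Fin (nT x)))) := by
    intro k
    induction k with
    | zero =>
      intro _
      refine ⟨∅, ?_, ?_, ?_, ?_⟩
      · have : li (∅ : Finset (Fin (nT x))) = [] := by
          rw [← List.length_eq_zero_iff, length_li, card_empty]
        rw [this]; rfl
      · intro i hi; exact absurd hi (notMem_empty i)
      · rw [Finset.coe_empty]; exact linearIndepOn_empty ℚ _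
      · intro i hi; omega
    | succ k ih =>
      intro hk
      obtain ⟨Z, h1, h2, h3, h4⟩ := ih (by omega)
      rw [List.range_succ, List.foldl_append, ← h1]
      set kF : Fin (nT x) := ⟨k, by omega⟩ with hkF
      have hkZ : kF ∉ Z := fun h => by
        have := h2 _ h
        simp [hkF] at this
      have hlist : li Z ++ [k] = li (insert kF Z) := by
        apply eq_of_toFinset
        · rw [List.pairwise_append]
          refine ⟨pw_of_sub (li_sub Z), List.pairwise_singleton _ _, ?_⟩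
          intro a ha b hb
          rw [List.mem_singleton] at hb
          rw [hb]
          obtain ⟨i, hi, rfl⟩ := mem_li.1 ha
          exact h2 i hi
        · exact pw_of_sub (li_sub _)
        · ext a
          rw [List.mem_toFinset, List.mem_toFinset, List.mem_append, List.mem_singleton, mem_li,
            mem_li]
          constructor
          · rintro (⟨i, hi, rfl⟩ | rfl)
            · exact ⟨i, mem_insert_of_mem hi, rfl⟩
            · exact ⟨kF, mem_insert_self _ _, rfl⟩
          · rintro ⟨i, hi, rfl⟩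
            rw [mem_insert] at hi
            rcases hi with rfl | hi
            · exact Or.inr rfl
            · exact Or.inl ⟨i, hi, rfl⟩
      have hstep : [k].foldl (fun B i => bif indL x (B ++ [i]) then B ++ [i] else B) (li Z) =
          bif indL x (li (insert kF Z)) then li (insert kF Z) else li Z := by
        simp only [List.foldl_cons, List.foldl_nil]
        rw [hlist]
      rw [hstep]
      by_cases hind : indL x (li (insert kF Z)) = true
      · refine ⟨insert kF Z, ?_, ?_, (indL_iff hL hΔ htop _).1 hind, ?_⟩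
        · rw [hind]; rfl
        · intro i hi
          rw [mem_insert] at hi
          rcases hi with rfl | hi
          · simp [hkF]
          · have := h2 i hi; omega
        · intro i hi
          by_cases hik : (i : ℕ) < k
          · refine Submodule.span_mono (Set.image_mono ?_) (h4 i hik)
            rw [Finset.coe_insert]; exact Set.subset_insert _ _
          · have : i = kF := Fin.ext (by simp [hkF]; omega)
            rw [this]
            exact Submodule.subset_span ⟨kF, by rw [Finset.coe_insert]; exact Set.mem_insert _ _, rfl⟩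
      · refine ⟨Z, ?_, ?_, h3, ?_⟩
        · rw [Bool.not_eq_true] at hind
          rw [hind]; rfl
        · intro i hi
          have := h2 i hi; omega
        · intro i hi
          by_cases hik : (i : ℕ) < k
          · exact h4 i hik
          · have hiF : i = kF := Fin.ext (by simp [hkF]; omega)
            rw [hiF]
            by_contra hcon
            apply hind
            rw [indL_iff hL hΔ htop, Finset.coe_insert]
            exact h3.insert hcon
  obtain ⟨Z, h1, _, h3, h4⟩ := key (nT x) le_rfl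
  exact ⟨Z, h1, h3, fun i => h4 i i.2⟩

theorem mem_fam_iff (hL : Lists x Δ) (hΔ : IsComplex Δ) (htop : ∀ F ∈ topF x, 2 ≤ F.length)
    {Z : Finset (Fin (nT x))} : Z ∈ fam x ↔ LinearIndepOn ℚ (col x) (Z : Set (Fin (nT x))) ∧
      Submodule.span ℚ (col x '' (Z : Set (Fin (nT x)))) =
        Submodule.span ℚ (Set.range (col x)) := by
  obtain ⟨Z0, h1, h2, h3⟩ := base_spec hL hΔ htop
  rw [mem_fam, indL_iff hL hΔ htop, ← h1, length_li]
  constructor
  · rintro ⟨h4, h5⟩
    exact ⟨h5, span_of_card _ h5 h2 h4 h3⟩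
  · rintro ⟨h4, h5⟩
    refine ⟨?_, h4⟩
    have h6 := span_of_card _ h2 h2 rfl h3
    rw [← rank_eq _ h4, ← rank_eq _ h2, h5, h6]

theorem isBF_fam (hL : Lists x Δ) (hΔ : IsComplex Δ) (htop : ∀ F ∈ topF x, 2 ≤ F.length) :
    IsBF (base x).length (fam x) := by
  constructor
  · intro B hB; exact ((mem_fam x).1 hB).1
  · intro S hS S' hS' a ha ha'
    obtain ⟨h1, h2⟩ := (mem_fam x).1 hS
    obtain ⟨h1', h2'⟩ := (mem_fam x).1 hS'
    rw [indL_iff hL hΔ htop] at h2 h2'
    obtain ⟨y, hy, hyS, hind⟩ := exch_lin _ h2 h2' (by rw [h1, h1']) ha ha'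
    refine ⟨y, hy, hyS, ?_⟩
    rw [mem_fam, card_exch ha hyS, indL_iff hL hΔ htop]
    exact ⟨h1, hind⟩

/-! ### Top faces -/

theorem length_eq_card (hL : Lists x Δ) {F : List ℕ} (hF : F ∈ x) :
    F.toFinset.card = F.length :=
  List.toFinset_card_of_nodup ((hL.sorted F hF).imp (fun h => ne_of_lt h))

theorem mem_topF (hL : Lists x Δ) {d : ℕ} (hd : HasDim Δ d) {F : List ℕ} :
    F ∈ topF x ↔ F ∈ x ∧ F.length = d + 1 := by
  obtain ⟨⟨s, hs, hsc⟩, hmax⟩ := hd
  obtain ⟨G, hG, hGs⟩ := (hL.mem s).1 hs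
  have hle : ∀ F ∈ x, F.length ≤ d + 1 := by
    intro F hF
    rw [← length_eq_card hL hF]
    exact hmax _ ((hL.mem _).2 ⟨F, hF, rfl⟩)
  have hGl : G.length = d + 1 := by rw [← length_eq_card hL hG, hGs, hsc]
  unfold topF
  rw [List.mem_filter, List.all_eq_true]
  apply and_congr_right
  intro hF
  constructor
  · intro h
    have h1 := h G hG
    rw [decide_eq_true_eq] at h1
    have := hle F hF
    omega
  · intro h H hH
    rw [decide_eq_true_eq, h]
    exact hle H hH

theorem tf_inj (hL : Lists x Δ) {i j : Fin (nT x)} (h : tf x i = tf x j) : i = j := by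
  have h1 : (topF x).getD i [] = (topF x).getD j [] :=
    eq_of_toFinset (getD_sorted hL _) (getD_sorted hL _) h
  have hi : (i : ℕ) < (topF x).length := i.2
  have hj : (j : ℕ) < (topF x).length := j.2
  rw [List.getD_eq_getElem _ _ hi, List.getD_eq_getElem _ _ hj] at h1
  have hnd : (topF x).Nodup := hL.nodup.filter _
  exact Fin.ext ((List.Nodup.getElem_inj_iff hnd).1 h1)

theorem tf_surj (hL : Lists x Δ) {d : ℕ} (hd : HasDim Δ d) {s : Finset ℕ} :
    (∃ i : Fin (nT x), tf x i = s) ↔ s ∈ Δ ∧ s.card = d + 1 := by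
  constructor
  · rintro ⟨i, rfl⟩
    have h1 := (mem_topF hL hd).1 (topF_getD x i)
    refine ⟨(hL.mem _).2 ⟨_, h1.1, rfl⟩, ?_⟩
    unfold tf
    rw [length_eq_card hL h1.1]; exact h1.2
  · rintro ⟨hs, hc⟩
    obtain ⟨F, hF, rfl⟩ := (hL.mem s).1 hs
    have h1 : F ∈ topF x := (mem_topF hL hd).2 ⟨hF, by rw [← length_eq_card hL hF]; exact hc⟩
    obtain ⟨i, hi, hiF⟩ := List.mem_iff_getElem.1 h1
    refine ⟨⟨i, hi⟩, ?_⟩
    unfold tf
    rw [List.getD_eq_getElem _ _ hi, hiF]

/-- the subcomplex of a set of top faces -/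
def ups (x : LL) (Δ : Finset (Finset ℕ)) (d : ℕ) (Z : Finset (Fin (nT x))) : Finset (Finset ℕ) :=
  Δ.filter (fun s => s.card ≤ d ∨ ∃ i ∈ Z, tf x i = s)

theorem ups_top (hL : Lists x Δ) {d : ℕ} (hd : HasDim Δ d) (Z : Finset (Fin (nT x))) :
    {F : Finset ℕ | F ∈ ups x Δ d Z ∧ F.card = d + 1} =
      (fun i : Fin (nT x) => tf x i) '' (Z : Set (Fin (nT x))) := by
  ext s
  simp only [ups, mem_filter, Set.mem_ofPred_eq, Set.mem_image, Finset.mem_coe]
  constructor
  · rintro ⟨⟨_, h1 | ⟨i, hi, h1⟩⟩, h2⟩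
    · omega
    · exact ⟨i, hi, h1⟩
  · rintro ⟨i, hi, rfl⟩
    have h1 := (tf_surj hL hd).1 ⟨i, rfl⟩
    exact ⟨⟨h1.1, Or.inr ⟨i, hi, rfl⟩⟩, h1.2⟩

theorem ups_inj (hL : Lists x Δ) {d : ℕ} (hd : HasDim Δ d) {Z Z' : Finset (Fin (nT x))}
    (h : ups x Δ d Z = ups x Δ d Z') : Z = Z' := by
  have h1 : (fun i : Fin (nT x) => tf x i) '' (Z : Set (Fin (nT x))) =
      (fun i : Fin (nT x) => tf x i) '' (Z' : Set (Fin (nT x))) := by
    rw [← ups_top hL hd, ← ups_top hL hd, h]
  have hinj : Function.Injective (fun i : Fin (nT x) => tf x i) := fun i j h => tf_inj hL h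
  exact Finset.coe_injective (hinj.image_injective h1)

theorem isTree_iff (hL : Lists x Δ) (hΔ : IsComplex Δ) {d : ℕ} (hd1 : 1 ≤ d) (hd : HasDim Δ d)
    (Z : Finset (Fin (nT x))) : IsSpanningTree Δ d (ups x Δ d Z) ↔ Z ∈ fam x := by
  have htop : ∀ F ∈ topF x, 2 ≤ F.length := by
    intro F hF
    have := ((mem_topF hL hd).1 hF).2
    omega
  have hinj : Function.Injective (fun i : Fin (nT x) => tf x i) := fun i j h => tf_inj hL h
  have h1 : LinearIndepOn ℚ bd {F | F ∈ ups x Δ d Z ∧ F.card = d + 1} ↔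
      LinearIndepOn ℚ (col x) (Z : Set (Fin (nT x))) := by
    rw [ups_top hL hd]
    constructor
    · intro h; exact h.comp_of_image hinj.injOn
    · intro h; exact LinearIndepOn.image_of_comp _ _ h
  have h2 : bd '' {F | F ∈ ups x Δ d Z ∧ F.card = d + 1} = col x '' (Z : Set (Fin (nT x))) := by
    rw [ups_top hL hd, Set.image_image]
    rfl
  have h3 : bd '' {F | F ∈ Δ ∧ F.card = d + 1} = Set.range (col x) := by
    ext v
    simp only [Set.mem_image, Set.mem_ofPred_eq, Set.mem_range]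
    constructor
    · rintro ⟨s, hs, rfl⟩
      obtain ⟨i, rfl⟩ := (tf_surj hL hd).2 hs
      exact ⟨i, rfl⟩
    · rintro ⟨i, rfl⟩
      exact ⟨_, (tf_surj hL hd).1 ⟨i, rfl⟩, rfl⟩
  rw [mem_fam_iff hL hΔ htop]
  constructor
  · intro h
    refine ⟨h1.1 h.indep, ?_⟩
    rw [← h2, ← h3]; exact h.span
  · rintro ⟨h4, h5⟩
    refine ⟨?_, filter_subset _ _, ?_, h1.2 h4, ?_⟩
    · constructor
      · intro s hs; exact hΔ.nonempty s (mem_filter.1 hs).1
      · intro s hs t hts ht
        obtain ⟨hsΔ, hs'⟩ := mem_filter.1 hs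
        have htΔ := hΔ.down s hsΔ t hts ht
        refine mem_filter.2 ⟨htΔ, ?_⟩
        by_cases hst : t = s
        · rw [hst]; exact hs'
        · left
          have h6 : t.card < s.card := card_lt_card (ssubset_of_subset_of_ne hts hst)
          have h7 := hd.2 s hsΔ
          omega
    · intro s hs hc
      exact mem_filter.2 ⟨hs, Or.inl hc⟩
    · rw [h2, h3]; exact h5

theorem tree_eq_ups (hL : Lists x Δ) {d : ℕ} (hd : HasDim Δ d) {Υ : Finset (Finset ℕ)}
    (h : IsSpanningTree Δ d Υ) :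
    Υ = ups x Δ d (univ.filter (fun i : Fin (nT x) => tf x i ∈ Υ)) := by
  ext s
  unfold ups
  rw [mem_filter]
  constructor
  · intro hs
    have hsΔ := h.sub hs
    refine ⟨hsΔ, ?_⟩
    have h1 := hd.2 s hsΔ
    by_cases hc : s.card ≤ d
    · exact Or.inl hc
    · right
      obtain ⟨i, hi⟩ := (tf_surj hL hd).2 ⟨hsΔ, by omega⟩
      exact ⟨i, by rw [mem_filter, hi]; exact ⟨mem_univ _, hs⟩, hi⟩
  · rintro ⟨hsΔ, hc | ⟨i, hi, rfl⟩⟩
    · exact h.skel s hsΔ hc
    · exact (mem_filter.1 hi).2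

theorem outB_eq (hL : Lists x Δ) {d : ℕ} (hd : HasDim Δ d) (Z : Finset (Fin (nT x))) :
    outB x (li Z) = x.filter (fun F => decide (F.toFinset ∈ ups x Δ d Z)) := by
  unfold outB
  apply List.filter_congr
  intro F hF
  rw [Bool.eq_iff_iff]
  simp only [Bool.or_eq_true, Bool.not_eq_true', decide_eq_false_iff_not, List.any_eq_true,
    decide_eq_true_eq]
  unfold ups
  rw [mem_filter, length_eq_card hL hF]
  have hFΔ : F.toFinset ∈ Δ := (hL.mem _).2 ⟨F, hF, rfl⟩
  have hle : F.length ≤ d + 1 := by rw [← length_eq_card hL hF]; exact hd.2 _ hFΔ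
  constructor
  · rintro (h | ⟨k, hk, h⟩)
    · refine ⟨hFΔ, Or.inl ?_⟩
      rw [mem_topF hL hd] at h
      by_contra hcon
      exact h ⟨hF, by omega⟩
    · obtain ⟨i, hi, rfl⟩ := mem_li.1 hk
      refine ⟨hFΔ, Or.inr ⟨i, hi, ?_⟩⟩
      unfold tf
      rw [h]
  · rintro ⟨_, h | ⟨i, hi, h⟩⟩
    · left
      rw [mem_topF hL hd]
      rintro ⟨_, h'⟩
      omega
    · right
      refine ⟨i, mem_li.2 ⟨i, hi, rfl⟩, ?_⟩
      exact eq_of_toFinset (getD_sorted hL _) (hL.sorted F hF) h

theorem filter_inj (hL : Lists x Δ) {Υ Υ' : Finset (Finset ℕ)} (h1 : Υ ⊆ Δ) (h2 : Υ' ⊆ Δ)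
    (h : x.filter (fun F => decide (F.toFinset ∈ Υ)) =
      x.filter (fun F => decide (F.toFinset ∈ Υ'))) : Υ = Υ' := by
  have key : ∀ (Υ Υ' : Finset (Finset ℕ)), Υ ⊆ Δ → x.filter (fun F => decide (F.toFinset ∈ Υ)) =
      x.filter (fun F => decide (F.toFinset ∈ Υ')) → Υ ⊆ Υ' := by
    intro Υ Υ' h1 h s hs
    obtain ⟨F, hF, rfl⟩ := (hL.mem s).1 (h1 hs)
    have : F ∈ x.filter (fun F => decide (F.toFinset ∈ Υ)) :=
      List.mem_filter.2 ⟨hF, decide_eq_true hs⟩
    rw [h, List.mem_filter, decide_eq_true_eq] at this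
    exact this.2
  exact Finset.Subset.antisymm (key _ _ h1 h) (key _ _ h2 h.symm)

theorem good (hL : Lists x Δ) (hΔ : IsComplex Δ) {d : ℕ} (hd1 : 1 ≤ d) (hd : HasDim Δ d) :
    Good x := by
  have htop : ∀ F ∈ topF x, 2 ≤ F.length := by
    intro F hF
    have := ((mem_topF hL hd).1 hF).2
    omega
  refine ⟨isBF_fam hL hΔ htop, ?_, ?_⟩
  · obtain ⟨Z0, h1, h2, h3⟩ := base_spec hL hΔ htop
    refine ⟨Z0, ?_, h1⟩
    rw [mem_fam, ← h1, length_li, indL_iff hL hΔ htop]
    exact ⟨rfl, h2⟩
  · intro Y _ Y' _ h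
    rw [outB_eq hL hd, outB_eq hL hd] at h
    exact ups_inj hL hd (filter_inj hL (filter_subset _ _) (filter_subset _ _) h)

end Pool.Agent.R561
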